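import Pool.Agent.HMT.Spec

/-!
# HMT, module HB: the colourings of `addB W T`
-/

set_option autoImplicit false

namespace Pool.Agent.HMT

open Polynomial Matrix Pool.Agent.HMA

namespace HBAux

theorem single_inl {m n : Type} [DecidableEq m] [DecidableEq n] (i : m) (x : ℝ) :
    (Pi.single (Sum.inl i) x : m ⊕ n → ℝ) = Sum.elim (Pi.single i x) 0 := by
  funext y
  rcases y with y | y
  · rw [Sum.elim_inl]
    by_cases h : y = i
    · subst h; rw [Pi.single_eq_same, Pi.single_eq_same]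
    · rw [Pi.single_eq_of_ne h, Pi.single_eq_of_ne (fun h2 => h (Sum.inl.inj h2))]
  · rw [Sum.elim_inr, Pi.zero_apply, Pi.single_eq_of_ne (by simp)]

theorem single_inr {m n : Type} [DecidableEq m] [DecidableEq n] (i : n) (x : ℝ) :
    (Pi.single (Sum.inr i) x : m ⊕ n → ℝ) = Sum.elim (0 : m → ℝ) (Pi.single i x) := by
  funext y
  rcases y with y | y
  · rw [Sum.elim_inl, Pi.zero_apply, Pi.single_eq_of_ne (by simp)]
  · rw [Sum.elim_inr]
    by_cases h : y = i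
    · subst h; rw [Pi.single_eq_same, Pi.single_eq_same]
    · rw [Pi.single_eq_of_ne h, Pi.single_eq_of_ne (fun h2 => h (Sum.inr.inj h2))]

theorem smul_single {m n : Type} [Fintype n] [DecidableEq m] [DecidableEq n] (i : m) (j : n)
    (w : ℝ) (x : n → ℝ) : (single i j w).mulVec x = (Pi.single i (w * x j) : m → ℝ) := by
  rw [single_mulVec]
  rfl

/-- Glueing of two colourings. -/
theorem glue {m n : Type} [Fintype m] [DecidableEq m] [Fintype n] [DecidableEq n]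
    (F : Matrix m m ℝ) (G : Matrix n n ℝ) (b1 t2 b3 b2 : m) (nw sw ne : n)
    (w3 w5 c1 c2 c3 c4 c5 : ℝ) (h1 : m → ℝ) (h2 : n → ℝ)
    (e1 : F.mulVec h1 = Pi.single b1 c1 + Pi.single t2 c2 + Pi.single b3 c3)
    (e2 : G.mulVec h2 = Pi.single ne c4 + Pi.single sw c5)
    (e3 : c3 + w3 * h2 nw = 0) (e5 : w5 * h1 b2 + c5 = 0) :
    (fromBlocks F (single b3 nw w3) (single sw b2 w5) G).mulVec (Sum.elim h1 h2) =
      Pi.single (Sum.inl b1) c1 + Pi.single (Sum.inl t2) c2 + Pi.single (Sum.inr ne) c4 := by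
  rw [fromBlocks_mulVec, Sum.elim_comp_inl, Sum.elim_comp_inr, e1, e2, smul_single, smul_single,
    single_inl, single_inl, single_inr]
  have s1 : (Pi.single b3 c3 + Pi.single b3 (w3 * h2 nw) : m → ℝ) = 0 := by
    rw [← Pi.single_add, e3, Pi.single_zero]
  have s2 : (Pi.single sw (w5 * h1 b2) + Pi.single sw c5 : n → ℝ) = 0 := by
    rw [← Pi.single_add, e5, Pi.single_zero]
  funext y
  rcases y with y | y
  · have s3 := congrFun s1 y
    rw [Pi.add_apply, Pi.zero_apply] at s3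
    rw [Sum.elim_inl, Pi.add_apply, Pi.add_apply, Pi.add_apply, Pi.add_apply, Pi.add_apply,
      Sum.elim_inl, Sum.elim_inl, Sum.elim_inl, Pi.zero_apply]
    linarith
  · have s3 := congrFun s2 y
    rw [Pi.add_apply, Pi.zero_apply] at s3
    rw [Sum.elim_inr, Pi.add_apply, Pi.add_apply, Pi.add_apply, Pi.add_apply, Sum.elim_inr,
      Sum.elim_inr, Sum.elim_inr, Pi.zero_apply]
    linarith

/-- The product with the matrix of a tangle in the columns 2, 3. -/
theorem prod (ξ A B : ℝ) (M : Matrix (Fin 3) (Fin 3) ℝ) (x : Fin 3 → ℝ) :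
    (RR false ξ A B * M).mulVec x 0 = (ξ * A + B) * M.mulVec x 0 ∧
    (RR false ξ A B * M).mulVec x 1 = B * M.mulVec x 1 + ξ * A * M.mulVec x 2 ∧
    (RR false ξ A B * M).mulVec x 2 =
      ((ξ + ξ⁻¹) * A + B) * M.mulVec x 2 - ξ⁻¹ * A * M.mulVec x 1 := by
  rw [← Matrix.mulVec_mulVec]
  generalize M.mulVec x = z
  refine ⟨?_, ?_, ?_⟩
  · simp [RR, Matrix.mulVec, dotProduct, Fin.sum_univ_three]
  · simp [RR, Matrix.mulVec, dotProduct, Fin.sum_univ_three]
  · simp [RR, Matrix.mulVec, dotProduct, Fin.sum_univ_three]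
    ring

end HBAux

open HBAux in
theorem tHB : S_HB := by
  intro W T ξ M n A B hW hT x
  obtain ⟨h1, e1, t1, t2, t3⟩ := hW ((ξ * A + B) • x)
  obtain ⟨h2, f1, f2, f3⟩ := hT (M.mulVec x 1) (M.mulVec x 2)
  obtain ⟨p0, p1, p2⟩ := prod ξ A B M x
  rw [Matrix.mulVec_smul] at e1 t2
  simp only [Pi.smul_apply, smul_eq_mul] at e1 t1 t2 t3
  refine ⟨Sum.elim h1 h2, ?_, ?_, ?_, ?_⟩
  · rw [p0, p2]
    have key := glue (fox3 (-(ξ ^ 2)) W) (fox (-(ξ ^ 2)) T) W.b1 W.t2 W.b3 W.b2 T.nw T.sw T.ne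
      (wNE (-(ξ ^ 2)) (W.ovr W.b3)) (wSW (-(ξ ^ 2)) (T.ovr T.sw)) _ _ _ _ _ h1 h2 e1 f1
      (by rw [f2]; ring) (by rw [t2]; ring)
    have e2 : -(wNE (-(ξ ^ 2)) (W.ovr W.t2)) * (n * ((ξ * A + B) * x 1)) =
        -(wNE (-(ξ ^ 2)) (W.ovr W.t2)) * ((ξ * A + B) * n * x 1) := by ring
    rw [e2] at key
    exact key
  · show h1 W.t1 = _
    rw [t1]
    ring
  · show h2 T.se = _
    rw [p1, f3]
  · show h1 W.t3 = _
    rw [t3]
    ring

end Pool.Agent.HMT
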