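import Pool.Agent.HMT.Spec

/-!
# HMT, AdjV: two entries of the adjugate
-/

set_option autoImplicit false

namespace Pool.Agent.HMT

open Polynomial Matrix Pool.Agent.HMA

namespace AdjVAux

/-- A solution of `F h = e_j w` gives an entry of the adjugate. -/
theorem adj_entry {m : Type*} [Fintype m] [DecidableEq m] (F : Matrix m m ℝ) (i j : m) (w : ℝ)
    (h : m → ℝ) (hF : F.mulVec h = Pi.single j w) : F.adjugate i j * w = F.det * h i := by
  have e1 : F.adjugate.mulVec (F.mulVec h) = F.det • h := by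
    rw [Matrix.mulVec_mulVec, Matrix.adjugate_mul, Matrix.smul_mulVec, Matrix.one_mulVec]
  rw [hF, Matrix.mulVec_single] at e1
  have e2 := congrFun e1 i
  simpa using e2

theorem key {m : Type*} [Fintype m] [DecidableEq m] (F : Matrix m m ℝ) (i j : m) (n c D w d : ℝ)
    (h : m → ℝ) (hD : 0 < D) (hdet : n * F.det = c * D) (hF : F.mulVec h = Pi.single j (w * D))
    (hi : h i = d) : n * (F.adjugate i j * w) = c * d := by
  have e := adj_entry F i j (w * D) h hF
  rw [hi] at e
  apply mul_right_cancel₀ hD.ne'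
  linear_combination n * e + d * hdet

end AdjVAux

/-- Module `AdjV`: two entries of the adjugate. -/
theorem tAdjV : S_AdjV := by
  intro W ξ M n n' c hI hR
  obtain ⟨-, -, -, -, -, hD, -, -, -⟩ := hI
  obtain ⟨hdet, hC⟩ := hR
  constructor
  · obtain ⟨h, h1, -, h2, -⟩ := hC ![M 2 2, 0, -M 2 0]
    have x0 : M.mulVec ![M 2 2, 0, -M 2 0] 0 = Dl M := by
      simp [Matrix.mulVec, dotProduct, Fin.sum_univ_three, Dl]
      ring
    have x1 : M.mulVec ![M 2 2, 0, -M 2 0] 1 = m21 M := by
      simp [Matrix.mulVec, dotProduct, Fin.sum_univ_three, m21]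
      ring
    have x2 : M.mulVec ![M 2 2, 0, -M 2 0] 2 = 0 := by
      simp [Matrix.mulVec, dotProduct, Fin.sum_univ_three]
      ring
    rw [x0, x2] at h1
    rw [x1] at h2
    refine AdjVAux.key _ _ _ n c (Dl M) _ (m21 M) h hD hdet ?_ h2
    rw [h1]
    simp
  · obtain ⟨h, h1, -, h2, -⟩ := hC ![-M 0 2, 0, M 0 0]
    have x0 : M.mulVec ![-M 0 2, 0, M 0 0] 0 = 0 := by
      simp [Matrix.mulVec, dotProduct, Fin.sum_univ_three]
      ring
    have x1 : M.mulVec ![-M 0 2, 0, M 0 0] 1 = m23 M := by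
      simp [Matrix.mulVec, dotProduct, Fin.sum_univ_three, m23]
      ring
    have x2 : M.mulVec ![-M 0 2, 0, M 0 0] 2 = Dl M := by
      simp [Matrix.mulVec, dotProduct, Fin.sum_univ_three, Dl]
      ring
    rw [x0, x2] at h1
    rw [x1] at h2
    refine AdjVAux.key _ _ _ n c (Dl M) _ (m23 M) h hD hdet ?_ h2
    rw [h1]
    simp

end Pool.Agent.HMT
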