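import Pool.Agent.HMT.Spec
import Pool.Agent.HMA.Adj

/-! HMT, module `AdjW`: all entries of the adjugate of the closed diagram agree up to powers of `y`. -/

set_option autoImplicit false

namespace Pool.Agent.HMT

open Polynomial Matrix Pool.Agent.HMA

theorem tAdjW : S_Row1W → S_LKW → S_AdjW := by
  intro hR hL W hD
  obtain ⟨z, hz⟩ := hL W hD
  refine ⟨fun j => z j - z W.t2, fun y hy => ?_⟩
  obtain ⟨h1, h2, h3, h4⟩ := hz y hy
  have hy0 : y ≠ 0 := hy.ne'
  -- the rows sum to zero
  have hrow : (foxW (-y) W).mulVec (fun _ => (1 : ℝ)) = 0 := by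
    have hf := hR ℝ (-y) W
    unfold foxW
    rw [add_mulVec, add_mulVec, add_mulVec, hf, AdjAux.single_one, AdjAux.single_one,
      AdjAux.single_one]
    funext k
    simp only [Pi.add_apply, Pi.zero_apply, Pi.single_neg, Pi.neg_apply]
    ring
  -- the left kernel
  have hcol : (foxW (-y) W)ᵀ.mulVec (fun i => y ^ z i) = 0 := by
    funext j
    change (foxW (-y) W)ᵀ j ⬝ᵥ (fun i => y ^ z i) = 0
    have e0 : (foxW (-y) W)ᵀ j ⬝ᵥ (fun i => y ^ z i) =
        ∑ i, y ^ z i * foxW (-y) W i j := by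
      unfold dotProduct
      exact Finset.sum_congr rfl fun i _ => mul_comm _ _
    rw [e0]
    have e1 : wSW (-y) (W.ovr W.b1) * y ^ z W.b1 = -1 := by linarith
    have e2 : wNE (-y) (W.ovr W.t2) * y ^ z W.t2 = -y := by linarith
    have e3 : wNE (-y) (W.ovr W.b3) * y ^ z W.b3 = -(y ^ 2) := by linarith
    unfold foxW
    simp only [Matrix.add_apply, mul_add, Finset.sum_add_distrib]
    rw [h1 j, AdjAux.sum_single, AdjAux.sum_single, AdjAux.sum_single, e1, e2, e3]
    split_ifs <;> ring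
  intro i j i'
  have hone : (fun _ : W.Cr => (1 : ℝ)) ≠ 0 := fun h => one_ne_zero (congrFun h W.t2)
  have hv : (fun i : W.Cr => y ^ z i) ≠ 0 := fun h => (zpow_pos hy (z W.t2)).ne' (congrFun h W.t2)
  have a1 : (foxW (-y) W).adjugate i W.t2 = (foxW (-y) W).adjugate i' W.t2 := by
    have := AdjAux.rows (foxW (-y) W) (fun _ => 1) hone hrow i i' W.t2
    rwa [one_mul, one_mul] at this
  have a2 : y ^ z W.t2 * (foxW (-y) W).adjugate i j =
      y ^ z j * (foxW (-y) W).adjugate i W.t2 := by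
    have := AdjAux.rows (foxW (-y) W)ᵀ (fun i => y ^ z i) hv hcol j W.t2 i
    rw [← adjugate_transpose, transpose_apply, transpose_apply] at this
    exact this
  rw [← a1, zpow_sub₀ hy0, div_mul_eq_mul_div, ← a2, mul_div_cancel_left₀ _ (zpow_pos hy _).ne']

end Pool.Agent.HMT
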