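import Pool.Agent.HMT.Spec

/-!
# HMT, module Base: determinant and colourings of the base word
-/

set_option autoImplicit false

namespace Pool.Agent.HMT

open Polynomial Matrix Pool.Agent.HMA

private theorem BaseAux.prod (ξ A B A' B' : ℝ) :
    RR false ξ A' B' * RR true ξ A B =
      !![(ξ * A' + B') * ((ξ + ξ⁻¹) * A + B), (ξ * A' + B') * (-(ξ * A)), 0;
        B' * (ξ⁻¹ * A), B' * B, ξ * A' * (ξ⁻¹ * A + B);
        -(ξ⁻¹ * A') * (ξ⁻¹ * A), -(ξ⁻¹ * A') * B, ((ξ + ξ⁻¹) * A' + B') * (ξ⁻¹ * A + B)] := by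
  ext i j
  fin_cases i <;> fin_cases j <;> simp [RR, Matrix.mul_apply, Fin.sum_univ_three]

private theorem BaseAux.vec (ξ A B A' B' : ℝ) (x : Fin 3 → ℝ) :
    (RR false ξ A' B' * RR true ξ A B).mulVec x 0 =
      (ξ * A' + B') * (((ξ + ξ⁻¹) * A + B) * x 0 - ξ * A * x 1) ∧
    (RR false ξ A' B' * RR true ξ A B).mulVec x 1 =
      B' * (ξ⁻¹ * A * x 0 + B * x 1) + ξ * A' * ((ξ⁻¹ * A + B) * x 2) ∧
    (RR false ξ A' B' * RR true ξ A B).mulVec x 2 =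
      ((ξ + ξ⁻¹) * A' + B') * ((ξ⁻¹ * A + B) * x 2) - ξ⁻¹ * A' * (ξ⁻¹ * A * x 0 + B * x 1) := by
  rw [BaseAux.prod]
  refine ⟨?_, ?_, ?_⟩
  · simp [Matrix.mulVec, dotProduct, Fin.sum_univ_three]
    ring
  · simp [Matrix.mulVec, dotProduct, Fin.sum_univ_three]
    ring
  · simp [Matrix.mulVec, dotProduct, Fin.sum_univ_three]
    ring

private theorem BaseAux.dl (ξ A B A' B' : ℝ) :
    Dl (RR false ξ A' B' * RR true ξ A B) =
      (ξ * A' + B') * ((ξ + ξ⁻¹) * A + B) * (((ξ + ξ⁻¹) * A' + B') * (ξ⁻¹ * A + B)) := by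
  rw [BaseAux.prod]
  unfold Dl
  simp

private theorem BaseAux.block {m n : Type} [Fintype m] [DecidableEq m] [Fintype n]
    [DecidableEq n] (F : Matrix m m ℝ) (G : Matrix n n ℝ) (nw ne sw se : m) (nw' ne' sw' se' : n)
    (wne wsw wne' wsw' ξ A B c A' B' c' : ℝ)
    (hF : F.det = c * ((ξ + ξ⁻¹) * A + B))
    (hFc : ∀ y₁ y₂ : ℝ, ∃ h : m → ℝ,
      F.mulVec h = Pi.single ne (-wne * ((ξ⁻¹ * A + B) * y₂)) +
        Pi.single sw (-wsw * (((ξ + ξ⁻¹) * A + B) * y₁ - ξ * A * y₂)) ∧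
      h nw = (ξ⁻¹ * A + B) * y₁ ∧ h se = ξ⁻¹ * A * y₁ + B * y₂)
    (hG : G.det = c' * ((ξ + ξ⁻¹) * A' + B'))
    (hGc : ∀ y₂ y₃ : ℝ, ∃ h : n → ℝ,
      G.mulVec h = Pi.single ne' (-wne' * (((ξ + ξ⁻¹) * A' + B') * y₃ - ξ⁻¹ * A' * y₂)) +
        Pi.single sw' (-wsw' * ((ξ * A' + B') * y₂)) ∧
      h nw' = (ξ * A' + B') * y₃ ∧ h se' = B' * y₂ + ξ * A' * y₃) :
    (ξ * A' + B') * (ξ⁻¹ * A + B) * (fromBlocks F 0 (single sw' se wsw') G).det =
      c * c' * Dl (RR false ξ A' B' * RR true ξ A B) ∧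
    ∀ x : Fin 3 → ℝ, ∃ h : m ⊕ n → ℝ,
      (fromBlocks F 0 (single sw' se wsw') G).mulVec h =
        Pi.single (Sum.inl sw) (-wsw * (RR false ξ A' B' * RR true ξ A B).mulVec x 0) +
        Pi.single (Sum.inl ne) (-wne * ((ξ * A' + B') * (ξ⁻¹ * A + B) * x 1)) +
        Pi.single (Sum.inr ne') (-wne' * (RR false ξ A' B' * RR true ξ A B).mulVec x 2) ∧
      h (Sum.inl nw) = (ξ * A' + B') * (ξ⁻¹ * A + B) * x 0 ∧
      h (Sum.inr se') = (RR false ξ A' B' * RR true ξ A B).mulVec x 1 ∧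
      h (Sum.inr nw') = (ξ * A' + B') * (ξ⁻¹ * A + B) * x 2 := by
  constructor
  · rw [BaseAux.dl, det_fromBlocks_zero₁₂, hF, hG]
    ring
  · intro x
    obtain ⟨v0, v1, v2⟩ := BaseAux.vec ξ A B A' B' x
    obtain ⟨f, hf, hf1, hf2⟩ := hFc ((ξ * A' + B') * x 0) ((ξ * A' + B') * x 1)
    obtain ⟨g, hg, hg1, hg2⟩ := hGc (ξ⁻¹ * A * x 0 + B * x 1) ((ξ⁻¹ * A + B) * x 2)
    refine ⟨Sum.elim f g, ?_, ?_, ?_, ?_⟩
    · rw [fromBlocks_mulVec]
      simp only [Sum.elim_comp_inl, Sum.elim_comp_inr, single_mulVec, zero_mulVec, add_zero]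
      rw [hf, hg, v0, v2, hf2]
      ext z
      rcases z with z | z
      · have z1 : ∀ (i : m) (a : ℝ), (Pi.single (Sum.inl i) a : m ⊕ n → ℝ) (Sum.inl z) =
            (Pi.single i a : m → ℝ) z := by
          intro i a
          simp only [Pi.single_apply, Sum.inl.injEq]
        have z2 : ∀ (i : n) (a : ℝ), (Pi.single (Sum.inr i) a : m ⊕ n → ℝ) (Sum.inl z) = 0 := by
          intro i a
          simp
        simp only [Sum.elim_inl, Pi.add_apply, z1, z2]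
        simp only [Pi.single_apply]
        split_ifs <;> ring
      · have z1 : ∀ (i : m) (a : ℝ), (Pi.single (Sum.inl i) a : m ⊕ n → ℝ) (Sum.inr z) = 0 := by
          intro i a
          simp
        have z2 : ∀ (i : n) (a : ℝ), (Pi.single (Sum.inr i) a : m ⊕ n → ℝ) (Sum.inr z) =
            (Pi.single i a : n → ℝ) z := by
          intro i a
          simp only [Pi.single_apply, Sum.inr.injEq]
        simp only [Sum.elim_inr, Pi.add_apply, z1, z2]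
        simp only [Pi.single_apply, Function.update_apply, Pi.zero_apply]
        split_ifs <;> ring
    · simp only [Sum.elim_inl]
      rw [hf1]; ring
    · simp only [Sum.elim_inr]
      rw [hg2, v1]
    · simp only [Sum.elim_inr]
      rw [hg1]; ring

/-- **Base** (determinant and colourings of the base word) -/
theorem tBase : S_Base := by
  intro S T ξ A B c A' B' c' _ hS hT
  obtain ⟨hF, -, hFc⟩ := hS
  obtain ⟨hG, -, hGc⟩ := hT
  obtain ⟨h1, h2⟩ := BaseAux.block (fox (-(ξ ^ 2)) S) (fox (-(ξ ^ 2)) T)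
    S.nw S.ne S.sw S.se T.nw T.ne T.sw T.se (wNE (-(ξ ^ 2)) (S.ovr S.ne))
    (wSW (-(ξ ^ 2)) (S.ovr S.sw)) (wNE (-(ξ ^ 2)) (T.ovr T.ne)) (wSW (-(ξ ^ 2)) (T.ovr T.sw))
    ξ A B c A' B' c' hF hFc hG hGc
  exact ⟨h1, h2⟩

end Pool.Agent.HMT
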