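import Pool.Agent.HMT.Spec

/-! # HMT, module Br: geometric sums and SS -/

set_option autoImplicit false

namespace Pool.Agent.HMT

open Polynomial Matrix Pool.Agent.HMA

theorem tBr : S_Br := by
  have key : ∀ a : ℕ, ∀ ξ : ℝ, 0 < ξ →
      ξ ^ a * ev ξ (SS a) = aeval (ξ ^ 2) (HM3.br (a + 1)) ∧
      ξ ^ (a + 1) * ev ξ (SS (a + 1)) = aeval (ξ ^ 2) (HM3.br (a + 2)) := by
    intro a
    induction a with
    | zero =>
      intro ξ hξ
      constructor
      · simp [SS, ev, HM3.br]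
      · simp [SS, ev, HM3.br, Finset.sum_range_succ]
        field_simp
        ring
    | succ a ih =>
      intro ξ hξ
      obtain ⟨h1, h2⟩ := ih ξ hξ
      refine ⟨h2, ?_⟩
      have e1 : ev ξ (SS (a + 2)) = (ξ + ξ⁻¹) * ev ξ (SS (a + 1)) - ev ξ (SS a) := by
        simp [SS, ev]
      have e2 : aeval (ξ ^ 2) (HM3.br (a + 3)) =
          (1 + ξ ^ 2) * aeval (ξ ^ 2) (HM3.br (a + 2)) - ξ ^ 2 * aeval (ξ ^ 2) (HM3.br (a + 1)) := by
        simp only [HM3.br, Finset.sum_range_succ, map_add, map_pow, aeval_X]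
        ring
      have e3 : (a + 1 + 1) = a + 2 := rfl
      rw [show a + 1 + 2 = a + 3 from rfl, e3, e1, e2, ← h1, ← h2]
      have hξ0 := hξ.ne'
      field_simp
      ring
  exact fun a ξ hξ => (key a ξ hξ).1

end Pool.Agent.HMT
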