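import Pool.Agent.HMT.Spec

/-!
# HMT, ClsF: a polynomial identity for 3 x 3 matrices
-/

set_option autoImplicit false

namespace Pool.Agent.HMT

open Polynomial Matrix Pool.Agent.HMA

namespace ClsFAux

theorem key (y n n' a b c d e f g h k : ℝ) (r0 : a + b + c = n) (r1 : d + e + f = n)
    (r2 : g + h + k = n) (l0 : a - y * d + y ^ 2 * g = n) (l2 : c - y * f + y ^ 2 * k = y ^ 2 * n)
    (hdet : a * (e * k - f * h) - b * (d * k - f * g) + c * (d * h - e * g) = n ^ 2 * n') :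
    n * ((a * k - c * g - n * a - n * k + n ^ 2) * (y ^ 2 - y + 1)) =
      n * (n * y * (a + e + k - 2 * n - n')) := by
  have hb : b = n - a - c := by linarith
  have he : e = n - d - f := by linarith
  have hh : h = n - g - k := by linarith
  subst hb he hh
  linear_combination (-(n * (c - k) + n ^ 2)) * l0 + (-(n * (g - a) + n ^ 2)) * l2 - y * hdet

end ClsFAux

theorem tClsF : S_ClsF := by
  intro ξ M n n' hξ hI
  obtain ⟨hn, hn', hr, ⟨hl0, hl1, hl2⟩, hdet, hD, -, -, -⟩ := hI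
  have hξ0 : ξ ≠ 0 := hξ.ne'
  have hn0 : n ≠ 0 := hn.ne'
  have r0 := hr 0
  have r1 := hr 1
  have r2 := hr 2
  rw [Matrix.det_fin_three] at hdet
  have k1 := ClsFAux.key (ξ ^ 2) n n' (M 0 0) (M 0 1) (M 0 2) (M 1 0) (M 1 1) (M 1 2) (M 2 0)
    (M 2 1) (M 2 2) r0 r1 r2 (by rw [← hl0]; ring) (by rw [show (ξ ^ 2) ^ 2 * n = ξ ^ 4 * n by ring, ← hl2]; ring)
    (by rw [← hdet]; ring)
  have k2 := mul_left_cancel₀ hn0 k1
  rw [Matrix.trace_fin_three]
  unfold Dl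
  have e1 : (ξ + ξ⁻¹) ^ 2 - 3 = ((ξ ^ 2) ^ 2 - ξ ^ 2 + 1) / ξ ^ 2 := by
    field_simp
    ring
  have e2 : (M 0 0 * M 2 2 - M 0 2 * M 2 0) / n - M 0 0 - M 2 2 + n =
      (M 0 0 * M 2 2 - M 0 2 * M 2 0 - n * M 0 0 - n * M 2 2 + n ^ 2) / n := by
    field_simp
  rw [e1, e2, div_mul_div_comm, k2, div_eq_iff (by positivity)]
  ring

end Pool.Agent.HMT
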