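import Pool.Agent.HMT.Spec

/-! # HMT, module Dat: the data of parallel tangles -/

set_option autoImplicit false

namespace Pool.Agent.HMT

open Polynomial Matrix Pool.Agent.HMA

theorem tDat : S_Ind → S_TanA → S_TanB → S_Dat := by
  intro hInd hA hB
  constructor
  · intro T hT
    obtain ⟨hO, h1, h2, h3, h4⟩ := hT
    rcases hInd T hO with h | h | h
    · obtain ⟨d, x, p, q, K, e1, e2, e3, e4, hx, hs, hr⟩ := h
      rw [h1] at e1
      rw [h2] at e2
      rw [← e1] at e2
      exact absurd e2 (by decide)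
    · obtain ⟨d, x, p, q, K, e1, e2, e3, e4, hx, hs, hr⟩ := h
      rw [h1] at e1
      subst e1
      refine ⟨x, p, q, K, hx, hs, fun ξ hξ => hA T ξ _ _ _ hξ ?_⟩
      have := hr ξ hξ
      simpa [kap] using this
    · obtain ⟨o, n, d, p, q, p', q', K, e1, e2, e3, e4, hn, hd, hk, hs, hr⟩ := h
      rw [h1] at e1
      rw [h2] at e2
      rw [← e1] at e2
      exact absurd e2 (by decide)
  · intro T hT
    obtain ⟨hO, h1, h2, h3, h4⟩ := hT
    rcases hInd T hO with h | h | h
    · obtain ⟨d, x, p, q, K, e1, e2, e3, e4, hx, hs, hr⟩ := h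
      rw [h1] at e1
      subst e1
      refine ⟨x, p, q, K, hx, hs, fun ξ hξ => hB T ξ _ _ _ hξ ?_⟩
      have := hr ξ hξ
      simpa [kap] using this
    · obtain ⟨d, x, p, q, K, e1, e2, e3, e4, hx, hs, hr⟩ := h
      rw [h1] at e1
      rw [h2] at e2
      rw [← e1] at e2
      exact absurd e2 (by decide)
    · obtain ⟨o, n, d, p, q, p', q', K, e1, e2, e3, e4, hn, hd, hk, hs, hr⟩ := h
      rw [h1] at e1
      rw [h3] at e3
      rw [← e1] at e3
      exact absurd e3 (by decide)

end Pool.Agent.HMT
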