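import Pool.Agent.HMA.Goe
import Pool.Agent.HMA.Spec
import Pool.Agent.HM3.SpecW

/-!
# HMT, Defs: alternating 3-braids of tangles

The Hirasawa-Murasugi inequality (MP_29c64e_gt) for the closures of alternating 3-braids whose
crossings are replaced by parallel alternating algebraic tangles.

A word is read from the top to the bottom. A tangle in the columns 1, 2 is placed as it is. A tangle in
the columns 2, 3 is rotated clockwise by a quarter turn (its NW end becomes NE, NE becomes SE, SE becomes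
SW, SW becomes NW), so that the diagram is alternating.
-/

namespace Pool.Agent.HMT

open Polynomial Matrix Pool.Agent.HMA

/-! ## Part 1: words of tangles -/

/-- Words. `base S T` is `S` in the columns 1, 2 and below it `T` in the columns 2, 3. `addA W T` is `W`
and below it `T` in the columns 1, 2; `addB W T` is `W` and below it `T` in the columns 2, 3. (Every
cyclic word with both kinds of tangles has a rotation which starts with `base`.) -/
inductive Wd where
  | base (S T : Tangle) : Wd
  | addA (W : Wd) (T : Tangle) : Wd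
  | addB (W : Wd) (T : Tangle) : Wd

namespace Wd

/-- The crossings. -/
def Cr : Wd → Type
  | base S T => S.Cr ⊕ T.Cr
  | addA W T => W.Cr ⊕ T.Cr
  | addB W T => W.Cr ⊕ T.Cr

instance instFintypeCr : (W : Wd) → Fintype W.Cr
  | base S T => inferInstanceAs (Fintype (S.Cr ⊕ T.Cr))
  | addA W T =>
      letI := instFintypeCr W
      inferInstanceAs (Fintype (W.Cr ⊕ T.Cr))
  | addB W T =>
      letI := instFintypeCr W
      inferInstanceAs (Fintype (W.Cr ⊕ T.Cr))

instance instDecidableEqCr : (W : Wd) → DecidableEq W.Cr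
  | base S T => inferInstanceAs (DecidableEq (S.Cr ⊕ T.Cr))
  | addA W T =>
      letI := instDecidableEqCr W
      inferInstanceAs (DecidableEq (W.Cr ⊕ T.Cr))
  | addB W T =>
      letI := instDecidableEqCr W
      inferInstanceAs (DecidableEq (W.Cr ⊕ T.Cr))

/-- The crossings at the three upper ends (the ends 1, 3 are ends of over strands, the end 2 is the end
of an under strand). -/
def t1 : (W : Wd) → W.Cr
  | base S _ => Sum.inl S.nw
  | addA W _ => Sum.inl W.t1
  | addB W _ => Sum.inl W.t1

def t2 : (W : Wd) → W.Cr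
  | base S _ => Sum.inl S.ne
  | addA W _ => Sum.inl W.t2
  | addB W _ => Sum.inl W.t2

def t3 : (W : Wd) → W.Cr
  | base _ T => Sum.inr T.nw
  | addA W _ => Sum.inl W.t3
  | addB W _ => Sum.inl W.t3

/-- The crossings at the three lower ends (the ends 1, 3 are ends of under strands, the end 2 is the end
of an over strand). -/
def b1 : (W : Wd) → W.Cr
  | base S _ => Sum.inl S.sw
  | addA _ T => Sum.inr T.sw
  | addB W _ => Sum.inl W.b1

def b2 : (W : Wd) → W.Cr
  | base _ T => Sum.inr T.se
  | addA _ T => Sum.inr T.se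
  | addB _ T => Sum.inr T.se

def b3 : (W : Wd) → W.Cr
  | base _ T => Sum.inr T.ne
  | addA W _ => Sum.inl W.b3
  | addB _ T => Sum.inr T.ne

/-- Orientation of the over strand of a crossing, `true` is from NW to SE of the tangle. -/
def ovr : (W : Wd) → W.Cr → Bool
  | base S T => Sum.elim S.ovr T.ovr
  | addA W T => Sum.elim W.ovr T.ovr
  | addB W T => Sum.elim W.ovr T.ovr

end Wd

/-- An oriented tangle whose strands run downwards through its four ends. -/
def DownA (T : Tangle) : Prop :=
  T.Oriented ∧ T.ovr T.nw = true ∧ T.und T.ne = false ∧ T.und T.sw = false ∧ T.ovr T.se = true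

/-- The same for a tangle which will be rotated clockwise by a quarter turn. -/
def DownB (T : Tangle) : Prop :=
  T.Oriented ∧ T.ovr T.nw = true ∧ T.und T.ne = true ∧ T.und T.sw = true ∧ T.ovr T.se = true

/-- All strands run downwards through the ends of the tangles. -/
def Wd.Down : Wd → Prop
  | .base S T => DownA S ∧ DownB T
  | .addA W T => W.Down ∧ DownA T
  | .addB W T => W.Down ∧ DownB T

/-! ## Part 2: the Fox matrix -/

section Fox

variable {R : Type*} [CommRing R]

/-- The Fox matrix of the open word (as `fox`; the three arcs which leave it at the ends of under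
strands are left out). -/
def fox3 (t : R) : (W : Wd) → Matrix W.Cr W.Cr R
  | .base S T => fromBlocks (fox t S) 0 (single T.sw S.se (wSW t (T.ovr T.sw))) (fox t T)
  | .addA W T => fromBlocks (fox3 t W) (single W.b1 T.nw (wSW t (W.ovr W.b1)))
      (single T.ne W.b2 (wNE t (T.ovr T.ne))) (fox t T)
  | .addB W T => fromBlocks (fox3 t W) (single W.b3 T.nw (wNE t (W.ovr W.b3)))
      (single T.sw W.b2 (wSW t (T.ovr T.sw))) (fox t T)

/-- The Fox matrix of the closed diagram: for every crossing the row of the relation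
`(1 - t) x + t l - r = 0`. -/
def foxW (t : R) (W : Wd) : Matrix W.Cr W.Cr R :=
  fox3 t W + single W.b1 W.t1 (wSW t (W.ovr W.b1)) + single W.t2 W.b2 (wNE t (W.ovr W.t2)) +
    single W.b3 W.t3 (wNE t (W.ovr W.b3))

end Fox

/-! ## Part 3: the signature -/

/-- The number of regions of the closed diagram of the colour of the regions N, S of the tangles, minus
one: the faces inside the tangles, the regions between the tangles in the columns 1, 2, and the outer
region to the right. -/
def facesW : Wd → ℕ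
  | .base S T => faces S + faces T + 1
  | .addA W T => facesW W + faces T + 1
  | .addB W T => facesW W + faces T

/-- Number of positive crossings. -/
def positiveW : Wd → ℕ
  | .base S T => positive S + positive T
  | .addA W T => positiveW W + positive T
  | .addB W T => positiveW W + positive T

/-- Traczyk's formula for the signature. -/
def sigW (W : Wd) : ℤ := (facesW W : ℤ) - positiveW W

/-- The regions of this colour inside the word. In `addA W T` the region between `W` and `T` is
`none`. -/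
def FcW : Wd → Type
  | .base S T => Fc S ⊕ Fc T
  | .addA W T => Option (FcW W ⊕ Fc T)
  | .addB W T => FcW W ⊕ Fc T

instance instFintypeFcW : (W : Wd) → Fintype (FcW W)
  | .base S T => inferInstanceAs (Fintype (Fc S ⊕ Fc T))
  | .addA W T =>
      letI := instFintypeFcW W
      inferInstanceAs (Fintype (Option (FcW W ⊕ Fc T)))
  | .addB W T =>
      letI := instFintypeFcW W
      inferInstanceAs (Fintype (FcW W ⊕ Fc T))

instance instDecidableEqFcW : (W : Wd) → DecidableEq (FcW W)
  | .base S T => inferInstanceAs (DecidableEq (Fc S ⊕ Fc T))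
  | .addA W T =>
      letI := instDecidableEqFcW W
      inferInstanceAs (DecidableEq (Option (FcW W ⊕ Fc T)))
  | .addB W T =>
      letI := instDecidableEqFcW W
      inferInstanceAs (DecidableEq (FcW W ⊕ Fc T))

/-- The three outer regions of this colour of the open word: above it between the ends 1, 2, below it
between the ends 1, 2, and to the right of it. -/
inductive Out where
  | top : Out
  | bot : Out
  | rt : Out

/-- All regions of this colour of the open word. -/
abbrev RegW (W : Wd) : Type := FcW W ⊕ Out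

/-- The regions of the last tangle as regions of the word; a tangle in the columns 2, 3 has its region N
to the right and its region S to the left. -/
def baseL (S T : Tangle) : Reg S → RegW (.base S T)
  | Sum.inl f => Sum.inl (Sum.inl f)
  | Sum.inr true => Sum.inr Out.top
  | Sum.inr false => Sum.inr Out.bot

def baseR (S T : Tangle) : Reg T → RegW (.base S T)
  | Sum.inl f => Sum.inl (Sum.inr f)
  | Sum.inr true => Sum.inr Out.rt
  | Sum.inr false => Sum.inr Out.bot

def addAL (W : Wd) (T : Tangle) : RegW W → RegW (.addA W T)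
  | Sum.inl f => Sum.inl (some (Sum.inl f))
  | Sum.inr Out.top => Sum.inr Out.top
  | Sum.inr Out.bot => Sum.inl none
  | Sum.inr Out.rt => Sum.inr Out.rt

def addAR (W : Wd) (T : Tangle) : Reg T → RegW (.addA W T)
  | Sum.inl f => Sum.inl (some (Sum.inr f))
  | Sum.inr true => Sum.inl none
  | Sum.inr false => Sum.inr Out.bot

def addBL (W : Wd) (T : Tangle) : RegW W → RegW (.addB W T)
  | Sum.inl f => Sum.inl (Sum.inl f)
  | Sum.inr r => Sum.inr r

def addBR (W : Wd) (T : Tangle) : Reg T → RegW (.addB W T)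
  | Sum.inl f => Sum.inl (Sum.inr f)
  | Sum.inr true => Sum.inr Out.rt
  | Sum.inr false => Sum.inr Out.bot

/-- The region `above` a crossing (in the tangle before it is rotated). -/
def aboveW : (W : Wd) → W.Cr → RegW W
  | .base S T => Sum.elim (fun c => baseL S T (above S c)) (fun c => baseR S T (above T c))
  | .addA W T => Sum.elim (fun c => addAL W T (aboveW W c)) (fun c => addAR W T (above T c))
  | .addB W T => Sum.elim (fun c => addBL W T (aboveW W c)) (fun c => addBR W T (above T c))

/-- The region `below` a crossing (in the tangle before it is rotated). -/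
def belowW : (W : Wd) → W.Cr → RegW W
  | .base S T => Sum.elim (fun c => baseL S T (below S c)) (fun c => baseR S T (below T c))
  | .addA W T => Sum.elim (fun c => addAL W T (belowW W c)) (fun c => addAR W T (below T c))
  | .addB W T => Sum.elim (fun c => addBL W T (belowW W c)) (fun c => addBR W T (below T c))

/-- In the closed diagram the regions `top` and `bot` are the same region. -/
def glueW (W : Wd) : RegW W → FcW W ⊕ Bool
  | Sum.inl f => Sum.inl f
  | Sum.inr Out.top => Sum.inr true
  | Sum.inr Out.bot => Sum.inr true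
  | Sum.inr Out.rt => Sum.inr false

/-- The signature of the Goeritz matrix of the closed diagram. -/
noncomputable def sgnW (W : Wd) : ℤ :=
  sgn (goeritz (fun i => glueW W (aboveW W i)) (fun i => glueW W (belowW W i))) (goeritz_herm _ _)

/-- The signature of the link by the theorem of Gordon and Litherland: the signature of the Goeritz
matrix minus the number of positive crossings (the crossings at which the surface is not oriented by the
orientation of the link). -/
noncomputable def sigGLW (W : Wd) : ℤ := sgnW W - positiveW W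

/-! ## Part 4: the matrices -/

/-- The matrix of a parallel tangle with the data `A`, `B` at the value `ξ`: in the columns 1, 2
(`c = true`) or 2, 3 (`c = false`). -/
noncomputable def RR (c : Bool) (ξ A B : ℝ) : Matrix (Fin 3) (Fin 3) ℝ :=
  if c then
    !![(ξ + ξ⁻¹) * A + B, -(ξ * A), 0; ξ⁻¹ * A, B, 0; 0, 0, ξ⁻¹ * A + B]
  else
    !![ξ * A + B, 0, 0; 0, B, ξ * A; 0, -(ξ⁻¹ * A), (ξ + ξ⁻¹) * A + B]

/-- The minor with the rows 1, 3 and the columns 1, 3. -/
def Dl (M : Matrix (Fin 3) (Fin 3) ℝ) : ℝ := M 0 0 * M 2 2 - M 0 2 * M 2 0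

/-- The minors with the rows 2, 3 and 1, 2. -/
def m21 (M : Matrix (Fin 3) (Fin 3) ℝ) : ℝ := M 1 0 * M 2 2 - M 1 2 * M 2 0
def m23 (M : Matrix (Fin 3) (Fin 3) ℝ) : ℝ := M 0 0 * M 1 2 - M 0 2 * M 1 0

/-- The properties of the product `M` of the matrices and of the products `n`, `n'` of the numbers
`κ A + B` which are used. -/
def Inv (ξ : ℝ) (M : Matrix (Fin 3) (Fin 3) ℝ) (n n' : ℝ) : Prop :=
  0 < n ∧ 0 < n' ∧ (∀ i, M i 0 + M i 1 + M i 2 = n) ∧
    (M 0 0 - ξ ^ 2 * M 1 0 + ξ ^ 4 * M 2 0 = n ∧ M 0 1 - ξ ^ 2 * M 1 1 + ξ ^ 4 * M 2 1 = -(ξ ^ 2 * n) ∧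
      M 0 2 - ξ ^ 2 * M 1 2 + ξ ^ 4 * M 2 2 = ξ ^ 4 * n) ∧
    M.det = n ^ 2 * n' ∧ 0 < Dl M ∧ 0 ≤ m21 M ∧ 0 ≤ m23 M ∧ m21 M + m23 M ≤ Dl M

/-- The ring of the triples `(M, n, n')` (as functions of `ξ`). -/
abbrev TT : Type := {ξ : ℝ // 0 < ξ} → Matrix (Fin 3) (Fin 3) ℝ × ℝ × ℝ

/-- The triple of a tangle with the data `x = (A, B)`. -/
noncomputable def tri (c : Bool) (x : ℤ[X] × ℤ[X]) : TT := fun ξ =>
  (RR c ξ.1 (ev ξ.1 x.1) (ev ξ.1 x.2), kap (!c) ξ.1 * ev ξ.1 x.1 + ev ξ.1 x.2,
    kap c ξ.1 * ev ξ.1 x.1 + ev ξ.1 x.2)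

/-- The scalars. -/
noncomputable def sc (P : ℤ[X]) : TT := fun ξ => (ev ξ.1 P • 1, ev ξ.1 P, ev ξ.1 P)

/-- The triple of a word of crossings (the first letter is the crossing at the top). -/
noncomputable def wd3 : List Bool → TT
  | [] => 1
  | c :: v => wd3 v * tri c (1, 0)

/-- The cone of the sums of `P * wd3 v`, `P ∈ Uni e`, `e + |v| = E`. -/
noncomputable def KT (E : ℕ) : AddSubmonoid TT :=
  AddSubmonoid.closure {T | ∃ (e : ℕ) (v : List Bool) (P : ℤ[X]),
    e + v.length = E ∧ P ∈ Uni e ∧ T = sc P * wd3 v}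

/-- `P * wd3 v` + an element of the cone, `P` full, at least `s` letters `true` and `r` letters
`false`. -/
def KFull (p q s r : ℕ) (T : TT) : Prop :=
  ∃ (a b : ℕ) (v : List Bool) (P : ℤ[X]) (R : TT),
    a + HM3.nA v = p ∧ b + HM3.nB v = q ∧ s ≤ HM3.nA v ∧ r ≤ HM3.nB v ∧
    Full a b P ∧ R ∈ KT (p + q) ∧ T = sc P * wd3 v + R

/-- `trace M - 2 n - n'`. -/
def Gf (T : TT) (ξ : {ξ : ℝ // 0 < ξ}) : ℝ := (T ξ).1.trace - 2 * (T ξ).2.1 - (T ξ).2.2

/-! ## Part 5: the linear algebra of the words -/

/-- The colourings of the word at `t = - ξ²`: the values at the upper ends are `n x`, at the lower ends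
`M x`. -/
def Col (W : Wd) (ξ : ℝ) (M : Matrix (Fin 3) (Fin 3) ℝ) (n : ℝ) : Prop :=
  ∀ x : Fin 3 → ℝ, ∃ h : W.Cr → ℝ,
    (fox3 (-(ξ ^ 2)) W).mulVec h =
      Pi.single W.b1 (-(wSW (-(ξ ^ 2)) (W.ovr W.b1)) * M.mulVec x 0) +
      Pi.single W.t2 (-(wNE (-(ξ ^ 2)) (W.ovr W.t2)) * (n * x 1)) +
      Pi.single W.b3 (-(wNE (-(ξ ^ 2)) (W.ovr W.b3)) * M.mulVec x 2) ∧
    h W.t1 = n * x 0 ∧ h W.b2 = M.mulVec x 1 ∧ h W.t3 = n * x 2

/-- The determinant and the colourings. -/
def RelW (W : Wd) (ξ : ℝ) (M : Matrix (Fin 3) (Fin 3) ℝ) (n c : ℝ) : Prop :=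
  n * (fox3 (-(ξ ^ 2)) W).det = c * Dl M ∧ Col W ξ M n

/-- The colourings of one tangle in the columns 1, 2: upper ends NW, NE, lower ends SW, SE. -/
def ColA (T : Tangle) (ξ A B : ℝ) : Prop :=
  ∀ y₁ y₂ : ℝ, ∃ h : T.Cr → ℝ,
    (fox (-(ξ ^ 2)) T).mulVec h =
      Pi.single T.ne (-(wNE (-(ξ ^ 2)) (T.ovr T.ne)) * ((ξ⁻¹ * A + B) * y₂)) +
      Pi.single T.sw (-(wSW (-(ξ ^ 2)) (T.ovr T.sw)) * (((ξ + ξ⁻¹) * A + B) * y₁ - ξ * A * y₂)) ∧
    h T.nw = (ξ⁻¹ * A + B) * y₁ ∧ h T.se = ξ⁻¹ * A * y₁ + B * y₂

/-- The determinant, one entry of the adjugate and the colourings of one tangle in the columns 1, 2. -/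
def TanA (T : Tangle) (ξ A B c : ℝ) : Prop :=
  (fox (-(ξ ^ 2)) T).det = c * ((ξ + ξ⁻¹) * A + B) ∧
  (fox (-(ξ ^ 2)) T).adjugate T.nw T.ne * -(wNE (-(ξ ^ 2)) (T.ovr T.ne)) = c * (ξ * A) ∧
  ColA T ξ A B

/-- The colourings of one tangle in the columns 2, 3: upper ends SW, NW, lower ends SE, NE. -/
def ColB (T : Tangle) (ξ A B : ℝ) : Prop :=
  ∀ y₂ y₃ : ℝ, ∃ h : T.Cr → ℝ,
    (fox (-(ξ ^ 2)) T).mulVec h =
      Pi.single T.ne (-(wNE (-(ξ ^ 2)) (T.ovr T.ne)) * (((ξ + ξ⁻¹) * A + B) * y₃ - ξ⁻¹ * A * y₂)) +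
      Pi.single T.sw (-(wSW (-(ξ ^ 2)) (T.ovr T.sw)) * ((ξ * A + B) * y₂)) ∧
    h T.nw = (ξ * A + B) * y₃ ∧ h T.se = B * y₂ + ξ * A * y₃

/-- The determinant, one entry of the adjugate and the colourings of one tangle in the columns 2, 3. -/
def TanB (T : Tangle) (ξ A B c : ℝ) : Prop :=
  (fox (-(ξ ^ 2)) T).det = c * ((ξ + ξ⁻¹) * A + B) ∧
  (fox (-(ξ ^ 2)) T).adjugate T.nw T.sw * -(wSW (-(ξ ^ 2)) (T.ovr T.sw)) = c * (ξ⁻¹ * A) ∧
  ColB T ξ A B

end Pool.Agent.HMT
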