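import Pool.Agent.HMT.Spec

/-! HMT, module `DetA`: the determinant of the word with one more tangle in the columns 1, 2. -/

set_option autoImplicit false

namespace Pool.Agent.HMT

open Polynomial Matrix Pool.Agent.HMA

namespace DetAAux

theorem blk (t : ℝ) (W : Wd) (T : Tangle) :
    (fox3 t (.addA W T)).det =
      (fromBlocks (fox3 t W) (single W.b1 T.nw (wSW t (W.ovr W.b1)))
        (single T.ne W.b2 (wNE t (T.ovr T.ne))) (fox t T)).det := rfl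

end DetAAux

theorem tDetA : S_Det → S_AdjV → S_Mn → S_DetA := by
  intro hDet hAdj hMn W T ξ M n n' c A B c' hξ hc hc' hm hInv hRel hT
  obtain ⟨hA1, _⟩ := hAdj W ξ M n n' c hInv hRel
  obtain ⟨hR, _⟩ := hRel
  obtain ⟨hT1, hT2, _⟩ := hT
  obtain ⟨⟨hM, _, _⟩, _⟩ := hMn ξ A B M hξ
  have hDl : 0 < Dl M := hInv.2.2.2.2.2.1
  have hn : 0 < n := hInv.1
  have hdetA : (fox3 (-(ξ ^ 2)) W).det ≠ 0 := by
    intro h0
    rw [h0, mul_zero] at hR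
    exact (mul_pos hc hDl).ne hR
  have hdetD : (fox (-(ξ ^ 2)) T).det ≠ 0 := by
    rw [hT1]
    exact (mul_pos hc' hm).ne'
  have h := hDet W.Cr T.Cr (fox3 (-(ξ ^ 2)) W) (fox (-(ξ ^ 2)) T) W.b1 T.nw T.ne W.b2
    (wSW (-(ξ ^ 2)) (W.ovr W.b1)) (wNE (-(ξ ^ 2)) (T.ovr T.ne)) hdetA hdetD
  rw [DetAAux.blk, h, hM]
  have e : (ξ⁻¹ * A + B) * n *
      ((fox3 (-(ξ ^ 2)) W).det * (fox (-(ξ ^ 2)) T).det -
        wSW (-(ξ ^ 2)) (W.ovr W.b1) * wNE (-(ξ ^ 2)) (T.ovr T.ne) *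
          (fox3 (-(ξ ^ 2)) W).adjugate W.b2 W.b1 * (fox (-(ξ ^ 2)) T).adjugate T.nw T.ne) =
      (ξ⁻¹ * A + B) * ((n * (fox3 (-(ξ ^ 2)) W).det) * (fox (-(ξ ^ 2)) T).det -
        (n * ((fox3 (-(ξ ^ 2)) W).adjugate W.b2 W.b1 * -(wSW (-(ξ ^ 2)) (W.ovr W.b1)))) *
        ((fox (-(ξ ^ 2)) T).adjugate T.nw T.ne * -(wNE (-(ξ ^ 2)) (T.ovr T.ne)))) := by ring
  rw [e, hR, hA1, hT1, hT2]
  ring

end Pool.Agent.HMT
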