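import Pool.Agent.HMT.Spec

/-!
# HMT, module DetB (helper28): the determinant of the Fox matrix of `addB W T`
-/

set_option autoImplicit false

namespace Pool.Agent.HMT

open Polynomial Matrix Pool.Agent.HMA

/-- Module DetB. -/
theorem tDetB : S_Det → S_AdjV → S_Mn → S_DetB := by
  intro hD hV hM W T ξ M n n' c A B c' hξ hc hc' hu hI hR hT
  have hn : 0 < n := hI.1
  have hDl : 0 < Dl M := hI.2.2.2.2.2.1
  have h1 : n * (fox3 (-(ξ ^ 2)) W).det = c * Dl M := hR.1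
  have h2 := (hV W ξ M n n' c hI hR).2
  have h3 : (fox (-(ξ ^ 2)) T).det = c' * ((ξ + ξ⁻¹) * A + B) := hT.1
  have h4 : (fox (-(ξ ^ 2)) T).adjugate T.nw T.sw * -(wSW (-(ξ ^ 2)) (T.ovr T.sw)) = c' * (ξ⁻¹ * A) := hT.2.1
  have hA : (fox3 (-(ξ ^ 2)) W).det ≠ 0 := by
    intro h
    rw [h, mul_zero] at h1
    have : 0 < c * Dl M := mul_pos hc hDl
    linarith
  have hT0 : (fox (-(ξ ^ 2)) T).det ≠ 0 := by
    rw [h3]
    exact (mul_pos hc' hu).ne'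
  have h5 : (fox3 (-(ξ ^ 2)) (.addB W T)).det = (fox3 (-(ξ ^ 2)) W).det * (fox (-(ξ ^ 2)) T).det -
      wNE (-(ξ ^ 2)) (W.ovr W.b3) * wSW (-(ξ ^ 2)) (T.ovr T.sw) *
        (fox3 (-(ξ ^ 2)) W).adjugate W.b2 W.b3 * (fox (-(ξ ^ 2)) T).adjugate T.nw T.sw :=
    hD W.Cr T.Cr (fox3 (-(ξ ^ 2)) W) (fox (-(ξ ^ 2)) T) W.b3 T.nw T.sw W.b2
      (wNE (-(ξ ^ 2)) (W.ovr W.b3)) (wSW (-(ξ ^ 2)) (T.ovr T.sw)) hA hT0
  rw [(hM ξ A B M hξ).2.1, h5]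
  linear_combination (ξ * A + B) * (fox (-(ξ ^ 2)) T).det * h1 + (ξ * A + B) * c * Dl M * h3 -
    (ξ * A + B) * ((fox (-(ξ ^ 2)) T).adjugate T.nw T.sw * -(wSW (-(ξ ^ 2)) (T.ovr T.sw))) * h2 -
    (ξ * A + B) * c * m23 M * h4

end Pool.Agent.HMT
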