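import Pool.Agent.HMT.Spec

/-!
# HMT, module FinW (helper28): the main theorem from the modules
-/

set_option autoImplicit false

namespace Pool.Agent.HMT

open Polynomial Matrix Pool.Agent.HMA

/-- Module FinW. -/
theorem tFinW : S_Ind3 → S_GF → S_ClsD → S_ClsF → S_AdjW → S_MapW → S_Read → S_FinW := by
  intro hInd hGF hClsD hClsF hAdj hMap hRead W hW i j
  obtain ⟨T, p, q, K, hT, hs, hξ0⟩ := hInd W hW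
  obtain ⟨hp, hq, F, hF, hG⟩ := hGF p q T hT
  obtain ⟨z, hz⟩ := hAdj W hW
  have hsig : sigW W = ((p - 1 : ℕ) : ℤ) - ((q - 1 : ℕ) : ℤ) := by
    rw [← hs, Nat.cast_sub hp, Nat.cast_sub hq]
    push_cast
    ring
  rw [hsig]
  refine hRead (p - 1) (q - 1) F _ (2 * z j + (K - (if W.ovr W.t2 then 2 else 0))) hF fun ξ hξ => ?_
  have hne : ξ ≠ 0 := hξ.ne'
  obtain ⟨hI, hR⟩ := hξ0 ⟨ξ, hξ⟩
  have hD := hClsD W ξ _ _ _ _ hI hR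
  have hC := hClsF ξ _ _ _ hξ hI
  have hg := hG ⟨ξ, hξ⟩
  have hpos : (0 : ℝ) < (ξ + ξ⁻¹) ^ 2 - 3 := by
    have h1 : ξ * ξ⁻¹ = 1 := mul_inv_cancel₀ hne
    have h2 : (ξ + ξ⁻¹) ^ 2 - 3 = (ξ - ξ⁻¹) ^ 2 + 1 := by linear_combination 4 * h1
    rw [h2]
    positivity
  have hb : Dl (T ⟨ξ, hξ⟩).1 / (T ⟨ξ, hξ⟩).2.1 - (T ⟨ξ, hξ⟩).1 0 0 - (T ⟨ξ, hξ⟩).1 2 2 + (T ⟨ξ, hξ⟩).2.1 = ev ξ F := by
    have h1 : (Dl (T ⟨ξ, hξ⟩).1 / (T ⟨ξ, hξ⟩).2.1 - (T ⟨ξ, hξ⟩).1 0 0 - (T ⟨ξ, hξ⟩).1 2 2 + (T ⟨ξ, hξ⟩).2.1) *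
        ((ξ + ξ⁻¹) ^ 2 - 3) = ev ξ F * ((ξ + ξ⁻¹) ^ 2 - 3) := by
      rw [hC]
      have h2 : (T ⟨ξ, hξ⟩).1.trace - 2 * (T ⟨ξ, hξ⟩).2.1 - (T ⟨ξ, hξ⟩).2.2 = Gf T ⟨ξ, hξ⟩ := rfl
      rw [h2, hg]
      ring
    exact mul_right_cancel₀ hpos.ne' h1
  have h1 : (foxW (-(ξ ^ 2)) W).adjugate W.b2 W.t2 * -(wNE (-(ξ ^ 2)) (W.ovr W.t2)) = ξ ^ K * ev ξ F := by
    rw [← hb]
    exact hD
  rw [hMap, hz (ξ ^ 2) (by positivity) i j W.b2]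
  have h2 : (foxW (-(ξ ^ 2)) W).adjugate W.b2 W.t2 = ξ ^ (K - (if W.ovr W.t2 then 2 else 0)) * ev ξ F := by
    unfold wNE at h1
    split at h1
    · rename_i ho
      rw [if_pos ho, zpow_sub₀ hne]
      rw [neg_neg] at h1
      have : (ξ : ℝ) ^ (2 : ℤ) = ξ ^ 2 := by norm_cast
      rw [this]
      field_simp
      linarith
    · rename_i ho
      rw [if_neg ho, sub_zero]
      rw [neg_neg, mul_one] at h1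
      exact h1
  rw [h2, zpow_add₀ hne, _root_.zpow_mul]
  have : (ξ : ℝ) ^ (2 : ℤ) = ξ ^ 2 := by norm_cast
  rw [this]
  ring

end Pool.Agent.HMT
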