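import Pool.Agent.HMT.Spec

/-!
# HMT, module GF: the function `Gf` on `KFull`
-/

set_option autoImplicit false

namespace Pool.Agent.HMT

open Polynomial Matrix Pool.Agent.HMA

/-- `Gf` of a scalar multiple plus an element. -/
private theorem GF_lin (P : ℤ[X]) (T R : TT) (ξ : {ξ : ℝ // 0 < ξ}) :
    Gf (sc P * T + R) ξ = ev ξ.1 P * Gf T ξ + Gf R ξ := by
  have h1 : ((sc P * T + R) ξ).1 = ev ξ.1 P • (T ξ).1 + (R ξ).1 := by
    show (ev ξ.1 P • (1 : Matrix (Fin 3) (Fin 3) ℝ)) * (T ξ).1 + (R ξ).1 = _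
    rw [smul_mul_assoc, one_mul]
  have h2 : ((sc P * T + R) ξ).2.1 = ev ξ.1 P * (T ξ).2.1 + (R ξ).2.1 := rfl
  have h3 : ((sc P * T + R) ξ).2.2 = ev ξ.1 P * (T ξ).2.2 + (R ξ).2.2 := rfl
  unfold Gf
  rw [h1, h2, h3, Matrix.trace_add, Matrix.trace_smul, smul_eq_mul]
  ring

theorem tGF : S_GfW → S_GK → S_FullM → S_GF := by
  intro h1 h2 h3 p q T hT
  obtain ⟨a, b, v, P, R, ha, hb, hs, hr, hP, hR, rfl⟩ := hT
  obtain ⟨-, -, h3c, h3d⟩ := h3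
  obtain ⟨F1, -, -, hF1, hG1⟩ := h1 v
  obtain ⟨F2, hF2, hG2⟩ := h2 (p + q) R hR
  refine ⟨by omega, by omega, P * F1 + F2, h3c _ _ _ _ ?_ ?_, fun ξ => ?_⟩
  · have h4 := h3d a b (HM3.nA v - 1) (HM3.nB v - 1) P F1 hP (hF1 hs hr)
    rw [show a + (HM3.nA v - 1) = p - 1 by omega, show b + (HM3.nB v - 1) = q - 1 by omega] at h4
    exact h4
  · rw [show p - 1 + (q - 1) = p + q - 2 by omega]
    exact hF2
  · have h5 : ev ξ.1 (P * F1 + F2) = ev ξ.1 P * ev ξ.1 F1 + ev ξ.1 F2 := by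
      unfold ev
      rw [map_add, map_mul]
    rw [GF_lin, hG1, hG2, h5]
    ring

end Pool.Agent.HMT
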