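import Pool.Agent.HMT.Spec

/-!
# HMT, module GK: `Gf` on the cone
-/

set_option autoImplicit false

namespace Pool.Agent.HMT

open Polynomial Matrix Pool.Agent.HMA

namespace GKAux

theorem zero (ξ : {ξ : ℝ // 0 < ξ}) : Gf 0 ξ = 0 := by
  unfold Gf
  simp

theorem add (T T' : TT) (ξ : {ξ : ℝ // 0 < ξ}) : Gf (T + T') ξ = Gf T ξ + Gf T' ξ := by
  unfold Gf
  simp only [Pi.add_apply, Prod.fst_add, Prod.snd_add, Matrix.trace_add]
  ring

theorem mul (P : ℤ[X]) (T : TT) (ξ : {ξ : ℝ // 0 < ξ}) :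
    Gf (sc P * T) ξ = ev ξ.1 P * Gf T ξ := by
  unfold Gf sc
  simp only [Pi.mul_apply, Prod.fst_mul, Prod.snd_mul, smul_mul_assoc, one_mul, Matrix.trace_smul,
    smul_eq_mul]
  ring

theorem evz (ξ : ℝ) : ev ξ 0 = 0 := by
  unfold ev
  exact map_zero _

theorem eva (ξ : ℝ) (F G : ℤ[X]) : ev ξ (F + G) = ev ξ F + ev ξ G := by
  unfold ev
  exact map_add _ _ _

theorem evm (ξ : ℝ) (F G : ℤ[X]) : ev ξ (F * G) = ev ξ F * ev ξ G := by
  unfold ev
  exact map_mul _ _ _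

end GKAux

theorem tGK : S_GfW → S_Cheb → S_GK := by
  intro hW hC E T hT
  unfold KT at hT
  induction hT using AddSubmonoid.closure_induction with
  | mem T hT =>
    obtain ⟨e, v, P, he, hP, rfl⟩ := hT
    obtain ⟨F, hF, hF0, _, hG⟩ := hW v
    refine ⟨P * F, ?_, ?_⟩
    · by_cases hv : v.length < 2
      · rw [hF0 hv, mul_zero]
        exact zero_mem _
      · have h := hC.2.1 e (v.length - 2) P F hP hF
        have e1 : e + (v.length - 2) = E - 2 := by omega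
        rwa [e1] at h
    · intro ξ
      rw [GKAux.mul, hG ξ, GKAux.evm]
      ring
  | zero =>
    refine ⟨0, zero_mem _, ?_⟩
    intro ξ
    rw [GKAux.zero, GKAux.evz, mul_zero]
  | add T T' _ _ h1 h2 =>
    obtain ⟨F, hF, hG⟩ := h1
    obtain ⟨F', hF', hG'⟩ := h2
    refine ⟨F + F', add_mem hF hF', ?_⟩
    intro ξ
    rw [GKAux.add, hG ξ, hG' ξ, GKAux.eva]
    ring

end Pool.Agent.HMT
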