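import Pool.Agent.HMT.Spec

/-!
# HMT, GfW: `Gf` of a word of crossings
-/

set_option autoImplicit false

namespace Pool.Agent.HMT

open Polynomial Matrix Pool.Agent.HMA

/-- Module `GfW`: `Gf` of a word of crossings. -/
theorem tGfW : S_Red → S_Tr → S_GfW := by
  intro hR hT v
  obtain ⟨F, hU, h0, hF, h⟩ := hR v
  refine ⟨F, hU, h0, hF, ?_⟩
  intro ξ
  have e1 := h ξ.1 ξ.2
  obtain ⟨e2, e3, e4⟩ := hT v ξ
  have hne : ξ.1 ^ v.length ≠ 0 := pow_ne_zero _ ξ.2.ne'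
  apply mul_left_cancel₀ hne
  unfold Gf
  linear_combination e2 + e1 - e3 - e4

end Pool.Agent.HMT
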