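import Pool.Agent.HMT.Spec

/-!
# HMT, module Goe: the Gordon-Litherland signature of the closed word
-/

set_option autoImplicit false

namespace Pool.Agent.HMT

open Polynomial Matrix Pool.Agent.HMA

private theorem Goe_card (W : Wd) : Fintype.card (FcW W) + 1 = facesW W := by
  induction W with
  | base S T =>
    have h : Fintype.card (FcW (.base S T)) = Fintype.card (Fc S ⊕ Fc T) := rfl
    rw [h, Fintype.card_sum, GoeAux.card_Fc, GoeAux.card_Fc]
    rfl
  | addA W T ih =>
    have h : Fintype.card (FcW (.addA W T)) = Fintype.card (Option (FcW W ⊕ Fc T)) := rfl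
    have h2 : facesW (.addA W T) = facesW W + faces T + 1 := rfl
    rw [h, Fintype.card_option, Fintype.card_sum, GoeAux.card_Fc, h2, ← ih]
    ring
  | addB W T ih =>
    have h : Fintype.card (FcW (.addB W T)) = Fintype.card (FcW W ⊕ Fc T) := rfl
    have h2 : facesW (.addB W T) = facesW W + faces T := rfl
    rw [h, Fintype.card_sum, GoeAux.card_Fc, h2, ← ih]
    ring

private theorem Goe_conn (W : Wd) : ∀ x : RegW W → ℝ, (∀ c, x (aboveW W c) = x (belowW W c)) →
    ∀ v, x v = x (Sum.inr Out.top) := by
  induction W with
  | base S T =>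
    intro x hx v
    have hS := GoeAux.conn S (fun r => x (baseL S T r)) (fun c => hx (Sum.inl c))
    have hT := GoeAux.conn T (fun r => x (baseR S T r)) (fun c => hx (Sum.inr c))
    have h1 : x (Sum.inr Out.bot) = x (Sum.inr Out.top) := hS (Sum.inr false)
    have h2 : x (Sum.inr Out.bot) = x (Sum.inr Out.rt) := hT (Sum.inr false)
    have h3 : x (Sum.inr Out.rt) = x (Sum.inr Out.top) := h2.symm.trans h1
    rcases v with v | v
    · rcases v with v | v
      · exact hS (Sum.inl v)
      · exact (hT (Sum.inl v)).trans h3
    · cases v
      · rfl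
      · exact h1
      · exact h3
  | addA W T ih =>
    intro x hx v
    have hW := ih (fun r => x (addAL W T r)) (fun c => hx (Sum.inl c))
    have hT := GoeAux.conn T (fun r => x (addAR W T r)) (fun c => hx (Sum.inr c))
    have h1 : x (Sum.inl none) = x (Sum.inr Out.top) := hW (Sum.inr Out.bot)
    have h2 : x (Sum.inr Out.bot) = x (Sum.inl none) := hT (Sum.inr false)
    rcases v with v | v
    · rcases v with _ | v
      · exact h1
      · rcases v with v | v
        · exact hW (Sum.inl v)
        · exact (hT (Sum.inl v)).trans h1
    · cases v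
      · rfl
      · exact h2.trans h1
      · exact hW (Sum.inr Out.rt)
  | addB W T ih =>
    intro x hx v
    have hW := ih (fun r => x (addBL W T r)) (fun c => hx (Sum.inl c))
    have hT := GoeAux.conn T (fun r => x (addBR W T r)) (fun c => hx (Sum.inr c))
    have h1 : x (Sum.inr Out.rt) = x (Sum.inr Out.top) := hW (Sum.inr Out.rt)
    rcases v with v | v
    · rcases v with v | v
      · exact hW (Sum.inl v)
      · exact (hT (Sum.inl v)).trans h1
    · exact hW (Sum.inr v)

/-- **Goe**: the Gordon-Litherland signature is `sigW` -/
theorem tGoe : S_Goe := by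
  intro W
  have h := sgn_goeritz (fun i => glueW W (aboveW W i)) (fun i => glueW W (belowW W i))
    (Sum.inr true)
    (by
      intro x hx v
      have h1 := Goe_conn W (fun r => x (glueW W r)) hx
      rcases v with v | v
      · exact h1 (Sum.inl v)
      · cases v
        · exact h1 (Sum.inr Out.rt)
        · rfl)
  rw [sigGLW, sgnW, h, sigW, ← Goe_card W, Fintype.card_sum, Fintype.card_bool]
  push_cast
  ring

end Pool.Agent.HMT
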