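import Pool.Agent.HMT.Spec

/-! # HMT, module HA (helper42): the colourings of the word, `addA` -/

set_option autoImplicit false

namespace Pool.Agent.HMT

open Polynomial Matrix Pool.Agent.HMA

namespace HAAux

theorem blk {R m n : Type*} [CommRing R] [Fintype m] [DecidableEq m] [Fintype n] [DecidableEq n]
    (A : Matrix m m R) (D : Matrix n n R) (i l : m) (j k : n) (a b : R) (u : m → R) (v : n → R) :
    (fromBlocks A (single i j a) (single k l b) D).mulVec (Sum.elim u v) =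
      Sum.elim (A.mulVec u + Pi.single i (a * v j)) (Pi.single k (b * u l) + D.mulVec v) := by
  rw [fromBlocks_mulVec]
  have e1 : (Sum.elim u v) ∘ Sum.inl = u := rfl
  have e2 : (Sum.elim u v) ∘ Sum.inr = v := rfl
  rw [e1, e2]
  have e3 : (single i j a).mulVec v = Pi.single i (a * v j) := by
    funext x
    by_cases h : x = i
    · subst h
      simp [mulVec, dotProduct, single_apply]
    · have h' : ¬ i = x := fun e => h e.symm
      simp [mulVec, dotProduct, h, h']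
  have e4 : (single k l b).mulVec u = Pi.single k (b * u l) := by
    funext x
    by_cases h : x = k
    · subst h
      simp [mulVec, dotProduct, single_apply]
    · have h' : ¬ k = x := fun e => h e.symm
      simp [mulVec, dotProduct, h, h']
  rw [e3, e4]

theorem inl_single {R m n : Type*} [CommRing R] [DecidableEq m] [DecidableEq n] (i : m) (a : R) :
    (Pi.single (Sum.inl i : m ⊕ n) a : m ⊕ n → R) = Sum.elim (Pi.single i a) (0 : n → R) := by
  funext x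
  rcases x with x | x
  · simp [Pi.single_apply]
  · simp

theorem inr_single {R m n : Type*} [CommRing R] [DecidableEq m] [DecidableEq n] (i : n) (a : R) :
    (Pi.single (Sum.inr i : m ⊕ n) a : m ⊕ n → R) = Sum.elim (0 : m → R) (Pi.single i a) := by
  funext x
  rcases x with x | x
  · simp
  · simp [Pi.single_apply]

theorem RRt (ξ A B : ℝ) (M : Matrix (Fin 3) (Fin 3) ℝ) (x : Fin 3 → ℝ) :
    (RR true ξ A B * M).mulVec x 0 = ((ξ + ξ⁻¹) * A + B) * M.mulVec x 0 - ξ * A * M.mulVec x 1 ∧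
    (RR true ξ A B * M).mulVec x 1 = ξ⁻¹ * A * M.mulVec x 0 + B * M.mulVec x 1 ∧
    (RR true ξ A B * M).mulVec x 2 = (ξ⁻¹ * A + B) * M.mulVec x 2 := by
  rw [← mulVec_mulVec]
  generalize M.mulVec x = z
  refine ⟨?_, ?_, ?_⟩ <;> simp [RR, mulVec, dotProduct, Fin.sum_univ_three] <;> ring

end HAAux

open HAAux in
theorem tHA : S_HA := by
  intro W T ξ M n A B hW hT x
  set ν : ℝ := ξ⁻¹ * A + B with hν
  obtain ⟨h1, e1, e2, e3, e4⟩ := hW (ν • x)
  obtain ⟨h2, f1, f2, f3⟩ := hT (M.mulVec x 0) (M.mulVec x 1)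
  obtain ⟨r0, r1, r2⟩ := RRt ξ A B M x
  rw [← hν] at f1 f2 r2
  have hz : ∀ i, M.mulVec (ν • x) i = ν * M.mulVec x i := by
    intro i
    rw [mulVec_smul]
    rfl
  rw [hz, hz] at e1
  rw [hz] at e3
  have hx : ∀ i, (ν • x) i = ν * x i := fun i => rfl
  rw [hx] at e1 e2 e4
  refine ⟨Sum.elim h1 h2, ?_, ?_, ?_, ?_⟩
  · rw [r0, r2]
    have hb := blk (fox3 (-(ξ ^ 2)) W) (fox (-(ξ ^ 2)) T) W.b1 W.b2 T.nw T.ne
      (wSW (-(ξ ^ 2)) (W.ovr W.b1)) (wNE (-(ξ ^ 2)) (T.ovr T.ne)) h1 h2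
    refine hb.trans ?_
    rw [e1, f1, f2, e3]
    have s1 := inr_single (m := W.Cr) (n := T.Cr) T.sw
      (-(wSW (-(ξ ^ 2)) (T.ovr T.sw)) * (((ξ + ξ⁻¹) * A + B) * M.mulVec x 0 - ξ * A * M.mulVec x 1))
    have s2 := inl_single (m := W.Cr) (n := T.Cr) W.t2
      (-(wNE (-(ξ ^ 2)) (W.ovr W.t2)) * (ν * n * x 1))
    have s3 := inl_single (m := W.Cr) (n := T.Cr) W.b3
      (-(wNE (-(ξ ^ 2)) (W.ovr W.b3)) * (ν * M.mulVec x 2))
    have hR : (Pi.single (Wd.addA W T).b1 (-(wSW (-(ξ ^ 2)) ((Wd.addA W T).ovr (Wd.addA W T).b1)) *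
          (((ξ + ξ⁻¹) * A + B) * M.mulVec x 0 - ξ * A * M.mulVec x 1)) +
        Pi.single (Wd.addA W T).t2 (-(wNE (-(ξ ^ 2)) ((Wd.addA W T).ovr (Wd.addA W T).t2)) *
          (ν * n * x 1)) +
        Pi.single (Wd.addA W T).b3 (-(wNE (-(ξ ^ 2)) ((Wd.addA W T).ovr (Wd.addA W T).b3)) *
          (ν * M.mulVec x 2)) : W.Cr ⊕ T.Cr → ℝ) =
      Sum.elim (0 : W.Cr → ℝ) (Pi.single T.sw
      (-(wSW (-(ξ ^ 2)) (T.ovr T.sw)) * (((ξ + ξ⁻¹) * A + B) * M.mulVec x 0 - ξ * A * M.mulVec x 1))) +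
      Sum.elim (Pi.single W.t2 (-(wNE (-(ξ ^ 2)) (W.ovr W.t2)) * (ν * n * x 1))) (0 : T.Cr → ℝ) +
      Sum.elim (Pi.single W.b3 (-(wNE (-(ξ ^ 2)) (W.ovr W.b3)) * (ν * M.mulVec x 2))) (0 : T.Cr → ℝ) := by
      rw [← s1, ← s2, ← s3]
      rfl
    refine Eq.trans ?_ hR.symm
    funext c
    rcases c with c | c
    · simp only [Sum.elim_inl, Pi.add_apply, Pi.zero_apply, zero_add, Pi.single_apply]
      split_ifs <;> ring
    · simp only [Sum.elim_inr, Pi.add_apply, Pi.zero_apply, add_zero, Pi.single_apply]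
      split_ifs <;> ring
  · exact e2.trans (by ring)
  · rw [r1]
    exact f3
  · exact e4.trans (by ring)

end Pool.Agent.HMT
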