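import Pool.Agent.HMT.Spec

/-!
# HMT, Ind3: the induction over the word
-/

set_option autoImplicit false

namespace Pool.Agent.HMT

open Polynomial Matrix Pool.Agent.HMA

namespace Ind3Aux

/-- The lower bounds for the numbers of letters may be decreased. -/
private theorem mono (p q s r s' r' : ℕ) (T : TT) (hs : s' ≤ s) (hr : r' ≤ r)
    (h : KFull p q s r T) : KFull p q s' r' T := by
  obtain ⟨a, b, v, P, R, h1, h2, h3, h4, h5⟩ := h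
  exact ⟨a, b, v, P, R, h1, h2, hs.trans h3, hr.trans h4, h5⟩

private theorem kapT (ξ : ℝ) : kap true ξ = ξ := rfl

private theorem kapF (ξ : ℝ) : kap false ξ = ξ⁻¹ := rfl

/-- `u A + B` is positive. -/
private theorem pos (ξ A B : ℝ) (hξ : 0 < ξ) (hA : 0 < A)
    (h : ∀ d : Bool, 0 < kap d ξ * A + B) : 0 < (ξ + ξ⁻¹) * A + B := by
  have h1 := h true
  rw [kapT] at h1
  have h2 : 0 < ξ⁻¹ * A := mul_pos (inv_pos.mpr hξ) hA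
  have e : (ξ + ξ⁻¹) * A + B = (ξ * A + B) + ξ⁻¹ * A := by ring
  rw [e]
  exact add_pos h1 h2

/-- The claim for one word. -/
private def Cl (W : Wd) : Prop := ∃ (T : TT) (p q : ℕ) (K : ℤ), KFull p q 1 1 T ∧
  (p : ℤ) - q = sigW W ∧
  ∀ ξ : {ξ : ℝ // 0 < ξ}, Inv ξ.1 (T ξ).1 (T ξ).2.1 (T ξ).2.2 ∧
    RelW W ξ.1 (T ξ).1 (T ξ).2.1 (ξ.1 ^ K)

private theorem base (hDat : S_Dat) (hPos : S_Pos2) (hTri : S_KTri) (hKF : S_KF) (hInv : S_InvR)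
    (hBase : S_Base) (S T : Tangle) (hS : DownA S) (hT : DownB T) : Cl (.base S T) := by
  obtain ⟨x, p₁, q₁, K₁, hx, hs, hx'⟩ := hDat.1 S hS
  obtain ⟨y, p₂, q₂, K₂, hy, ht, hy'⟩ := hDat.2 T hT
  refine ⟨tri false y * tri true x, p₂ + (p₁ + 1), (q₂ + 1) + q₁, K₁ + K₂, ?_, ?_, ?_⟩
  · exact hKF p₂ (q₂ + 1) 0 1 (p₁ + 1) q₁ 1 0 _ _ (hTri.2 p₂ q₂ y hy) (hTri.1 p₁ q₁ x hx)
  · simp only [sigW, facesW, positiveW]
    push_cast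
    linarith
  · intro ξ
    have hξ := ξ.2
    have px := hPos p₁ q₁ x hx ξ.1 hξ
    have py := hPos q₂ p₂ y hy ξ.1 hξ
    have i1 := hInv.2 true ξ.1 (ev ξ.1 x.1) (ev ξ.1 x.2) hξ px.1.le px.2 1 1 1 (hInv.1 ξ.1 hξ)
    have i2 := hInv.2 false ξ.1 (ev ξ.1 y.1) (ev ξ.1 y.2) hξ py.1.le py.2 _ _ _ i1
    rw [mul_one, mul_one, mul_one] at i2
    have r := hBase S T ξ.1 _ _ _ _ _ _ hξ (hx' ξ.1 hξ) (hy' ξ.1 hξ)
    rw [← zpow_add₀ hξ.ne'] at r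
    exact ⟨i2, r⟩

private theorem addA (hDat : S_Dat) (hPos : S_Pos2) (hTri : S_KTri) (hKF : S_KF) (hInv : S_InvR)
    (hDet : S_DetA) (hHA : S_HA) (W : Wd) (T : Tangle) (hT : DownA T) (hW : Cl W) :
    Cl (.addA W T) := by
  obtain ⟨U, p, q, K, hU, hs, hU'⟩ := hW
  obtain ⟨x, p₁, q₁, K₁, hx, ht, hx'⟩ := hDat.1 T hT
  refine ⟨tri true x * U, (p₁ + 1) + p, q₁ + q, K + K₁, ?_, ?_, ?_⟩
  · exact mono _ _ _ _ _ _ _ (by omega) (by omega)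
      (hKF (p₁ + 1) q₁ 1 0 p q 1 1 _ _ (hTri.1 p₁ q₁ x hx) hU)
  · simp only [sigW, facesW, positiveW] at hs ⊢
    push_cast
    linarith
  · intro ξ
    have hξ := ξ.2
    have px := hPos p₁ q₁ x hx ξ.1 hξ
    obtain ⟨iU, rU⟩ := hU' ξ
    have tx := hx' ξ.1 hξ
    have i := hInv.2 true ξ.1 (ev ξ.1 x.1) (ev ξ.1 x.2) hξ px.1.le px.2 _ _ _ iU
    have d := hDet W T ξ.1 _ _ _ _ _ _ _ hξ (zpow_pos hξ K) (zpow_pos hξ K₁)
      (pos ξ.1 _ _ hξ px.1 px.2) iU rU tx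
    rw [← zpow_add₀ hξ.ne'] at d
    exact ⟨i, d, hHA W T ξ.1 _ _ _ _ rU.2 tx.2.2⟩

private theorem addB (hDat : S_Dat) (hPos : S_Pos2) (hTri : S_KTri) (hKF : S_KF) (hInv : S_InvR)
    (hDet : S_DetB) (hHB : S_HB) (W : Wd) (T : Tangle) (hT : DownB T) (hW : Cl W) :
    Cl (.addB W T) := by
  obtain ⟨U, p, q, K, hU, hs, hU'⟩ := hW
  obtain ⟨x, p₁, q₁, K₁, hx, ht, hx'⟩ := hDat.2 T hT
  refine ⟨tri false x * U, p₁ + p, (q₁ + 1) + q, K + K₁, ?_, ?_, ?_⟩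
  · exact mono _ _ _ _ _ _ _ (by omega) (by omega)
      (hKF p₁ (q₁ + 1) 0 1 p q 1 1 _ _ (hTri.2 p₁ q₁ x hx) hU)
  · simp only [sigW, facesW, positiveW] at hs ⊢
    push_cast
    linarith
  · intro ξ
    have hξ := ξ.2
    have px := hPos q₁ p₁ x hx ξ.1 hξ
    obtain ⟨iU, rU⟩ := hU' ξ
    have tx := hx' ξ.1 hξ
    have i := hInv.2 false ξ.1 (ev ξ.1 x.1) (ev ξ.1 x.2) hξ px.1.le px.2 _ _ _ iU
    have d := hDet W T ξ.1 _ _ _ _ _ _ _ hξ (zpow_pos hξ K) (zpow_pos hξ K₁)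
      (pos ξ.1 _ _ hξ px.1 px.2) iU rU tx
    rw [← zpow_add₀ hξ.ne'] at d
    exact ⟨i, d, hHB W T ξ.1 _ _ _ _ rU.2 tx.2.2⟩

private theorem all (hDat : S_Dat) (hPos : S_Pos2) (hTri : S_KTri) (hKF : S_KF) (hInv : S_InvR)
    (hDetA : S_DetA) (hDetB : S_DetB) (hHA : S_HA) (hHB : S_HB) (hBase : S_Base) (W : Wd) :
    W.Down → Cl W := by
  induction W with
  | base S T => exact fun h => base hDat hPos hTri hKF hInv hBase S T h.1 h.2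
  | addA W T ih => exact fun h => addA hDat hPos hTri hKF hInv hDetA hHA W T h.2 (ih h.1)
  | addB W T ih => exact fun h => addB hDat hPos hTri hKF hInv hDetB hHB W T h.2 (ih h.1)

end Ind3Aux

theorem tInd3 : S_Dat → S_Pos2 → S_KTri → S_KF → S_InvR → S_DetA → S_DetB → S_HA → S_HB → S_Base →
    S_Ind3 := by
  intro h1 h2 h3 h4 h5 h6 h7 h8 h9 h10 W hW
  exact Ind3Aux.all h1 h2 h3 h4 h5 h6 h7 h8 h9 h10 W hW

end Pool.Agent.HMT
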