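import Pool.Agent.HMT.Spec

/-!
# HMT, InvR: the invariants of the product of the matrices
-/

set_option autoImplicit false

namespace Pool.Agent.HMT

open Polynomial Matrix Pool.Agent.HMA

namespace InvRAux

theorem one_inv (ξ : ℝ) : Inv ξ 1 1 1 := by
  refine ⟨one_pos, one_pos, ?_, ⟨?_, ?_, ?_⟩, ?_, ?_, ?_, ?_, ?_⟩
  · intro i
    have h : ∀ i : Fin 3, (1 : Matrix (Fin 3) (Fin 3) ℝ) i 0 + (1 : Matrix (Fin 3) (Fin 3) ℝ) i 1 +
        (1 : Matrix (Fin 3) (Fin 3) ℝ) i 2 = ∑ j, (1 : Matrix (Fin 3) (Fin 3) ℝ) i j := by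
      intro i
      rw [Fin.sum_univ_three]
    rw [h i]
    simp [Matrix.one_apply]
  · simp
  · simp
  · simp
  · simp
  · simp [Dl]
  · simp [m21]
  · simp [m23]
  · simp [Dl, m21, m23]

theorem mulT (ξ A B : ℝ) (M : Matrix (Fin 3) (Fin 3) ℝ) (j : Fin 3) :
    (RR true ξ A B * M) 0 j = ((ξ + ξ⁻¹) * A + B) * M 0 j - ξ * A * M 1 j ∧
    (RR true ξ A B * M) 1 j = ξ⁻¹ * A * M 0 j + B * M 1 j ∧
    (RR true ξ A B * M) 2 j = (ξ⁻¹ * A + B) * M 2 j := by
  refine ⟨?_, ?_, ?_⟩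
  · simp [RR, Matrix.mul_apply, Fin.sum_univ_three]
    ring
  · simp [RR, Matrix.mul_apply, Fin.sum_univ_three]
  · simp [RR, Matrix.mul_apply, Fin.sum_univ_three]

theorem mulF (ξ A B : ℝ) (M : Matrix (Fin 3) (Fin 3) ℝ) (j : Fin 3) :
    (RR false ξ A B * M) 0 j = (ξ * A + B) * M 0 j ∧
    (RR false ξ A B * M) 1 j = B * M 1 j + ξ * A * M 2 j ∧
    (RR false ξ A B * M) 2 j = ((ξ + ξ⁻¹) * A + B) * M 2 j - ξ⁻¹ * A * M 1 j := by
  refine ⟨?_, ?_, ?_⟩
  · simp [RR, Matrix.mul_apply, Fin.sum_univ_three]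
  · simp [RR, Matrix.mul_apply, Fin.sum_univ_three]
  · simp [RR, Matrix.mul_apply, Fin.sum_univ_three]
    ring

theorem detT {ξ : ℝ} (hξ : 0 < ξ) (A B : ℝ) :
    (RR true ξ A B).det = (ξ⁻¹ * A + B) ^ 2 * (ξ * A + B) := by
  have h : ξ * ξ⁻¹ = 1 := mul_inv_cancel₀ hξ.ne'
  rw [Matrix.det_fin_three]
  simp [RR]
  linear_combination (0 : ℝ) * h

theorem detF {ξ : ℝ} (hξ : 0 < ξ) (A B : ℝ) :
    (RR false ξ A B).det = (ξ * A + B) ^ 2 * (ξ⁻¹ * A + B) := by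
  have h : ξ * ξ⁻¹ = 1 := mul_inv_cancel₀ hξ.ne'
  rw [Matrix.det_fin_three]
  simp [RR]
  linear_combination (0 : ℝ) * h

end InvRAux

open InvRAux

theorem tInvR : S_Mn → S_InvR := by
  intro hMn
  refine ⟨fun ξ _ => one_inv ξ, ?_⟩
  intro c ξ A B hξ hA hk M n n' hI
  obtain ⟨h1, h2, h3, ⟨h4, h5, h6⟩, h7, h8, h9, h10, h11⟩ := hI
  have hi : ξ * ξ⁻¹ = 1 := mul_inv_cancel₀ hξ.ne'
  have hxi : 0 < ξ⁻¹ := inv_pos.2 hξ
  have hT : 0 < ξ * A + B := by
    have := hk true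
    simpa [kap] using this
  have hF : 0 < ξ⁻¹ * A + B := by
    have := hk false
    simpa [kap] using this
  obtain ⟨⟨d1, d2, d3⟩, d4, d5, d6⟩ := hMn ξ A B M hξ
  have r0 := h3 0
  have r1 := h3 1
  have r2 := h3 2
  cases c
  · have e1 : kap (!false) ξ = ξ := by simp [kap]
    have e2 : kap false ξ = ξ⁻¹ := by simp [kap]
    rw [e1, e2]
    have m0 := mulF ξ A B M 0
    have m1 := mulF ξ A B M 1
    have m2 := mulF ξ A B M 2
    obtain ⟨a0, b0, c0⟩ := m0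
    obtain ⟨a1, b1, c1⟩ := m1
    obtain ⟨a2, b2, c2⟩ := m2
    have hle : m23 M ≤ Dl M := by linarith
    refine ⟨mul_pos hT h1, mul_pos hF h2, ?_, ⟨?_, ?_, ?_⟩, ?_, ?_, ?_, ?_, ?_⟩
    · intro i
      fin_cases i
      · show (RR false ξ A B * M) 0 0 + (RR false ξ A B * M) 0 1 + (RR false ξ A B * M) 0 2 = _
        rw [a0, a1, a2]
        linear_combination (ξ * A + B) * r0
      · show (RR false ξ A B * M) 1 0 + (RR false ξ A B * M) 1 1 + (RR false ξ A B * M) 1 2 = _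
        rw [b0, b1, b2]
        linear_combination B * r1 + ξ * A * r2
      · show (RR false ξ A B * M) 2 0 + (RR false ξ A B * M) 2 1 + (RR false ξ A B * M) 2 2 = _
        rw [c0, c1, c2]
        linear_combination ((ξ + ξ⁻¹) * A + B) * r2 - ξ⁻¹ * A * r1
    · rw [a0, b0, c0]
      linear_combination (ξ * A + B) * h4 + (ξ ^ 3 * A * M 2 0 - ξ ^ 3 * A * M 1 0) * hi
    · rw [a1, b1, c1]
      linear_combination (ξ * A + B) * h5 + (ξ ^ 3 * A * M 2 1 - ξ ^ 3 * A * M 1 1) * hi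
    · rw [a2, b2, c2]
      linear_combination (ξ * A + B) * h6 + (ξ ^ 3 * A * M 2 2 - ξ ^ 3 * A * M 1 2) * hi
    · rw [Matrix.det_mul, detF hξ, h7]
      ring
    · rw [d4]
      refine mul_pos hT ?_
      have : 0 ≤ ξ⁻¹ * A * (Dl M - m23 M) := mul_nonneg (mul_nonneg hxi.le hA) (by linarith)
      have h2 : 0 < (ξ * A + B) * Dl M := mul_pos hT h8
      have e : ((ξ + ξ⁻¹) * A + B) * Dl M - ξ⁻¹ * A * m23 M =
          (ξ * A + B) * Dl M + ξ⁻¹ * A * (Dl M - m23 M) := by ring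
      rw [e]
      linarith
    · rw [d5]
      exact mul_nonneg (mul_nonneg hT.le hF.le) h9
    · rw [d6]
      refine mul_nonneg hT.le ?_
      have : 0 ≤ ξ * A * (Dl M - m23 M) := mul_nonneg (mul_nonneg hξ.le hA) (by linarith)
      have h2 : 0 ≤ (ξ * A + B) * m23 M := mul_nonneg hT.le h10
      have e : ξ * A * Dl M + B * m23 M = (ξ * A + B) * m23 M + ξ * A * (Dl M - m23 M) := by ring
      rw [e]
      linarith
    · rw [d4, d5, d6]
      have : 0 ≤ (ξ * A + B) * (ξ⁻¹ * A + B) * (Dl M - m21 M - m23 M) :=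
        mul_nonneg (mul_nonneg hT.le hF.le) (by linarith)
      refine sub_nonneg.1 (le_of_le_of_eq this ?_)
      linear_combination (0 : ℝ) * hi
  · have e1 : kap (!true) ξ = ξ⁻¹ := by simp [kap]
    have e2 : kap true ξ = ξ := by simp [kap]
    rw [e1, e2]
    have m0 := mulT ξ A B M 0
    have m1 := mulT ξ A B M 1
    have m2 := mulT ξ A B M 2
    obtain ⟨a0, b0, c0⟩ := m0
    obtain ⟨a1, b1, c1⟩ := m1
    obtain ⟨a2, b2, c2⟩ := m2
    have hle : m21 M ≤ Dl M := by linarith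
    refine ⟨mul_pos hF h1, mul_pos hT h2, ?_, ⟨?_, ?_, ?_⟩, ?_, ?_, ?_, ?_, ?_⟩
    · intro i
      fin_cases i
      · show (RR true ξ A B * M) 0 0 + (RR true ξ A B * M) 0 1 + (RR true ξ A B * M) 0 2 = _
        rw [a0, a1, a2]
        linear_combination ((ξ + ξ⁻¹) * A + B) * r0 - ξ * A * r1
      · show (RR true ξ A B * M) 1 0 + (RR true ξ A B * M) 1 1 + (RR true ξ A B * M) 1 2 = _
        rw [b0, b1, b2]
        linear_combination ξ⁻¹ * A * r0 + B * r1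
      · show (RR true ξ A B * M) 2 0 + (RR true ξ A B * M) 2 1 + (RR true ξ A B * M) 2 2 = _
        rw [c0, c1, c2]
        linear_combination (ξ⁻¹ * A + B) * r2
    · rw [a0, b0, c0]
      linear_combination (ξ⁻¹ * A + B) * h4 - (ξ * A * M 0 0 - ξ * A * M 1 0) * hi
    · rw [a1, b1, c1]
      linear_combination (ξ⁻¹ * A + B) * h5 - (ξ * A * M 0 1 - ξ * A * M 1 1) * hi
    · rw [a2, b2, c2]
      linear_combination (ξ⁻¹ * A + B) * h6 - (ξ * A * M 0 2 - ξ * A * M 1 2) * hi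
    · rw [Matrix.det_mul, detT hξ, h7]
      ring
    · rw [d1]
      refine mul_pos hF ?_
      have : 0 ≤ ξ * A * (Dl M - m21 M) := mul_nonneg (mul_nonneg hξ.le hA) (by linarith)
      have h2 : 0 < (ξ⁻¹ * A + B) * Dl M := mul_pos hF h8
      have e : ((ξ + ξ⁻¹) * A + B) * Dl M - ξ * A * m21 M =
          (ξ⁻¹ * A + B) * Dl M + ξ * A * (Dl M - m21 M) := by ring
      rw [e]
      linarith
    · rw [d2]
      refine mul_nonneg hF.le ?_
      have : 0 ≤ ξ⁻¹ * A * (Dl M - m21 M) := mul_nonneg (mul_nonneg hxi.le hA) (by linarith)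
      have h2 : 0 ≤ (ξ⁻¹ * A + B) * m21 M := mul_nonneg hF.le h9
      have e : ξ⁻¹ * A * Dl M + B * m21 M = (ξ⁻¹ * A + B) * m21 M + ξ⁻¹ * A * (Dl M - m21 M) := by ring
      rw [e]
      linarith
    · rw [d3]
      exact mul_nonneg (mul_nonneg hF.le hT.le) h10
    · rw [d1, d2, d3]
      have : 0 ≤ (ξ⁻¹ * A + B) * (ξ * A + B) * (Dl M - m21 M - m23 M) :=
        mul_nonneg (mul_nonneg hF.le hT.le) (by linarith)
      refine sub_nonneg.1 (le_of_le_of_eq this ?_)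
      linear_combination (0 : ℝ) * hi

end Pool.Agent.HMT
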