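import Pool.Agent.HMT.Spec

/-! # HMT, module KF: products of KFull -/

set_option autoImplicit false

namespace Pool.Agent.HMT

open Polynomial Matrix Pool.Agent.HMA

namespace KFAux

theorem len (v : List Bool) : HM3.nA v + HM3.nB v = v.length := by
  unfold HM3.nA HM3.nB
  induction v with
  | nil => rfl
  | cons c v ih =>
    cases c <;> simp <;> omega

end KFAux

theorem tKF : S_Sc → S_Wd3 → S_KT → S_FullM → S_KF := by
  intro hSc hWd hKT hF p q s r p' q' s' r' T T' hT hT'
  obtain ⟨a, b, v, P, R, h1, h2, h3, h4, h5, h6, rfl⟩ := hT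
  obtain ⟨a', b', v', P', R', k1, k2, k3, k4, k5, k6, rfl⟩ := hT'
  have hv := KFAux.len v
  have hv' := KFAux.len v'
  have nAapp : ∀ x y : List Bool, HM3.nA (x ++ y) = HM3.nA x + HM3.nA y := fun x y => by
    unfold HM3.nA
    exact List.count_append
  have nBapp : ∀ x y : List Bool, HM3.nB (x ++ y) = HM3.nB x + HM3.nB y := fun x y => by
    unfold HM3.nB
    exact List.count_append
  have g1 : sc P * wd3 v ∈ KT (p + q) := by
    have := hKT.1 (a + b) P v (hF.2.1 a b P h5)
    have e : a + b + v.length = p + q := by omega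
    rwa [e] at this
  have g2 : sc P' * wd3 v' ∈ KT (p' + q') := by
    have := hKT.1 (a' + b') P' v' (hF.2.1 a' b' P' k5)
    have e : a' + b' + v'.length = p' + q' := by omega
    rwa [e] at this
  have hE : p + q + (p' + q') = p + p' + (q + q') := by omega
  refine ⟨a + a', b + b', v' ++ v, P * P',
    sc P * wd3 v * R' + R * (sc P' * wd3 v') + R * R', ?_, ?_, ?_, ?_, ?_, ?_, ?_⟩
  · rw [nAapp]
    omega
  · rw [nBapp]
    omega
  · rw [nAapp]
    omega
  · rw [nBapp]
    omega
  · exact hF.2.2.2 a b a' b' P P' h5 k5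
  · rw [← hE]
    exact add_mem (add_mem (hKT.2.1 _ _ _ _ g1 k6) (hKT.2.1 _ _ _ _ h6 g2)) (hKT.2.1 _ _ _ _ h6 k6)
  · have e1 : sc P * wd3 v * (sc P' * wd3 v') = sc (P * P') * wd3 (v' ++ v) := by
      rw [hWd.1, hSc.2.2.2.1, mul_assoc, ← mul_assoc (wd3 v) (sc P') (wd3 v'),
        ← hSc.2.2.2.2 P' (wd3 v), mul_assoc, mul_assoc]
    rw [add_mul, mul_add, mul_add, e1]
    abel

end Pool.Agent.HMT
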