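import Pool.Agent.HMT.Spec

/-!
# HMT, KT: the cone of the words
-/

set_option autoImplicit false

namespace Pool.Agent.HMT

open Polynomial Matrix Pool.Agent.HMA

namespace KTAux

/-- The product of two generators. -/
lemma mulg (h1 : S_Sc) (h3 : S_Wd3) (P P' : ℤ[X]) (v v' : List Bool) :
    (sc P * wd3 v) * (sc P' * wd3 v') = sc (P * P') * wd3 (v' ++ v) := by
  obtain ⟨-, -, -, hm, hc⟩ := h1
  rw [h3.1 v' v, hm P P', mul_assoc, ← mul_assoc (wd3 v) (sc P') (wd3 v'), ← hc P' (wd3 v),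
    mul_assoc (sc P') (wd3 v) (wd3 v'), ← mul_assoc (sc P) (sc P')]

/-- A generator times an element of the cone. -/
lemma mull (h1 : S_Sc) (h3 : S_Wd3) (h4 : S_Cheb) {E E' : ℕ} {T T' : TT}
    (hT : ∃ (e : ℕ) (v : List Bool) (P : ℤ[X]), e + v.length = E ∧ P ∈ Uni e ∧ T = sc P * wd3 v)
    (hT' : T' ∈ KT E') : T * T' ∈ KT (E + E') := by
  obtain ⟨e, v, P, he, hP, rfl⟩ := hT
  unfold KT at hT'
  induction hT' using AddSubmonoid.closure_induction with
  | mem x hx =>
    obtain ⟨e', v', P', he', hP', rfl⟩ := hx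
    refine AddSubmonoid.subset_closure ⟨e + e', v' ++ v, P * P', ?_, h4.2.1 e e' P P' hP hP', ?_⟩
    · rw [List.length_append]
      omega
    · exact mulg h1 h3 P P' v v'
  | zero =>
    rw [mul_zero]
    exact zero_mem _
  | add x y hx hy ihx ihy =>
    rw [mul_add]
    exact add_mem ihx ihy

/-- The cone is closed under products. -/
lemma mul (h1 : S_Sc) (h3 : S_Wd3) (h4 : S_Cheb) {E E' : ℕ} {T T' : TT}
    (hT : T ∈ KT E) (hT' : T' ∈ KT E') : T * T' ∈ KT (E + E') := by
  unfold KT at hT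
  induction hT using AddSubmonoid.closure_induction with
  | mem x hx => exact mull h1 h3 h4 hx hT'
  | zero =>
    rw [zero_mul]
    exact zero_mem _
  | add x y hx hy ihx ihy =>
    rw [add_mul]
    exact add_mem ihx ihy

lemma tri0 (h2 : S_Tri) (c : Bool) : tri c 0 = 0 := by
  have h := (h2 c).2.1 0 0
  rw [add_zero] at h
  have h' : tri c 0 + 0 = tri c 0 + tri c 0 := by rw [add_zero]; exact h
  exact (add_left_cancel h').symm

lemma triK (h2 : S_Tri) (h3 : S_Wd3) {c : Bool} {E : ℕ} {x : ℤ[X] × ℤ[X]} (hx : x ∈ KK E) :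
    tri c x ∈ KT E := by
  unfold KK at hx
  induction hx using AddSubmonoid.closure_induction with
  | mem x hx =>
    obtain ⟨e, k, P, he, hP, rfl⟩ := hx
    refine AddSubmonoid.subset_closure ⟨e, List.replicate k c, P, ?_, hP, ?_⟩
    · rw [List.length_replicate]
      exact he
    · rw [(h2 c).2.2.2 P (sg k), h3.2 c k]
  | zero =>
    rw [tri0 h2 c]
    exact zero_mem _
  | add x y hx hy ihx ihy =>
    rw [(h2 c).2.1 x y]
    exact add_mem ihx ihy

end KTAux

theorem tKT : S_Sc → S_Tri → S_Wd3 → S_Cheb → S_KT := by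
  intro h1 h2 h3 h4
  refine ⟨fun e P v hP => ?_, fun E E' T T' hT hT' => KTAux.mul h1 h3 h4 hT hT',
    fun c E x hx => KTAux.triK h2 h3 hx⟩
  exact AddSubmonoid.subset_closure ⟨e, v, P, rfl, hP, rfl⟩

end Pool.Agent.HMT
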