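import Pool.Agent.HMT.Spec

/-!
# HMT, KTri: a parallel tangle is in KFull
-/

set_option autoImplicit false

namespace Pool.Agent.HMT

open Polynomial Matrix Pool.Agent.HMA

namespace KTriAux

private theorem full_symm (p q : ℕ) (F : ℤ[X]) (h : Full p q F) : Full q p F := by
  obtain ⟨G, hG, hF⟩ := h
  refine ⟨G, ?_, ?_⟩
  · rw [Nat.add_comm]
    exact hG
  · rw [hF, mul_comm (SS p) (SS q)]

private theorem tri_eq (h1 : S_Tri) (h2 : S_Wd3) (c : Bool) (k : ℕ) (P : ℤ[X])
    (R : ℤ[X] × ℤ[X]) :
    tri c ((P * (sg (k + 1)).1, P * (sg (k + 1)).2) + R) =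
      sc P * wd3 (List.replicate (k + 1) c) + tri c R := by
  rw [(h1 c).2.1, (h1 c).2.2.2 P (sg (k + 1)), h2.2 c (k + 1)]

end KTriAux

open KTriAux in
theorem tKTri : S_Tri → S_Wd3 → S_KT → S_KTri := by
  intro h1 h2 h3
  constructor
  · intro p q x hx
    obtain ⟨p', k, P, R, hpk, hP, hR, rfl⟩ := hx
    refine ⟨p', q, List.replicate (k + 1) true, P, tri true R, ?_, ?_, ?_, ?_, hP, ?_,
      tri_eq h1 h2 true k P R⟩
    · simp only [HM3.nA, List.count_replicate_self]
      omega
    · simp [HM3.nB, List.count_replicate]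
    · simp only [HM3.nA, List.count_replicate_self]
      omega
    · exact Nat.zero_le _
    · have h := h3.2.2 true (p + q + 1) R hR
      have e : p + 1 + q = p + q + 1 := by omega
      rw [e]
      exact h
  · intro p q x hx
    obtain ⟨p', k, P, R, hpk, hP, hR, rfl⟩ := hx
    refine ⟨p, p', List.replicate (k + 1) false, P, tri false R, ?_, ?_, ?_, ?_,
      full_symm p' p P hP, ?_, tri_eq h1 h2 false k P R⟩
    · simp [HM3.nA, List.count_replicate]
    · simp only [HM3.nB, List.count_replicate_self]
      omega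
    · exact Nat.zero_le _
    · simp only [HM3.nB, List.count_replicate_self]
      omega
    · have h := h3.2.2 false (q + p + 1) R hR
      have e : p + (q + 1) = q + p + 1 := by omega
      rw [e]
      exact h

end Pool.Agent.HMT
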