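import Pool.Agent.HMT.Spec

/-!
# HMT, module LKT: left kernel of the tangles
-/

set_option autoImplicit false

namespace Pool.Agent.HMT

open Polynomial Matrix Pool.Agent.HMA

theorem tLKT : S_LK → S_LKT := by
  intro h
  constructor
  · intro T hT
    obtain ⟨hO, h1, h2, h3, h4⟩ := hT
    obtain ⟨z, hz⟩ := h T hO 0
    refine ⟨z, fun y hy => ?_⟩
    obtain ⟨k1, k2, k3⟩ := hz y hy
    rw [h2] at k2
    rw [h1, h3] at k3
    refine ⟨fun j => ?_, ?_, ?_⟩
    · have k := k1 j
      rw [h1, h2, h4] at k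
      rw [k]
      norm_num
    · rw [k2]
      norm_num
    · rw [k3]
      norm_num
  · intro T hT
    obtain ⟨hO, h1, h2, h3, h4⟩ := hT
    obtain ⟨z, hz⟩ := h T hO 2
    refine ⟨z, fun y hy => ?_⟩
    obtain ⟨k1, k2, k3⟩ := hz y hy
    rw [h2] at k2
    rw [h1, h3] at k3
    refine ⟨fun j => ?_, ?_, ?_⟩
    · have k := k1 j
      rw [h1, h2, h4] at k
      rw [k]
      norm_num
    · rw [k2]
      norm_num
    · rw [k3]
      norm_num

end Pool.Agent.HMT
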