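import Pool.Agent.HMT.Spec

/-!
# HMT, LKW: the left kernel of the Fox matrix of a word (Alexander numbering)
-/

set_option autoImplicit false

namespace Pool.Agent.HMT

open Polynomial Matrix Pool.Agent.HMA

namespace LKWAux

/-- A column of `single`. -/
theorem sum_single {m n : Type*} [Fintype m] [DecidableEq m] [DecidableEq n] (v : m → ℝ) (i₀ : m)
    (j₀ j : n) (w : ℝ) :
    ∑ i, v i * single i₀ j₀ w i j = if j = j₀ then w * v i₀ else 0 := by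
  by_cases hj : j = j₀
  · subst hj
    rw [if_pos rfl, Finset.sum_eq_single i₀]
    · rw [single_apply_same, mul_comm]
    · intro i _ hi
      rw [single_apply_of_row_ne (Ne.symm hi), mul_zero]
    · intro h
      exact absurd (Finset.mem_univ _) h
  · rw [if_neg hj]
    refine Finset.sum_eq_zero fun i _ => ?_
    rw [single_apply_of_col_ne _ _ (Ne.symm hj), mul_zero]

/-- A tangle in the columns 1, 2. -/
def GA (T : Tangle) (z : T.Cr → ℤ) (y : ℝ) : Prop :=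
  (∀ j, ∑ i, y ^ (z i) * fox (-y) T i j =
      (if j = T.nw then 1 else 0) + (if j = T.se then y else 0)) ∧
    -(wNE (-y) (T.ovr T.ne)) * y ^ (z T.ne) = y ∧ -(wSW (-y) (T.ovr T.sw)) * y ^ (z T.sw) = 1

/-- A tangle in the columns 2, 3. -/
def GB (T : Tangle) (z : T.Cr → ℤ) (y : ℝ) : Prop :=
  (∀ j, ∑ i, y ^ (z i) * fox (-y) T i j =
      (if j = T.nw then y ^ 2 else 0) + (if j = T.se then y else 0)) ∧
    -(wNE (-y) (T.ovr T.ne)) * y ^ (z T.ne) = y ^ 2 ∧ -(wSW (-y) (T.ovr T.sw)) * y ^ (z T.sw) = y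

/-- A word. -/
def GW (W : Wd) (z : W.Cr → ℤ) (y : ℝ) : Prop :=
  (∀ j, ∑ i, y ^ (z i) * fox3 (-y) W i j =
    (if j = W.t1 then 1 else 0) + (if j = W.b2 then y else 0) + (if j = W.t3 then y ^ 2 else 0)) ∧
  -(wSW (-y) (W.ovr W.b1)) * y ^ (z W.b1) = 1 ∧
  -(wNE (-y) (W.ovr W.t2)) * y ^ (z W.t2) = y ∧
  -(wNE (-y) (W.ovr W.b3)) * y ^ (z W.b3) = y ^ 2

theorem base (S T : Tangle) (z₁ : S.Cr → ℤ) (z₂ : T.Cr → ℤ) (y : ℝ) (hS : GA S z₁ y)
    (hT : GB T z₂ y) : GW (.base S T) (Sum.elim z₁ z₂) y := by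
  obtain ⟨s1, s2, s3⟩ := hS
  obtain ⟨t1, t2, t3⟩ := hT
  refine ⟨?_, s3, s2, t2⟩
  intro j
  rcases j with j | j
  · change (∑ i : S.Cr ⊕ T.Cr, y ^ (Sum.elim z₁ z₂ i) *
      fromBlocks (fox (-y) S) 0
        (single T.sw S.se (wSW (-y) (T.ovr T.sw))) (fox (-y) T) i (Sum.inl j)) =
      (if (Sum.inl j : S.Cr ⊕ T.Cr) = Sum.inl S.nw then 1 else 0) +
      (if (Sum.inl j : S.Cr ⊕ T.Cr) = Sum.inr T.se then y else 0) +
      (if (Sum.inl j : S.Cr ⊕ T.Cr) = Sum.inr T.nw then y ^ 2 else 0)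
    rw [Fintype.sum_sum_type]
    simp only [Sum.elim_inl, Sum.elim_inr, fromBlocks_apply₁₁, fromBlocks_apply₂₁,
      Sum.inl.injEq, reduceCtorEq, if_false, add_zero]
    rw [s1 j, sum_single]
    have e3 : wSW (-y) (T.ovr T.sw) * y ^ z₂ T.sw = -y := by
      linear_combination -t3
    rw [e3]
    split_ifs <;> ring
  · change (∑ i : S.Cr ⊕ T.Cr, y ^ (Sum.elim z₁ z₂ i) *
      fromBlocks (fox (-y) S) 0
        (single T.sw S.se (wSW (-y) (T.ovr T.sw))) (fox (-y) T) i (Sum.inr j)) =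
      (if (Sum.inr j : S.Cr ⊕ T.Cr) = Sum.inl S.nw then 1 else 0) +
      (if (Sum.inr j : S.Cr ⊕ T.Cr) = Sum.inr T.se then y else 0) +
      (if (Sum.inr j : S.Cr ⊕ T.Cr) = Sum.inr T.nw then y ^ 2 else 0)
    rw [Fintype.sum_sum_type]
    simp only [Sum.elim_inl, Sum.elim_inr, fromBlocks_apply₁₂, fromBlocks_apply₂₂,
      Sum.inr.injEq, reduceCtorEq, if_false, zero_add, Matrix.zero_apply, mul_zero,
      Finset.sum_const_zero]
    rw [t1 j]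
    ring

theorem addA (W : Wd) (T : Tangle) (z₁ : W.Cr → ℤ) (z₂ : T.Cr → ℤ) (y : ℝ) (hW : GW W z₁ y)
    (hT : GA T z₂ y) : GW (.addA W T) (Sum.elim z₁ z₂) y := by
  obtain ⟨s1, s2, s3, s4⟩ := hW
  obtain ⟨t1, t2, t3⟩ := hT
  refine ⟨?_, t3, s3, s4⟩
  intro j
  rcases j with j | j
  · change (∑ i : W.Cr ⊕ T.Cr, y ^ (Sum.elim z₁ z₂ i) *
      fromBlocks (fox3 (-y) W) (single W.b1 T.nw (wSW (-y) (W.ovr W.b1)))
        (single T.ne W.b2 (wNE (-y) (T.ovr T.ne))) (fox (-y) T) i (Sum.inl j)) =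
      (if (Sum.inl j : W.Cr ⊕ T.Cr) = Sum.inl W.t1 then 1 else 0) +
      (if (Sum.inl j : W.Cr ⊕ T.Cr) = Sum.inr T.se then y else 0) +
      (if (Sum.inl j : W.Cr ⊕ T.Cr) = Sum.inl W.t3 then y ^ 2 else 0)
    rw [Fintype.sum_sum_type]
    simp only [Sum.elim_inl, Sum.elim_inr, fromBlocks_apply₁₁, fromBlocks_apply₂₁,
      Sum.inl.injEq, reduceCtorEq, if_false, add_zero]
    rw [s1 j, sum_single]
    have e3 : wNE (-y) (T.ovr T.ne) * y ^ z₂ T.ne = -y := by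
      linear_combination -t2
    rw [e3]
    split_ifs <;> ring
  · change (∑ i : W.Cr ⊕ T.Cr, y ^ (Sum.elim z₁ z₂ i) *
      fromBlocks (fox3 (-y) W) (single W.b1 T.nw (wSW (-y) (W.ovr W.b1)))
        (single T.ne W.b2 (wNE (-y) (T.ovr T.ne))) (fox (-y) T) i (Sum.inr j)) =
      (if (Sum.inr j : W.Cr ⊕ T.Cr) = Sum.inl W.t1 then 1 else 0) +
      (if (Sum.inr j : W.Cr ⊕ T.Cr) = Sum.inr T.se then y else 0) +
      (if (Sum.inr j : W.Cr ⊕ T.Cr) = Sum.inl W.t3 then y ^ 2 else 0)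
    rw [Fintype.sum_sum_type]
    simp only [Sum.elim_inl, Sum.elim_inr, fromBlocks_apply₁₂, fromBlocks_apply₂₂,
      Sum.inr.injEq, reduceCtorEq, if_false, zero_add, add_zero]
    rw [t1 j, sum_single]
    have e3 : wSW (-y) (W.ovr W.b1) * y ^ z₁ W.b1 = -1 := by
      linear_combination -s2
    rw [e3]
    split_ifs <;> ring

theorem addB (W : Wd) (T : Tangle) (z₁ : W.Cr → ℤ) (z₂ : T.Cr → ℤ) (y : ℝ) (hW : GW W z₁ y)
    (hT : GB T z₂ y) : GW (.addB W T) (Sum.elim z₁ z₂) y := by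
  obtain ⟨s1, s2, s3, s4⟩ := hW
  obtain ⟨t1, t2, t3⟩ := hT
  refine ⟨?_, s2, s3, t2⟩
  intro j
  rcases j with j | j
  · change (∑ i : W.Cr ⊕ T.Cr, y ^ (Sum.elim z₁ z₂ i) *
      fromBlocks (fox3 (-y) W) (single W.b3 T.nw (wNE (-y) (W.ovr W.b3)))
        (single T.sw W.b2 (wSW (-y) (T.ovr T.sw))) (fox (-y) T) i (Sum.inl j)) =
      (if (Sum.inl j : W.Cr ⊕ T.Cr) = Sum.inl W.t1 then 1 else 0) +
      (if (Sum.inl j : W.Cr ⊕ T.Cr) = Sum.inr T.se then y else 0) +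
      (if (Sum.inl j : W.Cr ⊕ T.Cr) = Sum.inl W.t3 then y ^ 2 else 0)
    rw [Fintype.sum_sum_type]
    simp only [Sum.elim_inl, Sum.elim_inr, fromBlocks_apply₁₁, fromBlocks_apply₂₁,
      Sum.inl.injEq, reduceCtorEq, if_false, add_zero]
    rw [s1 j, sum_single]
    have e3 : wSW (-y) (T.ovr T.sw) * y ^ z₂ T.sw = -y := by
      linear_combination -t3
    rw [e3]
    split_ifs <;> ring
  · change (∑ i : W.Cr ⊕ T.Cr, y ^ (Sum.elim z₁ z₂ i) *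
      fromBlocks (fox3 (-y) W) (single W.b3 T.nw (wNE (-y) (W.ovr W.b3)))
        (single T.sw W.b2 (wSW (-y) (T.ovr T.sw))) (fox (-y) T) i (Sum.inr j)) =
      (if (Sum.inr j : W.Cr ⊕ T.Cr) = Sum.inl W.t1 then 1 else 0) +
      (if (Sum.inr j : W.Cr ⊕ T.Cr) = Sum.inr T.se then y else 0) +
      (if (Sum.inr j : W.Cr ⊕ T.Cr) = Sum.inl W.t3 then y ^ 2 else 0)
    rw [Fintype.sum_sum_type]
    simp only [Sum.elim_inl, Sum.elim_inr, fromBlocks_apply₁₂, fromBlocks_apply₂₂,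
      Sum.inr.injEq, reduceCtorEq, if_false, zero_add, add_zero]
    rw [t1 j, sum_single]
    have e3 : wNE (-y) (W.ovr W.b3) * y ^ z₁ W.b3 = -y ^ 2 := by
      linear_combination -s4
    rw [e3]
    split_ifs <;> ring

end LKWAux

theorem tLKW : S_LKT → S_LKW := by
  rintro ⟨hA, hB⟩ W
  induction W with
  | base S T =>
    rintro ⟨hS, hT⟩
    obtain ⟨z₁, e₁⟩ := hA S hS
    obtain ⟨z₂, e₂⟩ := hB T hT
    exact ⟨Sum.elim z₁ z₂, fun y hy => LKWAux.base S T z₁ z₂ y (e₁ y hy) (e₂ y hy)⟩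
  | addA W T ih =>
    rintro ⟨hW, hT⟩
    obtain ⟨z₁, e₁⟩ := ih hW
    obtain ⟨z₂, e₂⟩ := hA T hT
    exact ⟨Sum.elim z₁ z₂, fun y hy => LKWAux.addA W T z₁ z₂ y (e₁ y hy) (e₂ y hy)⟩
  | addB W T ih =>
    rintro ⟨hW, hT⟩
    obtain ⟨z₁, e₁⟩ := ih hW
    obtain ⟨z₂, e₂⟩ := hB T hT
    exact ⟨Sum.elim z₁ z₂, fun y hy => LKWAux.addB W T z₁ z₂ y (e₁ y hy) (e₂ y hy)⟩

end Pool.Agent.HMT
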