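import Pool.Agent.HMT.Spec

/-! HMT, module `Mn`: the minors of the product. -/

set_option autoImplicit false

namespace Pool.Agent.HMT

open Polynomial Matrix Pool.Agent.HMA

namespace MnAux

theorem rt (ξ A B : ℝ) (M : Matrix (Fin 3) (Fin 3) ℝ) (j : Fin 3) :
    (RR true ξ A B * M) 0 j = ((ξ + ξ⁻¹) * A + B) * M 0 j - ξ * A * M 1 j ∧
    (RR true ξ A B * M) 1 j = ξ⁻¹ * A * M 0 j + B * M 1 j ∧
    (RR true ξ A B * M) 2 j = (ξ⁻¹ * A + B) * M 2 j := by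
  unfold RR
  rw [if_pos rfl]
  refine ⟨?_, ?_, ?_⟩
  · simp [Matrix.mul_apply, Fin.sum_univ_three]
    ring
  · simp [Matrix.mul_apply, Fin.sum_univ_three]
  · simp [Matrix.mul_apply, Fin.sum_univ_three]

theorem rf (ξ A B : ℝ) (M : Matrix (Fin 3) (Fin 3) ℝ) (j : Fin 3) :
    (RR false ξ A B * M) 0 j = (ξ * A + B) * M 0 j ∧
    (RR false ξ A B * M) 1 j = B * M 1 j + ξ * A * M 2 j ∧
    (RR false ξ A B * M) 2 j = ((ξ + ξ⁻¹) * A + B) * M 2 j - ξ⁻¹ * A * M 1 j := by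
  unfold RR
  rw [if_neg Bool.false_ne_true]
  refine ⟨?_, ?_, ?_⟩
  · simp [Matrix.mul_apply, Fin.sum_univ_three]
  · simp [Matrix.mul_apply, Fin.sum_univ_three]
  · simp [Matrix.mul_apply, Fin.sum_univ_three]
    ring

end MnAux

theorem tMn : S_Mn := by
  intro ξ A B M _
  have a0 := MnAux.rt ξ A B M 0
  have a2 := MnAux.rt ξ A B M 2
  have b0 := MnAux.rf ξ A B M 0
  have b2 := MnAux.rf ξ A B M 2
  obtain ⟨a00, a10, a20⟩ := a0
  obtain ⟨a02, a12, a22⟩ := a2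
  obtain ⟨b00, b10, b20⟩ := b0
  obtain ⟨b02, b12, b22⟩ := b2
  refine ⟨⟨?_, ?_, ?_⟩, ?_, ?_, ?_⟩
  · unfold Dl m21
    rw [a00, a02, a20, a22]
    ring
  · unfold m21 Dl
    rw [a10, a12, a20, a22]
    ring
  · unfold m23
    rw [a00, a02, a10, a12]
    ring
  · unfold Dl m23
    rw [b00, b02, b20, b22]
    ring
  · unfold m21
    rw [b10, b12, b20, b22]
    ring
  · unfold m23 Dl
    rw [b00, b02, b10, b12]
    ring

end Pool.Agent.HMT
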