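import Pool.Agent.HMT.Spec

/-!
# HMT, module Pos2 (helper28): positivity of `A` and of `κ A + B` for the data of a parallel tangle
-/

set_option autoImplicit false

namespace Pool.Agent.HMT

open Polynomial Matrix Pool.Agent.HMA

private theorem Pos2_ev_add (ξ : ℝ) (f g : ℤ[X]) : ev ξ (f + g) = ev ξ f + ev ξ g := map_add _ _ _

private theorem Pos2_ev_sub (ξ : ℝ) (f g : ℤ[X]) : ev ξ (f - g) = ev ξ f - ev ξ g := map_sub _ _ _

private theorem Pos2_ev_mul (ξ : ℝ) (f g : ℤ[X]) : ev ξ (f * g) = ev ξ f * ev ξ g := map_mul _ _ _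

private theorem Pos2_ev_X (ξ : ℝ) : ev ξ X = ξ + ξ⁻¹ := aeval_X _

private theorem Pos2_ev_one (ξ : ℝ) : ev ξ 1 = 1 := map_one _

private theorem Pos2_ev_zero (ξ : ℝ) : ev ξ 0 = 0 := map_zero _

private theorem Pos2_kap (ξ : ℝ) (hξ : 0 < ξ) (d : Bool) :
    0 < kap d ξ ∧ (ξ + ξ⁻¹) * kap d ξ - 1 = kap d ξ * kap d ξ := by
  have h1 : ξ⁻¹ * ξ = 1 := inv_mul_cancel₀ hξ.ne'
  cases d
  · simp only [kap, Bool.false_eq_true, if_false]
    refine ⟨by positivity, ?_⟩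
    linear_combination h1
  · simp only [kap, if_true]
    refine ⟨hξ, ?_⟩
    linear_combination h1

private theorem Pos2_sg (ξ : ℝ) (hξ : 0 < ξ) (d : Bool) :
    ∀ k, kap d ξ * ev ξ (sg k).1 + ev ξ (sg k).2 = kap d ξ ^ k
  | 0 => by
    change kap d ξ * ev ξ 0 + ev ξ 1 = _
    rw [Pos2_ev_zero, Pos2_ev_one]
    ring
  | 1 => by
    change kap d ξ * ev ξ 1 + ev ξ 0 = _
    rw [Pos2_ev_zero, Pos2_ev_one]
    ring
  | k + 2 => by
    have h0 := Pos2_sg ξ hξ d k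
    have h1 := Pos2_sg ξ hξ d (k + 1)
    have h2 := (Pos2_kap ξ hξ d).2
    change kap d ξ * ev ξ (X * (sg (k + 1)).1 - (sg k).1) + ev ξ (X * (sg (k + 1)).2 - (sg k).2) = _
    rw [Pos2_ev_sub, Pos2_ev_sub, Pos2_ev_mul, Pos2_ev_mul, Pos2_ev_X]
    linear_combination (ξ + ξ⁻¹) * h1 - h0 + kap d ξ ^ k * h2

private theorem Pos2_KK (hP : S_Pos) (ξ : ℝ) (hξ : 0 < ξ) (d : Bool) (E : ℕ) (x : ℤ[X] × ℤ[X]) (hx : x ∈ KK E) :
    0 ≤ kap d ξ * ev ξ x.1 + ev ξ x.2 := by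
  unfold KK at hx
  induction hx using AddSubmonoid.closure_induction with
  | mem y hy =>
    obtain ⟨e, k, P, _, hPe, rfl⟩ := hy
    have h1 := hP.1 e P hPe ξ hξ
    have h2 := Pos2_sg ξ hξ d k
    have h3 := (Pos2_kap ξ hξ d).1
    have h4 : kap d ξ * ev ξ (P * (sg k).1) + ev ξ (P * (sg k).2) = ev ξ P * kap d ξ ^ k := by
      rw [Pos2_ev_mul, Pos2_ev_mul, ← h2]
      ring
    change 0 ≤ kap d ξ * ev ξ (P * (sg k).1) + ev ξ (P * (sg k).2)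
    rw [h4]
    positivity
  | zero =>
    change 0 ≤ kap d ξ * ev ξ 0 + ev ξ 0
    rw [Pos2_ev_zero]
    simp
  | add y z _ _ hy hz =>
    change 0 ≤ kap d ξ * ev ξ (y.1 + z.1) + ev ξ (y.2 + z.2)
    rw [Pos2_ev_add, Pos2_ev_add]
    linarith

/-- Module Pos2. -/
theorem tPos2 : S_Pos → S_Cone1 → S_Cone2 → S_Pos2 := by
  intro hP _ hC p q x hx ξ hξ
  refine ⟨hP.2 p q x.1 (hC.2.1 p q x hx) ξ hξ, fun d => ?_⟩
  obtain ⟨p', k, P, R, hpk, hPf, hR, rfl⟩ := hx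
  have h1 := hP.2 p' q P hPf ξ hξ
  have h2 := Pos2_sg ξ hξ d (k + 1)
  have h3 := (Pos2_kap ξ hξ d).1
  have h4 := Pos2_KK hP ξ hξ d _ R hR
  change 0 < kap d ξ * ev ξ (P * (sg (k + 1)).1 + R.1) + ev ξ (P * (sg (k + 1)).2 + R.2)
  rw [Pos2_ev_add, Pos2_ev_add, Pos2_ev_mul, Pos2_ev_mul]
  have h5 : 0 < ev ξ P * kap d ξ ^ (k + 1) := by positivity
  rw [← h2] at h5
  linarith

end Pool.Agent.HMT
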