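import Pool.Agent.HMT.Spec

/-!
# HMT, module Red: the trace of a word of crossings
-/

set_option autoImplicit false

namespace Pool.Agent.HMT

open Polynomial Matrix Pool.Agent.HMA

namespace RedAux

lemma nA_sw (v : List Bool) : HM3.nA (HM3.sw v) = HM3.nB v := by
  unfold HM3.nA HM3.nB HM3.sw
  induction v with
  | nil => rfl
  | cons c v ih =>
    cases c <;> simp [ih]

lemma nB_sw (v : List Bool) : HM3.nB (HM3.sw v) = HM3.nA v := by
  unfold HM3.nA HM3.nB HM3.sw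
  induction v with
  | nil => rfl
  | cons c v ih =>
    cases c <;> simp [ih]

lemma len_sw (v : List Bool) : (HM3.sw v).length = v.length := by
  unfold HM3.sw
  exact List.length_map _

lemma nAB (v : List Bool) : HM3.nA v + HM3.nB v = v.length := by
  unfold HM3.nA HM3.nB
  induction v with
  | nil => rfl
  | cons c v ih =>
    cases c <;> simp <;> omega

lemma SS_mem (k : ℕ) : SS k ∈ Uni k :=
  AddSubmonoid.subset_closure ⟨k, 0, by omega, rfl⟩

lemma kap_ev {ξ : ℝ} (hξ : 0 < ξ) : aeval (ξ ^ 2) HM3.kap = ξ ^ 2 * ((ξ + ξ⁻¹) ^ 2 - 3) := by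
  unfold HM3.kap
  simp only [map_add, map_sub, map_one, map_pow, aeval_X]
  field_simp
  ring

lemma br_ev (h1 : S_Br) {n : ℕ} (hn : 1 ≤ n) {ξ : ℝ} (hξ : 0 < ξ) :
    aeval (ξ ^ 2) (HM3.br n) = ξ ^ (n - 1) * ev ξ (SS (n - 1)) := by
  have := h1 (n - 1) ξ hξ
  rw [show n - 1 + 1 = n by omega] at this
  exact this.symm

lemma ev_mul (ξ : ℝ) (f g : ℤ[X]) : ev ξ (f * g) = ev ξ f * ev ξ g := by
  unfold ev
  exact map_mul _ _ _

lemma ev_add (ξ : ℝ) (f g : ℤ[X]) : ev ξ (f + g) = ev ξ f + ev ξ g := by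
  unfold ev
  exact map_add _ _ _

lemma ev_zero (ξ : ℝ) : ev ξ 0 = 0 := by
  unfold ev
  exact map_zero _

lemma tr_one (ξ : ℝ) (c : Bool) : aeval (ξ ^ 2) (HM3.MM (HM3.sw [c])).trace = 1 + ξ ^ 2 := by
  cases c <;>
    simp [HM3.sw, HM3.MM, HM3.lt, Matrix.trace, Fin.sum_univ_two]

lemma fin (ξ T : ℝ) (l a b : ℕ) (hl : 2 ≤ l) (K E : ℝ) (hK : K = ξ ^ 2 * ((ξ + ξ⁻¹) ^ 2 - 3))
    (hT : T = (ξ ^ 2) ^ b + (ξ ^ 2) ^ a + K * (ξ ^ (l - 2) * E)) :
    T = ξ ^ (2 * a) + ξ ^ (2 * b) + ξ ^ l * (((ξ + ξ⁻¹) ^ 2 - 3) * E) := by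
  obtain ⟨m, rfl⟩ : ∃ m, l = m + 2 := ⟨l - 2, by omega⟩
  rw [hT, hK, show m + 2 - 2 = m by omega, ← pow_mul, ← pow_mul]
  ring

end RedAux

open RedAux

theorem tRed : S_Br → S_UniC → HM3.S_Rot → S_Cheb → S_Red := by
  intro h1 h2 h3 h4 v
  by_cases hv : v.length < 2
  · refine ⟨0, zero_mem _, fun _ => rfl, fun ha hb => ?_, fun ξ hξ => ?_⟩
    · have := nAB v
      omega
    · rw [ev_zero, mul_zero, mul_zero, add_zero]
      match v, hv with
      | [], _ =>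
        have h2 : (HM3.MM (HM3.sw [])).trace = 1 + 1 := by
          simp [HM3.sw, HM3.MM, Matrix.trace]
          norm_num
        rw [h2]
        simp only [map_add, map_one, HM3.nA, HM3.nB, List.count_nil, mul_zero, pow_zero]
      | [c], _ =>
        rw [tr_one]
        cases c <;> simp [HM3.nA, HM3.nB] <;> ring
      | _ :: _ :: _, h =>
        simp only [List.length_cons] at h
        omega
  · obtain ⟨G, hG, hG2⟩ := h3 (HM3.sw v)
    rw [len_sw] at hG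
    obtain ⟨H, hH, hH2⟩ := h2 (v.length - 2) G hG
    rw [nA_sw, nB_sw] at hG2
    have hAB := nAB v
    have htr : ∀ ξ : ℝ, aeval (ξ ^ 2) (HM3.MM (HM3.sw v)).trace =
        (ξ ^ 2) ^ HM3.nB v + (ξ ^ 2) ^ HM3.nA v + aeval (ξ ^ 2) HM3.kap *
          (aeval (ξ ^ 2) (HM3.br (HM3.nB v)) * aeval (ξ ^ 2) (HM3.br (HM3.nA v)) + aeval (ξ ^ 2) G) := by
      intro ξ
      rw [hG2]
      simp only [map_add, map_mul, map_pow, aeval_X]
    by_cases hab : 1 ≤ HM3.nA v ∧ 1 ≤ HM3.nB v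
    · obtain ⟨ha, hb⟩ := hab
      have hlen : HM3.nA v - 1 + (HM3.nB v - 1) = v.length - 2 := by omega
      refine ⟨SS (HM3.nA v - 1) * SS (HM3.nB v - 1) + H, ?_, fun h => absurd h hv, fun _ _ => ?_, fun ξ hξ => ?_⟩
      · refine add_mem ?_ hH
        rw [← hlen]
        exact h4.2.1 _ _ _ _ (SS_mem _) (SS_mem _)
      · refine ⟨H, ?_, rfl⟩
        rw [hlen]
        exact hH
      · refine fin ξ _ v.length (HM3.nA v) (HM3.nB v) (by omega) _ _ (kap_ev hξ) ?_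
        rw [htr, br_ev h1 ha hξ, br_ev h1 hb hξ, ← hH2 ξ hξ, ev_add, ev_mul, ← hlen, pow_add]
        ring
    · refine ⟨H, hH, fun h => absurd h hv, fun ha hb => absurd ⟨ha, hb⟩ hab, fun ξ hξ => ?_⟩
      refine fin ξ _ v.length (HM3.nA v) (HM3.nB v) (by omega) _ _ (kap_ev hξ) ?_
      rw [htr, ← hH2 ξ hξ]
      have h0 : aeval (ξ ^ 2) (HM3.br (HM3.nB v)) * aeval (ξ ^ 2) (HM3.br (HM3.nA v)) = (0 : ℝ) := by
        have hbr0 : HM3.br 0 = 0 := by simp [HM3.br]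
        rcases Nat.eq_zero_or_pos (HM3.nA v) with h | h
        · rw [h, hbr0, map_zero, mul_zero]
        · have : HM3.nB v = 0 := by
            by_contra hne
            exact hab ⟨h, Nat.one_le_iff_ne_zero.2 hne⟩
          rw [this, hbr0, map_zero, zero_mul]
      rw [h0, zero_add]

end Pool.Agent.HMT
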