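import Pool.Agent.HMT.Spec

/-!
# HMT, module Rk2: a rank two determinant formula
-/

set_option autoImplicit false

namespace Pool.Agent.HMT

open Polynomial Matrix Pool.Agent.HMA

theorem tRk2 : S_Rk2 := by
  intro m _ _ F b₁ b₃ t₁ t₃ w₁ w₃ h₁ h₃ H1 H3
  let U : Matrix m (Fin 2) ℝ := Matrix.of fun i k => if k = 0 then -h₁ i else -h₃ i
  let V : Matrix (Fin 2) m ℝ := Matrix.of fun k j => if k = 0 then (if t₁ = j then 1 else 0) else
    (if t₃ = j then 1 else 0)
  have hFU0 : ∀ i, (F * U) i 0 = if b₁ = i then w₁ else 0 := by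
    intro i
    have h := congrFun H1 i
    rw [Matrix.mulVec, dotProduct] at h
    rw [Matrix.mul_apply]
    have h2 : ∑ j, F i j * U j 0 = -∑ j, F i j * h₁ j := by
      rw [← Finset.sum_neg_distrib]
      refine Finset.sum_congr rfl fun j _ => ?_
      simp [U]
    rw [h2, h, Pi.single_apply]
    by_cases hi : i = b₁
    · subst hi
      simp
    · rw [if_neg hi, if_neg (fun h => hi h.symm), neg_zero]
  have hFU1 : ∀ i, (F * U) i 1 = if b₃ = i then w₃ else 0 := by
    intro i
    have h := congrFun H3 i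
    rw [Matrix.mulVec, dotProduct] at h
    rw [Matrix.mul_apply]
    have h2 : ∑ j, F i j * U j 1 = -∑ j, F i j * h₃ j := by
      rw [← Finset.sum_neg_distrib]
      refine Finset.sum_congr rfl fun j _ => ?_
      simp [U]
    rw [h2, h, Pi.single_apply]
    by_cases hi : i = b₃
    · subst hi
      simp
    · rw [if_neg hi, if_neg (fun h => hi h.symm), neg_zero]
  have hA : F + single b₁ t₁ w₁ + single b₃ t₃ w₃ = F * (1 + U * V) := by
    rw [mul_add, mul_one, ← Matrix.mul_assoc, add_assoc]
    congr 1
    ext i j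
    rw [Matrix.add_apply, Matrix.mul_apply, Fin.sum_univ_two, hFU0, hFU1, Matrix.single_apply,
      Matrix.single_apply]
    have e0 : V 0 j = if t₁ = j then 1 else 0 := by simp [V]
    have e1 : V 1 j = if t₃ = j then 1 else 0 := by simp [V]
    rw [e0, e1]
    by_cases hb1 : b₁ = i <;> by_cases hb3 : b₃ = i <;> by_cases ht1 : t₁ = j <;>
      by_cases ht3 : t₃ = j <;> simp [hb1, hb3, ht1, ht3]
  rw [hA, Matrix.det_mul, Matrix.det_one_add_mul_comm]
  congr 1
  have hVU0 : ∀ k, (V * U) 0 k = U t₁ k := by
    intro k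
    rw [Matrix.mul_apply, Finset.sum_eq_single t₁]
    · simp [V]
    · intro j _ hj
      have : V 0 j = 0 := by
        have e0 : V 0 j = if t₁ = j then 1 else 0 := by simp [V]
        rw [e0, if_neg (fun h => hj h.symm)]
      rw [this, zero_mul]
    · intro h
      exact absurd (Finset.mem_univ _) h
  have hVU1 : ∀ k, (V * U) 1 k = U t₃ k := by
    intro k
    rw [Matrix.mul_apply, Finset.sum_eq_single t₃]
    · simp [V]
    · intro j _ hj
      have : V 1 j = 0 := by
        have e0 : V 1 j = if t₃ = j then 1 else 0 := by simp [V]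
        rw [e0, if_neg (fun h => hj h.symm)]
      rw [this, zero_mul]
    · intro h
      exact absurd (Finset.mem_univ _) h
  rw [Matrix.det_fin_two]
  simp only [Matrix.add_apply, hVU0, hVU1]
  simp [U]
  ring

end Pool.Agent.HMT
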