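import Pool.Agent.HMT.Spec
import Pool.Agent.HMA.Row1

/-!
# HMT, module Row1W (helper28): the row sums of the Fox matrix of a word
-/

set_option autoImplicit false

namespace Pool.Agent.HMT

open Polynomial Matrix Pool.Agent.HMA

namespace Row1WAux

open Pool.Agent.HMA.Row1Aux

variable {R : Type} [CommRing R]

theorem elim_base {m n : Type} [DecidableEq m] [DecidableEq n] (i i' : m) (j j' : n) (a b c d : R) :
    (Sum.elim (Pi.single i (-a) + Pi.single i' (-b) + Pi.single i 0)
      (Pi.single j c + (Pi.single j' (-d) + Pi.single j (-c))) : m ⊕ n → R) =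
      Pi.single (Sum.inl i') (-b) + Pi.single (Sum.inl i) (-a) + Pi.single (Sum.inr j') (-d) := by
  rw [single_inl, single_inl, single_inr]
  funext y
  rcases y with y | y
  · simp only [Sum.elim_inl, Pi.add_apply, Pi.zero_apply, Pi.single_zero]
    ring
  · simp only [Sum.elim_inr, Pi.add_apply, Pi.zero_apply, sneg j c]
    ring

theorem elim_A {m n : Type} [DecidableEq m] [DecidableEq n] (b1 t2 b3 : m) (j j' : n) (a b c d e : R) :
    (Sum.elim (Pi.single b1 (-a) + Pi.single t2 (-b) + Pi.single b3 (-c) + Pi.single b1 a)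
      (Pi.single j d + (Pi.single j (-d) + Pi.single j' (-e))) : m ⊕ n → R) =
      Pi.single (Sum.inr j') (-e) + Pi.single (Sum.inl t2) (-b) + Pi.single (Sum.inl b3) (-c) := by
  rw [single_inl, single_inl, single_inr]
  funext y
  rcases y with y | y
  · simp only [Sum.elim_inl, Pi.add_apply, Pi.zero_apply, sneg b1 a]
    ring
  · simp only [Sum.elim_inr, Pi.add_apply, Pi.zero_apply, sneg j d]
    ring

theorem elim_B {m n : Type} [DecidableEq m] [DecidableEq n] (b1 t2 b3 : m) (j j' : n) (a b c d e : R) :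
    (Sum.elim (Pi.single b1 (-a) + Pi.single t2 (-b) + Pi.single b3 (-c) + Pi.single b3 c)
      (Pi.single j d + (Pi.single j' (-e) + Pi.single j (-d))) : m ⊕ n → R) =
      Pi.single (Sum.inl b1) (-a) + Pi.single (Sum.inl t2) (-b) + Pi.single (Sum.inr j') (-e) := by
  rw [single_inl, single_inl, single_inr]
  funext y
  rcases y with y | y
  · simp only [Sum.elim_inl, Pi.add_apply, Pi.zero_apply, sneg b3 c]
    ring
  · simp only [Sum.elim_inr, Pi.add_apply, Pi.zero_apply, sneg j d]
    ring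

end Row1WAux

open Row1WAux Pool.Agent.HMA.Row1Aux in
/-- Module Row1W. -/
theorem tRow1W : S_Row1 → S_Row1W := by
  intro h1 R _ t W
  induction W with
  | base S T =>
    have h := blk (fox t S) (fox t T) S.ne T.nw T.sw S.se 0 (wSW t (T.ovr T.sw)) _ _ (h1 R t S) (h1 R t T)
    have h2 : (single S.ne T.nw (0 : R) : Matrix S.Cr T.Cr R) = 0 := Matrix.single_zero _ _
    rw [h2] at h
    exact h.trans (elim_base S.ne S.sw T.sw T.ne _ _ _ _)
  | addA W T ih =>
    have h := blk (fox3 t W) (fox t T) W.b1 T.nw T.ne W.b2 (wSW t (W.ovr W.b1)) (wNE t (T.ovr T.ne)) _ _ ih (h1 R t T)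
    exact h.trans (elim_A W.b1 W.t2 W.b3 T.ne T.sw _ _ _ _ _)
  | addB W T ih =>
    have h := blk (fox3 t W) (fox t T) W.b3 T.nw T.sw W.b2 (wNE t (W.ovr W.b3)) (wSW t (T.ovr T.sw)) _ _ ih (h1 R t T)
    exact h.trans (elim_B W.b1 W.t2 W.b3 T.sw T.ne _ _ _ _ _)

end Pool.Agent.HMT
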