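import Pool.Agent.HMT.Spec

/-! HMT, module `Sc`: the scalars. -/

set_option autoImplicit false

namespace Pool.Agent.HMT

open Polynomial Matrix Pool.Agent.HMA

theorem tSc : S_Sc := by
  refine ⟨?_, ?_, ?_, ?_, ?_⟩
  · funext ξ
    simp [sc, ev]
  · funext ξ
    simp [sc, ev]
  · intro P Q
    funext ξ
    simp [sc, ev, add_smul]
  · intro P Q
    funext ξ
    simp [sc, ev, mul_smul]
    exact smul_comm _ _ _
  · intro P T
    funext ξ
    refine Prod.ext ?_ (Prod.ext ?_ ?_)
    · simp [sc]
    · simp [sc, mul_comm]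
    · simp [sc, mul_comm]

end Pool.Agent.HMT
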