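import Pool.Agent.HMT.Spec

/-!
# HMT, module TanA: the colourings of a tangle in the columns 1, 2
-/

set_option autoImplicit false

namespace Pool.Agent.HMT

open Polynomial Matrix Pool.Agent.HMA

/-- Module `TanA`. -/
theorem tTanA : S_Row1 → S_TanA := by
  intro hRow T ξ A B c hξ hRel
  obtain ⟨hdet, hm, h₁, hF, hnw, hse⟩ := hRel
  have hrow := hRow ℝ (-(ξ ^ 2)) T
  set F := fox (-(ξ ^ 2)) T with hFdef
  have hξ0 : ξ ≠ 0 := hξ.ne'
  have hc : c ≠ 0 := by
    rintro rfl
    simp at hm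
  have e1 : ((ξ + ξ⁻¹) * A + B) * h₁ T.nw = ξ * A := by
    have h := hnw
    rw [mul_assoc] at h
    exact mul_left_cancel₀ hc h
  have e2 : ((ξ + ξ⁻¹) * A + B) * h₁ T.se = ξ * A + B := by
    have h := hse
    rw [mul_assoc] at h
    exact mul_left_cancel₀ hc h
  refine ⟨hdet, ?_, ?_⟩
  · have h3 : F.adjugate.mulVec (F.mulVec h₁) = F.det • h₁ := by
      rw [Matrix.mulVec_mulVec, Matrix.adjugate_mul, Matrix.smul_mulVec, Matrix.one_mulVec]
    rw [hF] at h3
    have h4 := congrFun h3 T.nw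
    rw [Matrix.mulVec_single] at h4
    simp only [Pi.smul_apply, smul_eq_mul, MulOpposite.smul_eq_mul_unop, MulOpposite.unop_op,
      Matrix.col_apply] at h4
    rw [h4, hdet]
    exact hnw
  · intro y₁ y₂
    refine ⟨((((ξ + ξ⁻¹) * A + B) * (y₂ - y₁)) • h₁ +
      (((ξ + ξ⁻¹) * A + B) * y₁ - ξ * A * y₂) • (fun _ => (1 : ℝ))), ?_, ?_, ?_⟩
    · rw [← hFdef, Matrix.mulVec_add, Matrix.mulVec_smul, Matrix.mulVec_smul, hF, hrow]
      funext i
      simp only [Pi.add_apply, Pi.smul_apply, smul_eq_mul, Pi.single_apply]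
      split_ifs <;> ring
    · simp only [Pi.add_apply, Pi.smul_apply, smul_eq_mul]
      linear_combination (y₂ - y₁) * e1
    · simp only [Pi.add_apply, Pi.smul_apply, smul_eq_mul]
      linear_combination (y₂ - y₁) * e2

end Pool.Agent.HMT
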