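import Pool.Agent.HMT.Spec

/-!
# HMT, module Tr: the trace of the 3 x 3 matrix from the 2 x 2 matrix
-/

set_option autoImplicit false

namespace Pool.Agent.HMT

open Polynomial Matrix Pool.Agent.HMA

namespace TrAux

/-- The intertwiner. -/
noncomputable def P : Matrix (Fin 2) (Fin 3) ℝ := !![0, 1, -1; 1, -1, 0]

/-- The transposed real matrix of the word. -/
noncomputable def S (ξ : ℝ) (v : List Bool) : Matrix (Fin 2) (Fin 2) ℝ :=
  ((HM3.MM (HM3.sw v)).map (aeval (ξ ^ 2))).transpose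

/-- The transposed letter matrices. -/
noncomputable def sl (ξ : ℝ) (c : Bool) : Matrix (Fin 2) (Fin 2) ℝ :=
  if c then !![1, 1; 0, ξ ^ 2] else !![1, 0; ξ ^ 2, ξ ^ 2]

theorem wd_cons (ξ : {ξ : ℝ // 0 < ξ}) (c : Bool) (v : List Bool) :
    (wd3 (c :: v) ξ).1 = (wd3 v ξ).1 * RR c ξ.1 1 0 ∧
    (wd3 (c :: v) ξ).2.1 = (wd3 v ξ).2.1 * kap (!c) ξ.1 ∧
    (wd3 (c :: v) ξ).2.2 = (wd3 v ξ).2.2 * kap c ξ.1 := by
  have h1 : ev ξ.1 1 = 1 := by
    unfold ev
    exact map_one _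
  have h0 : ev ξ.1 0 = 0 := by
    unfold ev
    exact map_zero _
  refine ⟨?_, ?_, ?_⟩
  · show (wd3 v ξ).1 * RR c ξ.1 (ev ξ.1 1) (ev ξ.1 0) = _
    rw [h1, h0]
  · show (wd3 v ξ).2.1 * (kap (!c) ξ.1 * ev ξ.1 1 + ev ξ.1 0) = _
    rw [h1, h0, mul_one, add_zero]
  · show (wd3 v ξ).2.2 * (kap c ξ.1 * ev ξ.1 1 + ev ξ.1 0) = _
    rw [h1, h0, mul_one, add_zero]

theorem S_cons (ξ : ℝ) (c : Bool) (v : List Bool) : S ξ (c :: v) = S ξ v * sl ξ c := by
  have h1 : HM3.MM (HM3.sw (c :: v)) = HM3.lt (!c) * HM3.MM (HM3.sw v) := rfl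
  unfold S
  rw [h1]
  have h2 : (HM3.lt (!c) * HM3.MM (HM3.sw v)).map (aeval (ξ ^ 2)) =
      (HM3.lt (!c)).map (aeval (ξ ^ 2)) * (HM3.MM (HM3.sw v)).map (aeval (ξ ^ 2)) :=
    Matrix.map_mul (f := (aeval (ξ ^ 2) : ℤ[X] →ₐ[ℤ] ℝ).toRingHom)
  rw [h2, Matrix.transpose_mul]
  congr 1
  ext i j
  cases c <;> fin_cases i <;> fin_cases j <;> simp [HM3.lt, sl]

theorem P_let (ξ : ℝ) (hξ : 0 < ξ) (c : Bool) : P * (ξ • RR c ξ 1 0) = sl ξ c * P := by
  have h0 : ξ ≠ 0 := hξ.ne'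
  have h1 : ξ * ξ⁻¹ = 1 := mul_inv_cancel₀ h0
  ext i j
  cases c <;> fin_cases i <;> fin_cases j <;>
    simp [P, RR, sl, Matrix.mul_apply, Fin.sum_univ_three, Fin.sum_univ_two] <;>
    first
      | done
      | linear_combination h1
      | linear_combination (-1 : ℝ) * h1
      | linear_combination (0 : ℝ) * h1

theorem one_let (ξ : ℝ) (hξ : 0 < ξ) (c : Bool) :
    (ξ • RR c ξ 1 0).mulVec (fun _ => 1) = (ξ * kap (!c) ξ) • (fun _ => (1 : ℝ)) := by
  have h0 : ξ ≠ 0 := hξ.ne'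
  have h1 : ξ * ξ⁻¹ = 1 := mul_inv_cancel₀ h0
  ext i
  cases c <;> fin_cases i <;>
    simp [RR, kap, Matrix.mulVec, dotProduct, Fin.sum_univ_three] <;>
    first
      | done
      | linear_combination h1
      | linear_combination (-1 : ℝ) * h1
      | linear_combination (0 : ℝ) * h1

theorem key (ξ : {ξ : ℝ // 0 < ξ}) (v : List Bool) :
    P * (ξ.1 ^ v.length • (wd3 v ξ).1) = S ξ.1 v * P ∧
    (ξ.1 ^ v.length • (wd3 v ξ).1).mulVec (fun _ => 1) =
      (ξ.1 ^ v.length * (wd3 v ξ).2.1) • (fun _ => (1 : ℝ)) := by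
  induction v with
  | nil =>
    have h1 : (wd3 [] ξ).1 = 1 := rfl
    have h2 : (wd3 [] ξ).2.1 = 1 := rfl
    have h3 : S ξ.1 [] = 1 := by
      have h4 : HM3.MM (HM3.sw []) = 1 := rfl
      unfold S
      rw [h4, Matrix.map_one _ (map_zero _) (map_one _), Matrix.transpose_one]
    rw [h1, h2, h3, List.length_nil, pow_zero, one_smul, Matrix.mul_one, Matrix.one_mul,
      Matrix.one_mulVec, mul_one, one_smul]
    exact ⟨rfl, rfl⟩
  | cons c v ih =>
    obtain ⟨e1, e2, -⟩ := wd_cons ξ c v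
    have h1 : ξ.1 ^ (c :: v).length • (wd3 (c :: v) ξ).1 =
        (ξ.1 ^ v.length • (wd3 v ξ).1) * (ξ.1 • RR c ξ.1 1 0) := by
      rw [e1, List.length_cons, pow_succ, smul_mul_smul_comm]
    rw [h1]
    constructor
    · rw [← Matrix.mul_assoc, ih.1, Matrix.mul_assoc, P_let ξ.1 ξ.2 c, ← Matrix.mul_assoc, S_cons]
    · rw [← Matrix.mulVec_mulVec, one_let ξ.1 ξ.2 c, Matrix.mulVec_smul, ih.2, smul_smul, e2,
        List.length_cons, pow_succ]
      congr 1
      ring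

end TrAux

open TrAux in
theorem tTr : S_Tr := by
  intro v ξ
  have hξ := ξ.2
  have hξ0 : ξ.1 ≠ 0 := hξ.ne'
  refine ⟨?_, ?_, ?_⟩
  · obtain ⟨h1, h2⟩ := key ξ v
    set N := ξ.1 ^ v.length • (wd3 v ξ).1 with hN
    set T := S ξ.1 v with hT
    have ht : ξ.1 ^ v.length * (wd3 v ξ).1.trace = N 0 0 + N 1 1 + N 2 2 := by
      rw [← smul_eq_mul, ← Matrix.trace_smul, ← hN, Matrix.trace_fin_three]
    have hs : aeval (ξ.1 ^ 2) (HM3.MM (HM3.sw v)).trace = T 0 0 + T 1 1 := by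
      rw [Matrix.trace_fin_two, map_add]
      rfl
    have a00 := congrFun (congrFun h1 0) 0
    have a01 := congrFun (congrFun h1 0) 1
    have a10 := congrFun (congrFun h1 1) 0
    have r2 := congrFun h2 2
    simp only [P, Matrix.mul_apply, Fin.sum_univ_three, Fin.sum_univ_two, Matrix.of_apply,
      Matrix.cons_val', Matrix.cons_val_zero, Matrix.cons_val_one, Matrix.cons_val_two,
      Matrix.mulVec, dotProduct, Pi.smul_apply, smul_eq_mul] at a00 a01 a10 r2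
    rw [ht, hs]
    simp at a00 a01 a10 r2
    linarith
  · induction v with
    | nil =>
      have h2 : (wd3 [] ξ).2.1 = 1 := rfl
      have h3 : HM3.nB [] = 0 := rfl
      rw [h2, h3, List.length_nil]
      simp
    | cons c v ih =>
      obtain ⟨-, e2, -⟩ := wd_cons ξ c v
      rw [e2, List.length_cons, pow_succ]
      have h4 : ξ.1 ^ v.length * ξ.1 * ((wd3 v ξ).2.1 * kap (!c) ξ.1) =
          (ξ.1 ^ v.length * (wd3 v ξ).2.1) * (ξ.1 * kap (!c) ξ.1) := by ring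
      rw [h4, ih]
      cases c
      · have h5 : HM3.nB (false :: v) = HM3.nB v + 1 := by simp [HM3.nB]
        rw [h5]
        simp only [kap, Bool.not_false, if_true]
        ring
      · have h5 : HM3.nB (true :: v) = HM3.nB v := by simp [HM3.nB]
        rw [h5]
        simp [kap, mul_inv_cancel₀ hξ0]
  · induction v with
    | nil =>
      have h2 : (wd3 [] ξ).2.2 = 1 := rfl
      have h3 : HM3.nA [] = 0 := rfl
      rw [h2, h3, List.length_nil]
      simp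
    | cons c v ih =>
      obtain ⟨-, -, e2⟩ := wd_cons ξ c v
      rw [e2, List.length_cons, pow_succ]
      have h4 : ξ.1 ^ v.length * ξ.1 * ((wd3 v ξ).2.2 * kap c ξ.1) =
          (ξ.1 ^ v.length * (wd3 v ξ).2.2) * (ξ.1 * kap c ξ.1) := by ring
      rw [h4, ih]
      cases c
      · have h5 : HM3.nA (false :: v) = HM3.nA v := by simp [HM3.nA]
        rw [h5]
        simp [kap, mul_inv_cancel₀ hξ0]
      · have h5 : HM3.nA (true :: v) = HM3.nA v + 1 := by simp [HM3.nA]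
        rw [h5]
        simp only [kap, if_true]
        ring

end Pool.Agent.HMT
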