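import Pool.Agent.HMT.Spec

/-! # The triples are multiplicative -/

set_option autoImplicit false

namespace Pool.Agent.HMT

open Polynomial Matrix Pool.Agent.HMA

namespace TriAux

theorem ev_add (ξ : ℝ) (f g : ℤ[X]) : ev ξ (f + g) = ev ξ f + ev ξ g := by
  rw [ev, ev, ev, map_add]

theorem ev_sub (ξ : ℝ) (f g : ℤ[X]) : ev ξ (f - g) = ev ξ f - ev ξ g := by
  rw [ev, ev, ev, map_sub]

theorem ev_mul (ξ : ℝ) (f g : ℤ[X]) : ev ξ (f * g) = ev ξ f * ev ξ g := by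
  rw [ev, ev, ev, map_mul]

theorem ev_X (ξ : ℝ) : ev ξ X = ξ + ξ⁻¹ := by
  rw [ev, aeval_X]

theorem ev_zero (ξ : ℝ) : ev ξ 0 = 0 := by
  rw [ev, map_zero]

theorem ev_one (ξ : ℝ) : ev ξ 1 = 1 := by
  rw [ev, map_one]

theorem rr_one (c : Bool) (ξ : ℝ) : RR c ξ 0 1 = 1 := by
  cases c
  · ext i j
    fin_cases i <;> fin_cases j <;> simp [RR]
  · ext i j
    fin_cases i <;> fin_cases j <;> simp [RR]

theorem rr_add (c : Bool) (ξ A B A' B' : ℝ) :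
    RR c ξ (A + A') (B + B') = RR c ξ A B + RR c ξ A' B' := by
  cases c
  · ext i j
    fin_cases i <;> fin_cases j <;> simp [RR] <;> ring
  · ext i j
    fin_cases i <;> fin_cases j <;> simp [RR] <;> ring

theorem rr_smul (c : Bool) (ξ p A B : ℝ) :
    RR c ξ (p * A) (p * B) = (p • (1 : Matrix (Fin 3) (Fin 3) ℝ)) * RR c ξ A B := by
  rw [smul_mul_assoc, one_mul]
  cases c
  · ext i j
    fin_cases i <;> fin_cases j <;> simp [RR] <;> ring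
  · ext i j
    fin_cases i <;> fin_cases j <;> simp [RR] <;> ring

theorem rr_mul (c : Bool) (ξ η A B A' B' : ℝ) (h : ξ * η = 1) (hη : ξ⁻¹ = η) :
    RR c ξ ((ξ + ξ⁻¹) * (A * A') + A * B' + A' * B) (B * B' - A * A') =
      RR c ξ A B * RR c ξ A' B' := by
  cases c
  · ext i j
    fin_cases i <;> fin_cases j <;>
      simp [RR, Matrix.mul_apply, Fin.sum_univ_three, hη]
    · linear_combination (A * A') * h
    · linear_combination (A * A') * h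
    · ring
    · ring
    · linear_combination (A * A') * h
  · ext i j
    fin_cases i <;> fin_cases j <;>
      simp [RR, Matrix.mul_apply, Fin.sum_univ_three, hη]
    · linear_combination (A * A') * h
    · ring
    · ring
    · linear_combination (A * A') * h
    · linear_combination (A * A') * h

theorem kap_mul (c : Bool) (ξ A B A' B' : ℝ) (h : 0 < ξ) :
    kap c ξ * ((ξ + ξ⁻¹) * (A * A') + A * B' + A' * B) + (B * B' - A * A') =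
      (kap c ξ * A + B) * (kap c ξ * A' + B') := by
  have h1 : ξ * ξ⁻¹ = 1 := mul_inv_cancel₀ h.ne'
  cases c
  · change ξ⁻¹ * _ + _ = (ξ⁻¹ * A + B) * (ξ⁻¹ * A' + B')
    linear_combination (A * A') * h1
  · change ξ * _ + _ = (ξ * A + B) * (ξ * A' + B')
    linear_combination (A * A') * h1

end TriAux

open TriAux in
theorem tTri : S_Tri := by
  intro c
  refine ⟨?_, ?_, ?_, ?_⟩
  · funext ξ
    refine Prod.ext ?_ (Prod.ext ?_ ?_)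
    · change RR c ξ.1 (ev ξ.1 0) (ev ξ.1 1) = 1
      rw [ev_zero, ev_one, rr_one]
    · change kap (!c) ξ.1 * ev ξ.1 0 + ev ξ.1 1 = 1
      rw [ev_zero, ev_one, mul_zero, zero_add]
    · change kap c ξ.1 * ev ξ.1 0 + ev ξ.1 1 = 1
      rw [ev_zero, ev_one, mul_zero, zero_add]
  · intro x y
    funext ξ
    refine Prod.ext ?_ (Prod.ext ?_ ?_)
    · change RR c ξ.1 (ev ξ.1 (x.1 + y.1)) (ev ξ.1 (x.2 + y.2)) =
        RR c ξ.1 (ev ξ.1 x.1) (ev ξ.1 x.2) + RR c ξ.1 (ev ξ.1 y.1) (ev ξ.1 y.2)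
      rw [ev_add, ev_add, rr_add]
    · change kap (!c) ξ.1 * ev ξ.1 (x.1 + y.1) + ev ξ.1 (x.2 + y.2) =
        kap (!c) ξ.1 * ev ξ.1 x.1 + ev ξ.1 x.2 + (kap (!c) ξ.1 * ev ξ.1 y.1 + ev ξ.1 y.2)
      rw [ev_add, ev_add]
      ring
    · change kap c ξ.1 * ev ξ.1 (x.1 + y.1) + ev ξ.1 (x.2 + y.2) =
        kap c ξ.1 * ev ξ.1 x.1 + ev ξ.1 x.2 + (kap c ξ.1 * ev ξ.1 y.1 + ev ξ.1 y.2)
      rw [ev_add, ev_add]
      ring
  · intro x y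
    have e1 : ∀ ξ : ℝ, ev ξ (pm x y).1 = (ξ + ξ⁻¹) * (ev ξ x.1 * ev ξ y.1) + ev ξ x.1 * ev ξ y.2 +
        ev ξ y.1 * ev ξ x.2 := by
      intro ξ
      change ev ξ (X * (x.1 * y.1) + x.1 * y.2 + y.1 * x.2) = _
      rw [ev_add, ev_add, ev_mul, ev_mul, ev_mul, ev_mul, ev_X]
    have e2 : ∀ ξ : ℝ, ev ξ (pm x y).2 = ev ξ x.2 * ev ξ y.2 - ev ξ x.1 * ev ξ y.1 := by
      intro ξ
      change ev ξ (x.2 * y.2 - x.1 * y.1) = _
      rw [ev_sub, ev_mul, ev_mul]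
    funext ξ
    refine Prod.ext ?_ (Prod.ext ?_ ?_)
    · change RR c ξ.1 (ev ξ.1 (pm x y).1) (ev ξ.1 (pm x y).2) =
        RR c ξ.1 (ev ξ.1 x.1) (ev ξ.1 x.2) * RR c ξ.1 (ev ξ.1 y.1) (ev ξ.1 y.2)
      rw [e1, e2]
      exact rr_mul c ξ.1 ξ.1⁻¹ _ _ _ _ (mul_inv_cancel₀ ξ.2.ne') rfl
    · change kap (!c) ξ.1 * ev ξ.1 (pm x y).1 + ev ξ.1 (pm x y).2 =
        (kap (!c) ξ.1 * ev ξ.1 x.1 + ev ξ.1 x.2) * (kap (!c) ξ.1 * ev ξ.1 y.1 + ev ξ.1 y.2)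
      rw [e1, e2, kap_mul _ _ _ _ _ _ ξ.2]
    · change kap c ξ.1 * ev ξ.1 (pm x y).1 + ev ξ.1 (pm x y).2 =
        (kap c ξ.1 * ev ξ.1 x.1 + ev ξ.1 x.2) * (kap c ξ.1 * ev ξ.1 y.1 + ev ξ.1 y.2)
      rw [e1, e2, kap_mul _ _ _ _ _ _ ξ.2]
  · intro P x
    funext ξ
    refine Prod.ext ?_ (Prod.ext ?_ ?_)
    · change RR c ξ.1 (ev ξ.1 (P * x.1)) (ev ξ.1 (P * x.2)) =
        (ev ξ.1 P • (1 : Matrix (Fin 3) (Fin 3) ℝ)) * RR c ξ.1 (ev ξ.1 x.1) (ev ξ.1 x.2)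
      rw [ev_mul, ev_mul, rr_smul]
    · change kap (!c) ξ.1 * ev ξ.1 (P * x.1) + ev ξ.1 (P * x.2) =
        ev ξ.1 P * (kap (!c) ξ.1 * ev ξ.1 x.1 + ev ξ.1 x.2)
      rw [ev_mul, ev_mul]
      ring
    · change kap c ξ.1 * ev ξ.1 (P * x.1) + ev ξ.1 (P * x.2) =
        ev ξ.1 P * (kap c ξ.1 * ev ξ.1 x.1 + ev ξ.1 x.2)
      rw [ev_mul, ev_mul]
      ring

end Pool.Agent.HMT
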