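import Pool.Agent.HMT.Spec

/-!
# HMT, UniC: symmetric unimodal polynomials as sums of `SS`
-/

set_option autoImplicit false

namespace Pool.Agent.HMT

open Polynomial Matrix Pool.Agent.HMA

namespace UniCAux

theorem coeff_br (n j : ℕ) : (HM3.br n).coeff j = if j < n then 1 else 0 := by
  unfold HM3.br
  rw [finsetSum_coeff]
  simp only [coeff_X_pow]
  rw [Finset.sum_ite_eq]
  simp only [Finset.mem_range]

theorem mono (d : ℕ) : Uni d ≤ Uni (d + 2) := by
  unfold Uni
  apply AddSubmonoid.closure_mono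
  rintro f ⟨k, i, h, rfl⟩
  exact ⟨k, i + 1, by omega, rfl⟩

theorem mem (d n : ℕ) : n • SS d ∈ Uni d := by
  have h : SS d ∈ Uni d := AddSubmonoid.subset_closure ⟨d, 0, by omega, rfl⟩
  exact AddSubmonoid.nsmul_mem _ h n

theorem evs (h : S_Br) (d : ℕ) (g : ℤ) (hg : 0 ≤ g) (ξ : ℝ) (hξ : 0 < ξ) :
    ξ ^ d * ev ξ (g.toNat • SS d) = aeval (ξ ^ 2) (C g * HM3.br (d + 1)) := by
  have h1 := h d ξ hξ
  have h2 : ((g.toNat : ℕ) : ℝ) = (g : ℝ) := by
    have h3 : ((g.toNat : ℕ) : ℤ) = g := Int.toNat_of_nonneg hg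
    have h4 : (((g.toNat : ℕ) : ℤ) : ℝ) = (g : ℝ) := by rw [h3]
    rwa [Int.cast_natCast] at h4
  unfold ev at h1 ⊢
  rw [map_nsmul, map_mul, ← h1, nsmul_eq_mul, h2, aeval_C, algebraMap_int_eq, eq_intCast]
  ring

/-- the first step -/
theorem coeff_G' (d : ℕ) (G : ℤ[X]) (g : ℤ) (j : ℕ) :
    (divX (G - C g * HM3.br (d + 3))).coeff j =
      G.coeff (j + 1) - g * (if j + 1 < d + 3 then 1 else 0) := by
  rw [coeff_divX, coeff_sub, coeff_C_mul, coeff_br]

theorem main (h : S_Br) : ∀ (d : ℕ) (G : ℤ[X]), HM3.Uni d G →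
    ∃ H ∈ Uni d, ∀ ξ : ℝ, 0 < ξ → ξ ^ d * ev ξ H = aeval (ξ ^ 2) G
  | 0, G, hG => by
    obtain ⟨h1, h2, h3, h4⟩ := hG
    refine ⟨(G.coeff 0).toNat • SS 0, mem 0 _, ?_⟩
    intro ξ hξ
    rw [evs h 0 _ h3 ξ hξ]
    congr 1
    ext j
    rw [coeff_C_mul, coeff_br]
    by_cases hj : j = 0
    · subst hj
      simp
    · rw [if_neg (by omega), h1 j (by omega), mul_zero]
  | 1, G, hG => by
    obtain ⟨h1, h2, h3, h4⟩ := hG
    refine ⟨(G.coeff 0).toNat • SS 1, mem 1 _, ?_⟩
    intro ξ hξ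
    rw [evs h 1 _ h3 ξ hξ]
    congr 1
    ext j
    rw [coeff_C_mul, coeff_br]
    by_cases hj : j < 1 + 1
    · rw [if_pos hj, mul_one]
      rcases Nat.lt_or_ge j 1 with h5 | h5
      · have : j = 0 := by omega
        rw [this]
      · have : j = 1 := by omega
        rw [this]
        exact h2 0 1 (by omega)
    · rw [if_neg hj, h1 j (by omega), mul_zero]
  | d + 2, G, hG => by
    obtain ⟨h1, h2, h3, h4⟩ := hG
    set g : ℤ := G.coeff 0 with hg
    set G' : ℤ[X] := divX (G - C g * HM3.br (d + 3)) with hG'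
    have cG : ∀ j, G'.coeff j = G.coeff (j + 1) - g * (if j + 1 < d + 3 then 1 else 0) :=
      fun j => coeff_G' d G g j
    have hU : HM3.Uni d G' := by
      refine ⟨?_, ?_, ?_, ?_⟩
      · intro j hj
        rw [cG]
        by_cases hj2 : j + 1 < d + 3
        · rw [if_pos hj2, mul_one, ← h2 0 (j + 1) (by omega), ← hg, sub_self]
        · rw [if_neg hj2, h1 (j + 1) (by omega), mul_zero, sub_zero]
      · intro i j hij
        rw [cG, cG, if_pos (by omega), if_pos (by omega), h2 (i + 1) (j + 1) (by omega)]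
      · rw [cG, if_pos (by omega), mul_one, sub_nonneg]
        exact h4 0 (by omega)
      · intro j hj
        rw [cG, cG, if_pos (by omega), if_pos (by omega)]
        have := h4 (j + 1) (by omega)
        linarith
    obtain ⟨H', hH', hev⟩ := main h d G' hU
    refine ⟨g.toNat • SS (d + 2) + H', AddSubmonoid.add_mem _ (mem (d + 2) _) (mono d hH'), ?_⟩
    intro ξ hξ
    have e1 : G = C g * HM3.br (d + 3) + X * G' := by
      have e3 : (G - C g * HM3.br (d + 3)).coeff 0 = 0 := by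
        rw [coeff_sub, coeff_C_mul, coeff_br, if_pos (by omega), mul_one, ← hg, sub_self]
      have e4 := X_mul_divX_add (p := G - C g * HM3.br (d + 3))
      rw [e3, map_zero, add_zero] at e4
      rw [hG', e4]
      ring
    have e5 : ev ξ (g.toNat • SS (d + 2) + H') = ev ξ (g.toNat • SS (d + 2)) + ev ξ H' := by
      unfold ev
      rw [map_add]
    have e6 := evs h (d + 2) g h3 ξ hξ
    have e7 := hev ξ hξ
    rw [e5, mul_add, e6]
    have e8 : aeval (ξ ^ 2) G = aeval (ξ ^ 2) (C g * HM3.br (d + 3)) + ξ ^ 2 * aeval (ξ ^ 2) G' := by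
      conv_lhs => rw [e1]
      rw [map_add, map_mul (aeval (ξ ^ 2)) X G', aeval_X]
    rw [e8, ← e7, show d + 2 + 1 = d + 3 by ring]
    ring

end UniCAux

theorem tUniC : S_Br → S_UniC := fun h => UniCAux.main h

end Pool.Agent.HMT
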