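import Pool.Agent.HMT.Spec

/-!
# HMT, module Wd3: words of crossings, powers
-/

set_option autoImplicit false

namespace Pool.Agent.HMT

open Polynomial Matrix Pool.Agent.HMA

private theorem Wd3_app (v v' : List Bool) : wd3 (v ++ v') = wd3 v' * wd3 v := by
  induction v with
  | nil => simp [wd3]
  | cons c v ih =>
    rw [List.cons_append]
    show wd3 (v ++ v') * tri c (1, 0) = wd3 v' * (wd3 v * tri c (1, 0))
    rw [ih, mul_assoc]

/-- **Wd3** (words of crossings, powers) -/
theorem tWd3 : S_Tri → S_Cone1 → S_Wd3 := by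
  intro h1 h2
  refine ⟨Wd3_app, ?_⟩
  intro c k
  induction k with
  | zero =>
    have e : sg 0 = ((0 : ℤ[X]), (1 : ℤ[X])) := by
      simp [sg]
    rw [e, (h1 c).1]
    rfl
  | succ k ih =>
    have e : sg 1 = ((1 : ℤ[X]), (0 : ℤ[X])) := by
      simp [sg]
    rw [← h2.2.1 k 1, (h1 c).2.2.1, ih, e]
    rfl

end Pool.Agent.HMT
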