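import Pool.Agent.HMA.Main
import Pool.Agent.HM3.MainW
import Pool.Agent.HMT.Br
import Pool.Agent.HMT.UniC
import Pool.Agent.HMT.Red
import Pool.Agent.HMT.Tr
import Pool.Agent.HMT.GfW
import Pool.Agent.HMT.Sc
import Pool.Agent.HMT.Tri
import Pool.Agent.HMT.Wd3
import Pool.Agent.HMT.KT
import Pool.Agent.HMT.KF
import Pool.Agent.HMT.KTri
import Pool.Agent.HMT.GK
import Pool.Agent.HMT.GF
import Pool.Agent.HMT.Pos2
import Pool.Agent.HMT.TanA
import Pool.Agent.HMT.TanB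
import Pool.Agent.HMT.Dat
import Pool.Agent.HMT.Mn
import Pool.Agent.HMT.InvR
import Pool.Agent.HMT.AdjV
import Pool.Agent.HMT.DetA
import Pool.Agent.HMT.DetB
import Pool.Agent.HMT.HA
import Pool.Agent.HMT.HB
import Pool.Agent.HMT.Base
import Pool.Agent.HMT.Ind3
import Pool.Agent.HMT.Rk2
import Pool.Agent.HMT.Row1W
import Pool.Agent.HMT.ClsD
import Pool.Agent.HMT.ClsF
import Pool.Agent.HMT.LKT
import Pool.Agent.HMT.LKW
import Pool.Agent.HMT.AdjW
import Pool.Agent.HMT.MapW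
import Pool.Agent.HMT.FinW
import Pool.Agent.HMT.Goe

/-! HMT, module `Main`: the assembly. -/

set_option autoImplicit false

namespace Pool.Agent.HMT

open Pool.Agent.HMA

theorem mUniC : S_UniC := tUniC tBr
theorem mRed : S_Red := tRed tBr mUniC HM3.m_Rot tCheb
theorem mGfW : S_GfW := tGfW mRed tTr
theorem mWd3 : S_Wd3 := tWd3 tTri mCone1
theorem mKT : S_KT := tKT tSc tTri mWd3 tCheb
theorem mKF : S_KF := tKF tSc mWd3 mKT mFullM
theorem mKTri : S_KTri := tKTri tTri mWd3 mKT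
theorem mGK : S_GK := tGK mGfW tCheb
theorem mGF : S_GF := tGF mGfW mGK mFullM
theorem mPos2 : S_Pos2 := tPos2 tPos mCone1 mCone2
theorem mTanA : S_TanA := tTanA tRow1
theorem mTanB : S_TanB := tTanB tRow1
theorem mDat : S_Dat := tDat mInd mTanA mTanB
theorem mInvR : S_InvR := tInvR tMn
theorem mDetA : S_DetA := tDetA tDet tAdjV tMn
theorem mDetB : S_DetB := tDetB tDet tAdjV tMn
theorem mInd3 : S_Ind3 := tInd3 mDat mPos2 mKTri mKF mInvR mDetA mDetB tHA tHB tBase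
theorem mRow1W : S_Row1W := tRow1W tRow1
theorem mClsD : S_ClsD := tClsD tRk2 mRow1W
theorem mLKT : S_LKT := tLKT mLK
theorem mLKW : S_LKW := tLKW mLKT
theorem mAdjW : S_AdjW := tAdjW mRow1W mLKW
theorem mFinW : S_FinW := tFinW mInd3 mGF mClsD tClsF mAdjW tMapW mRead

end Pool.Agent.HMT
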