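import Pool.Agent.HMT.Spec
import Pool.Agent.HMA.Fin

/-! HMT, module `MapW`: the entries of the adjugate over `ℤ[X]` and over `ℝ`. -/

set_option autoImplicit false

namespace Pool.Agent.HMT

open Polynomial Matrix Pool.Agent.HMA

namespace MapWAux

theorem map_zero' {R S : Type*} [CommRing R] [CommRing S] (f : R →+* S) {m n : Type*} :
    (0 : Matrix m n R).map f = 0 := by
  ext i j
  simp

theorem map_fox3 {R S : Type*} [CommRing R] [CommRing S] (f : R →+* S) (t : R) (W : Wd) :
    (fox3 t W).map f = fox3 (f t) W := by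
  induction W with
  | base S T =>
    refine (fromBlocks_map (fox t S) 0 (single T.sw S.se (wSW t (T.ovr T.sw))) (fox t T) f).trans ?_
    rw [FinAux.map_fox, FinAux.map_fox, FinAux.map_single, FinAux.map_wSW, map_zero']
    rfl
  | addA W T ihW =>
    refine (fromBlocks_map (fox3 t W) (single W.b1 T.nw (wSW t (W.ovr W.b1)))
      (single T.ne W.b2 (wNE t (T.ovr T.ne))) (fox t T) f).trans ?_
    rw [ihW, FinAux.map_fox, FinAux.map_single, FinAux.map_single, FinAux.map_wSW, FinAux.map_wNE]
    rfl
  | addB W T ihW =>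
    refine (fromBlocks_map (fox3 t W) (single W.b3 T.nw (wNE t (W.ovr W.b3)))
      (single T.sw W.b2 (wSW t (T.ovr T.sw))) (fox t T) f).trans ?_
    rw [ihW, FinAux.map_fox, FinAux.map_single, FinAux.map_single, FinAux.map_wSW, FinAux.map_wNE]
    rfl

theorem map_foxW {R S : Type*} [CommRing R] [CommRing S] (f : R →+* S) (t : R) (W : Wd) :
    (foxW t W).map f = foxW (f t) W := by
  unfold foxW
  rw [FinAux.map_add', FinAux.map_add', FinAux.map_add', map_fox3, FinAux.map_single,
    FinAux.map_single, FinAux.map_single, FinAux.map_wSW, FinAux.map_wNE, FinAux.map_wNE]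

end MapWAux

theorem tMapW : S_MapW := by
  intro W i j y
  have h := RingHom.map_adjugate ((aeval y : ℤ[X] →ₐ[ℤ] ℝ) : ℤ[X] →+* ℝ) (foxW (X : ℤ[X]) W)
  have h2 := congrFun (congrFun h i) j
  rw [RingHom.mapMatrix_apply, RingHom.mapMatrix_apply, MapWAux.map_foxW] at h2
  simpa using h2

end Pool.Agent.HMT
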