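import Pool.Agent.HMT.Defs

/-!
# HMT, Spec: the statements of the modules

THEOREM. Let `W` be a word of parallel alternating algebraic tangles (all strands downwards through the
ends). Every first minor of the Fox matrix of the closure of `W` has the pattern with the signature
`sigW W`.

PROOF. A parallel tangle has the data `x = (A, B)` (HMA: `PatA`, `PatB`), in `FullK p q`. The colourings
of the word at `t = - ξ²` are described by the product `M` of the matrices `RR` and the products `n`, `n'`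
of the numbers `κ A + B` (module `Ind3`). The minor of the closed diagram is
`ξ^K (trace M - 2 n - n') / (u² - 3)`, `u = ξ + ξ⁻¹` (modules `ClsD`, `ClsF`). The triple `(M, n, n')` is
multilinear in the data, and for words of crossings it is given by the theorem on alternating 3-braids
(HM3, `S_Rot`; modules `Red`, `Tr`, `GfW`). So the minor is `ξ^K F`, `F` in `Full (p - 1) (q - 1)` with
`p - q = sigW W` (module `GF`), and `HMA.S_Read` gives the pattern.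

Every module proves one `S_..`; modules which use other statements take them as hypotheses (named in the
docstring, in this order). Everything of HMA (`S_Cheb`, `S_FullM`, ...) is in `Pool.Agent.HMA`, the
statements of HM3 are written with `HM3.`.
-/

namespace Pool.Agent.HMT

open Polynomial Matrix Pool.Agent.HMA

/-! ## Part 1: words of crossings -/

/-- Module `Br`. Induction in steps of two: `SS (k+2) = X * SS (k+1) - SS k` and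
`br (k+3) = (1 + X) * br (k+2) - X * br (k+1)`. -/
def S_Br : Prop := ∀ (a : ℕ) (ξ : ℝ), 0 < ξ → ξ ^ a * ev ξ (SS a) = aeval (ξ ^ 2) (HM3.br (a + 1))

/-- Module `UniC` (uses `S_Br`). Strong induction on `d`. `d = 0`: `G = C g₀`; `d = 1`: `G = C g₀ * br 2`;
`d + 2`: `G = C g₀ * br (d + 3) + X * G'`, `G'` in `HM3.Uni d` (the coefficients of
`G - C g₀ * br (d + 3)` are `g_j - g₀` for `j ≤ d + 2`, zero for `j = 0`, `j = d + 2`; `divX`);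
`H = g₀.toNat • SS (d + 2) + H'`. (An element of `Uni d` is in `Uni (d + 2)`: closure induction, `i + 1`.) -/
def S_UniC : Prop := ∀ (d : ℕ) (G : ℤ[X]), HM3.Uni d G →
  ∃ H ∈ Uni d, ∀ ξ : ℝ, 0 < ξ → ξ ^ d * ev ξ H = aeval (ξ ^ 2) G

/-- Module `Red` (uses `S_Br`, `S_UniC`, `HM3.S_Rot`). `v.length < 2`: direct (`v = []`: the trace is `2`;
`v = [c]`: the trace is `1 + X`), `F = 0`. Otherwise `HM3.S_Rot` for `sw v` (`nA (sw v) = nB v`,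
`nB (sw v) = nA v`, the length is the same), `aeval (ξ²) kap = ξ² (u² - 3)`; if both letters occur
`F = SS (nA v - 1) * SS (nB v - 1) + H` (in `Uni (nA v + nB v - 2)` by `S_Cheb`, part 2, as
`SS k ∈ Uni k`), if one letter does not occur `br 0 = 0` and `F = H`. The last hypothesis is
`HMA.S_Cheb`. -/
def S_Red : Prop := ∀ v : List Bool, ∃ F : ℤ[X], F ∈ Uni (v.length - 2) ∧ (v.length < 2 → F = 0) ∧
  (1 ≤ HM3.nA v → 1 ≤ HM3.nB v → Full (HM3.nA v - 1) (HM3.nB v - 1) F) ∧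
  ∀ ξ : ℝ, 0 < ξ → aeval (ξ ^ 2) (HM3.MM (HM3.sw v)).trace =
    ξ ^ (2 * HM3.nA v) + ξ ^ (2 * HM3.nB v) + ξ ^ v.length * (((ξ + ξ⁻¹) ^ 2 - 3) * ev ξ F)

/-- Module `Tr`. Let `P = !![0, 1, -1; 1, -1, 0]` (a `2 x 3` matrix) and `ρ v` the real matrix
`ξ^(-|v|) * (aeval (ξ²) (MM (sw v)))ᵀ` (all entries). Induction on `v`: `P * (wd3 v ξ).1 = ρ v * P` (for
one letter: `P * RR true ξ 1 0 = ξ⁻¹ * !![1, 1; 0, ξ²] * P`, `P * RR false ξ 1 0 =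
ξ⁻¹ * !![1, 0; ξ², ξ²] * P`, which are `ξ⁻¹` times the transposed letter matrices `HM3.lt false`,
`HM3.lt true` at `X = ξ²`), and the row sums of `(wd3 v ξ).1` are `(wd3 v ξ).2.1`. The six entries of
`P M = ρ P` and the row sum of the third row give `trace M = (wd3 v ξ).2.1 + trace ρ`: `M 1 0 - M 2 0 = ρ 0 1`,
`M 0 0 - M 1 0 = ρ 1 1`, `M 1 1 - M 2 1 = ρ 0 0 - ρ 0 1`. -/
def S_Tr : Prop := ∀ (v : List Bool) (ξ : {ξ : ℝ // 0 < ξ}),
  ξ.1 ^ v.length * (wd3 v ξ).1.trace =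
    ξ.1 ^ v.length * (wd3 v ξ).2.1 + aeval (ξ.1 ^ 2) (HM3.MM (HM3.sw v)).trace ∧
  ξ.1 ^ v.length * (wd3 v ξ).2.1 = ξ.1 ^ (2 * HM3.nB v) ∧
  ξ.1 ^ v.length * (wd3 v ξ).2.2 = ξ.1 ^ (2 * HM3.nA v)

/-- Module `GfW` (uses `S_Red`, `S_Tr`). Multiply by `ξ ^ v.length`. -/
def S_GfW : Prop := ∀ v : List Bool, ∃ F : ℤ[X], F ∈ Uni (v.length - 2) ∧ (v.length < 2 → F = 0) ∧
  (1 ≤ HM3.nA v → 1 ≤ HM3.nB v → Full (HM3.nA v - 1) (HM3.nB v - 1) F) ∧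
  ∀ ξ : {ξ : ℝ // 0 < ξ}, Gf (wd3 v) ξ = ((ξ.1 + ξ.1⁻¹) ^ 2 - 3) * ev ξ.1 F

/-! ## Part 2: the cones -/

/-- Module `Sc`. -/
def S_Sc : Prop :=
  sc 0 = 0 ∧ sc 1 = 1 ∧ (∀ P Q, sc (P + Q) = sc P + sc Q) ∧ (∀ P Q, sc (P * Q) = sc P * sc Q) ∧
  (∀ P T, sc P * T = T * sc P)

/-- Module `Tri`. Componentwise; `ev ξ X = ξ + ξ⁻¹`, `ev` is a ring homomorphism. The `2 x 2` block of
`RR c` is `A S + B 1` with `S ^ 2 = u S - 1`, and `κ ^ 2 = u κ - 1` for `κ = kap d ξ`. -/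
def S_Tri : Prop := ∀ c : Bool,
  tri c (0, 1) = 1 ∧ (∀ x y, tri c (x + y) = tri c x + tri c y) ∧
  (∀ x y, tri c (pm x y) = tri c x * tri c y) ∧
  (∀ (P : ℤ[X]) (x : ℤ[X] × ℤ[X]), tri c (P * x.1, P * x.2) = sc P * tri c x)

/-- Module `Wd3` (uses `S_Tri`, `HMA.S_Cone1`). Induction. -/
def S_Wd3 : Prop :=
  (∀ v v' : List Bool, wd3 (v ++ v') = wd3 v' * wd3 v) ∧
  (∀ (c : Bool) (k : ℕ), tri c (sg k) = wd3 (List.replicate k c))

/-- Module `KT` (uses `S_Sc`, `S_Tri`, `S_Wd3`, `HMA.S_Cheb`). (1) a generator; (2) closure induction in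
both arguments, `(sc P * wd3 v) * (sc P' * wd3 v') = sc (P * P') * wd3 (v' ++ v)`; (3) closure induction,
`tri c (P * (sg k).1, P * (sg k).2) = sc P * wd3 (List.replicate k c)`. -/
def S_KT : Prop :=
  (∀ (e : ℕ) (P : ℤ[X]) (v : List Bool), P ∈ Uni e → sc P * wd3 v ∈ KT (e + v.length)) ∧
  (∀ (E E' : ℕ) (T T' : TT), T ∈ KT E → T' ∈ KT E' → T * T' ∈ KT (E + E')) ∧
  (∀ (c : Bool) (E : ℕ) (x : ℤ[X] × ℤ[X]), x ∈ KK E → tri c x ∈ KT E)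

/-- Module `KF` (uses `S_Sc`, `S_Wd3`, `S_KT`, `HMA.S_FullM`). The product of the leading terms is
`sc (P * P') * wd3 (v' ++ v)` with `P * P'` full; the other three products are in the cone (a full
polynomial is in `Uni (a + b)`, so `sc P * wd3 v ∈ KT (p + q)`; `nA v + nB v = v.length`). -/
def S_KF : Prop := ∀ (p q s r p' q' s' r' : ℕ) (T T' : TT),
  KFull p q s r T → KFull p' q' s' r' T' → KFull (p + p') (q + q') (s + s') (r + r') (T * T')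

/-- Module `KTri` (uses `S_Tri`, `S_Wd3`, `S_KT`). `x = P σ^(k+1) + R`: `v = List.replicate (k + 1) c`;
`Full` is symmetric in the two indices. -/
def S_KTri : Prop :=
  (∀ (p q : ℕ) (x : ℤ[X] × ℤ[X]), FullK p q x → KFull (p + 1) q 1 0 (tri true x)) ∧
  (∀ (p q : ℕ) (x : ℤ[X] × ℤ[X]), FullK q p x → KFull p (q + 1) 0 1 (tri false x))

/-- Module `GK` (uses `S_GfW`, `HMA.S_Cheb`). Closure induction; `Gf` is additive and
`Gf (sc P * T) ξ = ev ξ P * Gf T ξ`. For a generator: `P * F`, in `Uni (e + (v.length - 2))`, and `0` if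
`v.length < 2`. -/
def S_GK : Prop := ∀ (E : ℕ) (T : TT), T ∈ KT E → ∃ F ∈ Uni (E - 2),
  ∀ ξ : {ξ : ℝ // 0 < ξ}, Gf T ξ = ((ξ.1 + ξ.1⁻¹) ^ 2 - 3) * ev ξ.1 F

/-- Module `GF` (uses `S_GfW`, `S_GK`, `HMA.S_FullM`). `P * F_v` is full of type
`(a + (nA v - 1), b + (nB v - 1)) = (p - 1, q - 1)`. -/
def S_GF : Prop := ∀ (p q : ℕ) (T : TT), KFull p q 1 1 T → 1 ≤ p ∧ 1 ≤ q ∧
  ∃ F : ℤ[X], Full (p - 1) (q - 1) F ∧
    ∀ ξ : {ξ : ℝ // 0 < ξ}, Gf T ξ = ((ξ.1 + ξ.1⁻¹) ^ 2 - 3) * ev ξ.1 F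

/-! ## Part 3: the tangles -/

/-- Module `Pos2` (uses `HMA.S_Pos`, `HMA.S_Cone1`, `HMA.S_Cone2`). The first claim: `S_Cone2` (2),
`S_Pos`. The second: `φ x = κ A + B` (`κ = kap d ξ`, `κ² = u κ - 1`) satisfies `φ (pm x y) = φ x * φ y`, so
`φ (sg k) = κ ^ k`; `φ ≥ 0` on `KK E` (closure induction), `φ (P σ^(k+1)) = P κ^(k+1) > 0`. -/
def S_Pos2 : Prop := ∀ (p q : ℕ) (x : ℤ[X] × ℤ[X]), FullK p q x → ∀ ξ : ℝ, 0 < ξ →
  0 < ev ξ x.1 ∧ ∀ d : Bool, 0 < kap d ξ * ev ξ x.1 + ev ξ x.2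

/-- Module `TanA` (uses `HMA.S_Row1`). `m = c (u A + B) > 0`, `h₁` the solution of `Rel` (so
`h₁ nw = ξ A / (u A + B)`, `h₁ se = (ξ A + B) / (u A + B)`). Second part: multiply `fox *ᵥ h₁ = ..` by the
adjugate. Third part: `h = α h₁ + β 1` with `β = (u A + B) y₁ - ξ A y₂`, `α = (ξ⁻¹ A + B) y₂ - β`
(`S_Row1`); `(ξ A + B) (ξ⁻¹ A + B) = A² + u A B + B²`. -/
def S_TanA : Prop := ∀ (T : Tangle) (ξ A B c : ℝ), 0 < ξ →
  Rel T ξ (c * ((ξ + ξ⁻¹) * A + B)) (c * (ξ * A)) (c * (ξ * A + B)) → TanA T ξ A B c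

/-- Module `TanB` (uses `HMA.S_Row1`). `h₁ nw = (ξ A + B) / (u A + B)`, `h₁ se = ξ A / (u A + B)`. Second
part: `fox *ᵥ (1 - h₁) = single sw (- wSW)` (`S_Row1`), multiply by the adjugate. Third part:
`h = α h₁ + β 1` with `β = (ξ A + B) y₂`, `α = (u A + B) y₃ - ξ⁻¹ A y₂ - β`. -/
def S_TanB : Prop := ∀ (T : Tangle) (ξ A B c : ℝ), 0 < ξ →
  Rel T ξ (c * ((ξ + ξ⁻¹) * A + B)) (c * (ξ * A + B)) (c * (ξ * A)) → TanB T ξ A B c

/-- Module `Dat` (uses `HMA.S_Ind`, `S_TanA`, `S_TanB`). The orientations of the four ends single out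
`PatB` with `d = true` (first part), `PatA` with `d = true` (second part). -/
def S_Dat : Prop :=
  (∀ T : Tangle, DownA T → ∃ (x : ℤ[X] × ℤ[X]) (p q : ℕ) (K : ℤ), FullK p q x ∧
    (p : ℤ) - q = faces T - positive T ∧
    ∀ ξ : ℝ, 0 < ξ → TanA T ξ (ev ξ x.1) (ev ξ x.2) (ξ ^ K)) ∧
  (∀ T : Tangle, DownB T → ∃ (x : ℤ[X] × ℤ[X]) (p q : ℕ) (K : ℤ), FullK q p x ∧
    (p : ℤ) - q = faces T - positive T + 1 ∧
    ∀ ξ : ℝ, 0 < ξ → TanB T ξ (ev ξ x.1) (ev ξ x.2) (ξ ^ K))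

/-! ## Part 4: the words -/

/-- Module `Mn`. The minors of the product. -/
def S_Mn : Prop := ∀ (ξ A B : ℝ) (M : Matrix (Fin 3) (Fin 3) ℝ), 0 < ξ →
  (Dl (RR true ξ A B * M) = (ξ⁻¹ * A + B) * (((ξ + ξ⁻¹) * A + B) * Dl M - ξ * A * m21 M) ∧
    m21 (RR true ξ A B * M) = (ξ⁻¹ * A + B) * (ξ⁻¹ * A * Dl M + B * m21 M) ∧
    m23 (RR true ξ A B * M) = (ξ⁻¹ * A + B) * (ξ * A + B) * m23 M) ∧
  (Dl (RR false ξ A B * M) = (ξ * A + B) * (((ξ + ξ⁻¹) * A + B) * Dl M - ξ⁻¹ * A * m23 M) ∧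
    m21 (RR false ξ A B * M) = (ξ * A + B) * (ξ⁻¹ * A + B) * m21 M ∧
    m23 (RR false ξ A B * M) = (ξ * A + B) * (ξ * A * Dl M + B * m23 M))

/-- Module `InvR` (uses `S_Mn`). The first part is clear. Second part: row sums and the left eigenvector
`(1, -ξ², ξ⁴)`: entries; determinant: `det (RR c ξ A B) = ν² ν'` (`ν = kap (!c) ξ A + B`,
`ν' = kap c ξ A + B`, `(u A + B) B + A² = ν ν'`). Minors, `c = true` (`n = ξ⁻¹ A + B`, `n# = ξ A + B`):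
`0 ≤ m21 ≤ Dl`, so `(u A + B) Dl - ξ A m21 ≥ (ξ⁻¹ A + B) Dl > 0`, `ξ⁻¹ A Dl + B m21 ≥ (ξ⁻¹ A + B) m21 ≥ 0`, and the
new `Dl - m21 - m23` is `n n#` times the old one. `c = false`: the same with `m21`, `m23` and `ξ`, `ξ⁻¹`
exchanged. -/
def S_InvR : Prop :=
  (∀ ξ : ℝ, 0 < ξ → Inv ξ 1 1 1) ∧
  ∀ (c : Bool) (ξ A B : ℝ), 0 < ξ → 0 ≤ A → (∀ d : Bool, 0 < kap d ξ * A + B) →
    ∀ (M : Matrix (Fin 3) (Fin 3) ℝ) (n n' : ℝ), Inv ξ M n n' →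
      Inv ξ (RR c ξ A B * M) ((kap (!c) ξ * A + B) * n) ((kap c ξ * A + B) * n')

/-- Module `AdjV`. First claim: `Col` for `x = ![M 2 2, 0, -M 2 0]`: `M x` has the components `Dl M`,
`m21 M`, `0`; so `fox3 *ᵥ h = single b1 (- wSW * Dl M)`, multiply by the adjugate, and use
`n * det = c * Dl M`, cancel `Dl M > 0`. Second claim: `x = ![-M 0 2, 0, M 0 0]`: `M x` has the components
`0`, `m23 M`, `Dl M`. -/
def S_AdjV : Prop := ∀ (W : Wd) (ξ : ℝ) (M : Matrix (Fin 3) (Fin 3) ℝ) (n n' c : ℝ),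
  Inv ξ M n n' → RelW W ξ M n c →
  n * ((fox3 (-(ξ ^ 2)) W).adjugate W.b2 W.b1 * -(wSW (-(ξ ^ 2)) (W.ovr W.b1))) = c * m21 M ∧
  n * ((fox3 (-(ξ ^ 2)) W).adjugate W.b2 W.b3 * -(wNE (-(ξ ^ 2)) (W.ovr W.b3))) = c * m23 M

/-- Module `DetA` (uses `HMA.S_Det`, `S_AdjV`, `S_Mn`). `S_Det` for the blocks of `fox3 (addA W T)`
(`l = W.b2`, `i = W.b1`, `j = T.nw`, `k = T.ne`), multiplied by `n`:
`n * det = (c Dl) (c' (u A + B)) - (c m21) (c' ξ A)`. -/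
def S_DetA : Prop := ∀ (W : Wd) (T : Tangle) (ξ : ℝ) (M : Matrix (Fin 3) (Fin 3) ℝ) (n n' c A B c' : ℝ),
  0 < ξ → 0 < c → 0 < c' → 0 < (ξ + ξ⁻¹) * A + B → Inv ξ M n n' → RelW W ξ M n c → TanA T ξ A B c' →
  (ξ⁻¹ * A + B) * n * (fox3 (-(ξ ^ 2)) (.addA W T)).det = c * c' * Dl (RR true ξ A B * M)

/-- Module `DetB` (uses `HMA.S_Det`, `S_AdjV`, `S_Mn`). As `DetA` (`l = W.b2`, `i = W.b3`, `j = T.nw`,
`k = T.sw`): `n * det = (c Dl) (c' (u A + B)) - (c m23) (c' ξ⁻¹ A)`. -/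
def S_DetB : Prop := ∀ (W : Wd) (T : Tangle) (ξ : ℝ) (M : Matrix (Fin 3) (Fin 3) ℝ) (n n' c A B c' : ℝ),
  0 < ξ → 0 < c → 0 < c' → 0 < (ξ + ξ⁻¹) * A + B → Inv ξ M n n' → RelW W ξ M n c → TanB T ξ A B c' →
  (ξ * A + B) * n * (fox3 (-(ξ ^ 2)) (.addB W T)).det = c * c' * Dl (RR false ξ A B * M)

/-- Module `HA`. Let `ν = ξ⁻¹ A + B`, `z = M x`. On `W`: the colouring for `ν x`. On `T`: the colouring for
`y₁ = z 0`, `y₂ = z 1`. The row `W.b1` gets `wSW * ν z 0`, the row `T.ne` gets `wNE * ν z 1`; both vanish.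
The lower ends are `u A z₀ + B z₀ - ξ A z₁`, `ξ⁻¹ A z₀ + B z₁`, `ν z₂`, the entries of `RR true * M *ᵥ x`. -/
def S_HA : Prop := ∀ (W : Wd) (T : Tangle) (ξ : ℝ) (M : Matrix (Fin 3) (Fin 3) ℝ) (n A B : ℝ),
  Col W ξ M n → ColA T ξ A B → Col (.addA W T) ξ (RR true ξ A B * M) ((ξ⁻¹ * A + B) * n)

/-- Module `HB`. Let `ν = ξ A + B`, `z = M x`. On `W`: the colouring for `ν x`. On `T`: the colouring for
`y₂ = z 1`, `y₃ = z 2`. The row `W.b3` gets `wNE * ν z 2`, the row `T.sw` gets `wSW * ν z 1`; both vanish. -/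
def S_HB : Prop := ∀ (W : Wd) (T : Tangle) (ξ : ℝ) (M : Matrix (Fin 3) (Fin 3) ℝ) (n A B : ℝ),
  Col W ξ M n → ColB T ξ A B → Col (.addB W T) ξ (RR false ξ A B * M) ((ξ * A + B) * n)

/-- Module `Base`. First claim: on `S` the colouring for `y₁ = ν' x 0`, `y₂ = ν' x 1` (`ν' = ξ A' + B'`),
with the lower values `ν' (u A + B) x₀ - ..`; on `T` the colouring for `y₂ = ξ⁻¹ A x₀ + B x₁`,
`y₃ = (ξ⁻¹ A + B) x₂`; the row `T.sw` gets `wSW * ν' y₂` and vanishes. Second claim: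
`det_fromBlocks_zero₁₂`, and `Dl (RR false ξ A' B' * RR true ξ A B)` is
`(ξ A' + B') (ξ⁻¹ A + B) (u A' + B') (u A + B)` (`m23 (RR true ξ A B) = 0`). -/
def S_Base : Prop := ∀ (S T : Tangle) (ξ A B c A' B' c' : ℝ), 0 < ξ →
  TanA S ξ A B c → TanB T ξ A' B' c' →
  RelW (.base S T) ξ (RR false ξ A' B' * RR true ξ A B) ((ξ * A' + B') * (ξ⁻¹ * A + B)) (c * c')

/-- Module `Ind3` (uses `S_Dat`, `S_Pos2`, `S_KTri`, `S_KF`, `S_InvR`, `S_DetA`, `S_DetB`, `S_HA`, `S_HB`,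
`S_Base`). Induction on `W`. `base S T`: `tri false x' * tri true x`, `p = (p₁ + 1) + p₂`,
`q = q₁ + (q₂ + 1)`, `K = K₁ + K₂`; `Inv` from `S_InvR` twice, starting with `Inv ξ 1 1 1`. `addA W T`:
`tri true x * T'`, `(p + p₁ + 1, q + q₁)`; `addB W T`: `tri false x * T'`, `(p + p₂, q + q₂ + 1)`. (In `S_KF`
use `KFull` with `1 + 0`, `0 + 1` etc., and that `KFull` is monotone: `s`, `r` may be decreased.)
`u A + B = A ξ⁻¹ + (ξ A + B) > 0`. -/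
def S_Ind3 : Prop := ∀ W : Wd, W.Down → ∃ (T : TT) (p q : ℕ) (K : ℤ), KFull p q 1 1 T ∧
  (p : ℤ) - q = sigW W ∧
  ∀ ξ : {ξ : ℝ // 0 < ξ}, Inv ξ.1 (T ξ).1 (T ξ).2.1 (T ξ).2.2 ∧
    RelW W ξ.1 (T ξ).1 (T ξ).2.1 (ξ.1 ^ K)

/-! ## Part 5: the closure -/

/-- Module `Rk2`. `F + single b₁ t₁ w₁ + single b₃ t₃ w₃ = F * (1 + U * V)` with the `m x 2` matrix `U` with
the columns `- h₁`, `- h₃` and the `2 x m` matrix `V` with the rows `e_t₁`, `e_t₃`;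
`det (1 + U V) = det (1 + V U)` (`Matrix.det_one_add_mul_comm`), `Matrix.det_fin_two`. (`det F ≠ 0` is
not needed.) -/
def S_Rk2 : Prop := ∀ (m : Type) [Fintype m] [DecidableEq m] (F : Matrix m m ℝ) (b₁ b₃ t₁ t₃ : m)
  (w₁ w₃ : ℝ) (h₁ h₃ : m → ℝ),
  F.mulVec h₁ = Pi.single b₁ (-w₁) → F.mulVec h₃ = Pi.single b₃ (-w₃) →
  (F + single b₁ t₁ w₁ + single b₃ t₃ w₃).det =
    F.det * ((1 - h₁ t₁) * (1 - h₃ t₃) - h₃ t₁ * h₁ t₃)

/-- Module `Row1W` (uses `HMA.S_Row1`): the row sums (`wNE t o + wSW t o` is not needed). Induction; the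
two glued rows get one entry more. (See the lemmas `Row1Aux.blk` in `Pool/Agent/HMA/Row1.lean`.) -/
def S_Row1W : Prop := ∀ (R : Type) [CommRing R] (t : R) (W : Wd),
  (fox3 t W).mulVec (fun _ => 1) = Pi.single W.b1 (-(wSW t (W.ovr W.b1))) +
    Pi.single W.t2 (-(wNE t (W.ovr W.t2))) + Pi.single W.b3 (-(wNE t (W.ovr W.b3)))

/-- Module `ClsD` (uses `S_Rk2`, `S_Row1W`). In `adjugate b2 t2` the row `t2` is replaced
(`adjugate_apply`), so it does not see `single t2 b2 ..`: it is the entry of the adjugate of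
`D = fox3 + single b1 t1 w₁ + single b3 t3 w₃`. The rows of `D` sum to `single t2 (- w₂)` (`S_Row1W`), so
`det D = adjugate b2 t2 * (- w₂)` (multiply by the adjugate). `S_Rk2` with `h₁`, `h₃` from `Col` for
`x = ![M 2 2, 0, -M 2 0]` and `x = ![-M 0 2, 0, M 0 0]`, both divided by `Dl M` (see `AdjV`):
`h₁ t1 = n M 2 2 / Dl`, `h₁ t3 = - n M 2 0 / Dl`, `h₃ t1 = - n M 0 2 / Dl`, `h₃ t3 = n M 0 0 / Dl`. -/
def S_ClsD : Prop := ∀ (W : Wd) (ξ : ℝ) (M : Matrix (Fin 3) (Fin 3) ℝ) (n n' c : ℝ),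
  Inv ξ M n n' → RelW W ξ M n c →
  (foxW (-(ξ ^ 2)) W).adjugate W.b2 W.t2 * -(wNE (-(ξ ^ 2)) (W.ovr W.t2)) =
    c * (Dl M / n - M 0 0 - M 2 2 + n)

/-- Module `ClsF`. `M - n` kills the vector `1` and is killed by `ℓ = (1, -ξ², ξ⁴)`, so its adjugate is
`s 1 ℓ`; its trace is `n (n' - trace M + 2 n)` (`det M = n² n'`), its middle entry `n` times the bracket.
Direct proof: solve the row sums and the left equations for `M 0 1`, `M 1 0`, `M 1 1`, `M 1 2`, `M 2 1` and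
insert into the determinant; everything is divisible by `n`. -/
def S_ClsF : Prop := ∀ (ξ : ℝ) (M : Matrix (Fin 3) (Fin 3) ℝ) (n n' : ℝ), 0 < ξ → Inv ξ M n n' →
  (Dl M / n - M 0 0 - M 2 2 + n) * ((ξ + ξ⁻¹) ^ 2 - 3) = M.trace - 2 * n - n'

/-- Module `LKT` (uses `HMA.S_LK`): `ν = 0` for the first part, `ν = 2` for the second part. -/
def S_LKT : Prop :=
  (∀ T : Tangle, DownA T → ∃ z : T.Cr → ℤ, ∀ y : ℝ, 0 < y →
    (∀ j, ∑ i, y ^ (z i) * fox (-y) T i j =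
      (if j = T.nw then 1 else 0) + (if j = T.se then y else 0)) ∧
    -(wNE (-y) (T.ovr T.ne)) * y ^ (z T.ne) = y ∧ -(wSW (-y) (T.ovr T.sw)) * y ^ (z T.sw) = 1) ∧
  (∀ T : Tangle, DownB T → ∃ z : T.Cr → ℤ, ∀ y : ℝ, 0 < y →
    (∀ j, ∑ i, y ^ (z i) * fox (-y) T i j =
      (if j = T.nw then y ^ 2 else 0) + (if j = T.se then y else 0)) ∧
    -(wNE (-y) (T.ovr T.ne)) * y ^ (z T.ne) = y ^ 2 ∧ -(wSW (-y) (T.ovr T.sw)) * y ^ (z T.sw) = y)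

/-- Module `LKW` (uses `S_LKT`): induction, `z = Sum.elim z₁ z₂`. The columns of the glued over ends
(`S.se` in `base`; `W.b2`, `T.nw` in `addA`, `addB`) vanish. -/
def S_LKW : Prop := ∀ W : Wd, W.Down → ∃ z : W.Cr → ℤ, ∀ y : ℝ, 0 < y →
  (∀ j, ∑ i, y ^ (z i) * fox3 (-y) W i j =
    (if j = W.t1 then 1 else 0) + (if j = W.b2 then y else 0) + (if j = W.t3 then y ^ 2 else 0)) ∧
  -(wSW (-y) (W.ovr W.b1)) * y ^ (z W.b1) = 1 ∧
  -(wNE (-y) (W.ovr W.t2)) * y ^ (z W.t2) = y ∧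
  -(wNE (-y) (W.ovr W.b3)) * y ^ (z W.b3) = y ^ 2

/-- Module `AdjW` (uses `S_Row1W`, `S_LKW`): as `Pool/Agent/HMA/Adj.lean` (`AdjAux.rows` twice, for the
matrix with the vector `1` and for the transpose with the vector `y ^ z`). -/
def S_AdjW : Prop := ∀ W : Wd, W.Down → ∃ z : W.Cr → ℤ, ∀ y : ℝ, 0 < y → ∀ i j i',
  (foxW (-y) W).adjugate i j = y ^ (z j) * (foxW (-y) W).adjugate i' W.t2

/-- Module `MapW`: as `FinAux.map_adj` in `Pool/Agent/HMA/Fin.lean`. -/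
def S_MapW : Prop := ∀ (W : Wd) (i j : W.Cr) (y : ℝ),
  aeval y ((foxW (X : ℤ[X]) W).adjugate i j) = (foxW y W).adjugate i j

/-- Module `FinW` (uses `S_Ind3`, `S_GF`, `S_ClsD`, `S_ClsF`, `S_AdjW`, `S_MapW`, `HMA.S_Read`): the main
theorem. `(foxW ..).adjugate b2 t2 * (- wNE) = ξ ^ K * ev ξ F`, then as `FinAux.key` in
`Pool/Agent/HMA/Fin.lean`; `u² - 3 > 0`. -/
def S_FinW : Prop := ∀ W : Wd, W.Down → ∀ i j : W.Cr,
  Pattern ((foxW (X : ℤ[X]) W).adjugate i j) (sigW W)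

/-- Module `Goe`: the Gordon-Litherland signature is `sigW`. As `Pool/Agent/HMA/Goe.lean`: `sgn_goeritz`
with `GoeAux.conn` for the tangles (induction on the open word: a function on `RegW W` with
`x (aboveW c) = x (belowW c)` for all `c` is constant), and `Fintype.card (FcW W) + 1 = facesW W`. -/
def S_Goe : Prop := ∀ W : Wd, sigGLW W = sigW W

end Pool.Agent.HMT
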