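import Pool.Agent.HMT.Spec

/-!
# HMT, module TanB: the colourings of a tangle in the columns 2, 3
-/

set_option autoImplicit false

namespace Pool.Agent.HMT

open Polynomial Matrix Pool.Agent.HMA

/-- Module `TanB`. -/
theorem tTanB : S_Row1 → S_TanB := by
  intro hRow T ξ A B c hξ hRel
  obtain ⟨hdet, hm, h₁, hF, hnw, hse⟩ := hRel
  have hrow := hRow ℝ (-(ξ ^ 2)) T
  set F := fox (-(ξ ^ 2)) T with hFdef
  have hξ0 : ξ ≠ 0 := hξ.ne'
  have hc : c ≠ 0 := by
    rintro rfl
    simp at hm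
  -- the values of h₁ at the ends
  have e1 : ((ξ + ξ⁻¹) * A + B) * h₁ T.nw = ξ * A + B := by
    have h := hnw
    rw [mul_assoc] at h
    exact mul_left_cancel₀ hc h
  have e2 : ((ξ + ξ⁻¹) * A + B) * h₁ T.se = ξ * A := by
    have h := hse
    rw [mul_assoc] at h
    exact mul_left_cancel₀ hc h
  refine ⟨hdet, ?_, ?_⟩
  · -- the entry of the adjugate
    have h2 : F.mulVec ((fun _ => 1) - h₁) = Pi.single T.sw (-(wSW (-(ξ ^ 2)) (T.ovr T.sw))) := by
      rw [Matrix.mulVec_sub, hrow, hF]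
      abel
    have h3 : F.adjugate.mulVec (F.mulVec ((fun _ => 1) - h₁)) = F.det • ((fun _ => 1) - h₁) := by
      rw [Matrix.mulVec_mulVec, Matrix.adjugate_mul, Matrix.smul_mulVec, Matrix.one_mulVec]
    rw [h2] at h3
    have h4 := congrFun h3 T.nw
    rw [Matrix.mulVec_single] at h4
    simp only [Pi.smul_apply, Pi.sub_apply, smul_eq_mul, MulOpposite.smul_eq_mul_unop, MulOpposite.unop_op,
      Matrix.col_apply] at h4
    rw [h4, hdet]
    have h5 : c * ((ξ + ξ⁻¹) * A + B) * (1 - h₁ T.nw) = c * ((ξ + ξ⁻¹) * A + B) - c * (ξ * A + B) := by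
      rw [mul_sub, mul_one, hnw]
    rw [h5]
    ring
  · -- the colourings
    intro y₂ y₃
    refine ⟨((((ξ + ξ⁻¹) * A + B) * (y₃ - y₂)) • h₁ + ((ξ * A + B) * y₂) • (fun _ => (1 : ℝ))), ?_, ?_, ?_⟩
    · rw [← hFdef, Matrix.mulVec_add, Matrix.mulVec_smul, Matrix.mulVec_smul, hF, hrow]
      funext i
      simp only [Pi.add_apply, Pi.smul_apply, smul_eq_mul, Pi.single_apply]
      split_ifs <;> ring
    · simp only [Pi.add_apply, Pi.smul_apply, smul_eq_mul]
      linear_combination (y₃ - y₂) * e1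
    · simp only [Pi.add_apply, Pi.smul_apply, smul_eq_mul]
      linear_combination (y₃ - y₂) * e2

end Pool.Agent.HMT
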